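import Pool.Agent.N410.TB.Main
import Pool.Agent.W2helper87.SR.TotFin
import Pool.Agent.W2helper87.LD.All

/-!
# Total colourings of random graphs: forests
-/

set_option autoImplicit false

namespace Pool.Agent.W2helper87.TC

open Finset Pool.Agent.H162R2.Sparse Pool.Agent.H162R2.AG Pool.Agent.W2helper87.SR
open Pool.Agent.W2helper87.FR Pool.Agent.W2helper87.LD
open Pool.Agent.Results.MP_db9399_co.SparseLargeDegrees

/-- forests, from the theorem on bipartite graphs -/
theorem ext_acyclic {n : ℕ} (G : SimpleGraph (Fin n)) (hG : G.IsAcyclic) (D : ℕ)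
    (hdeg : ∀ v, dg G v ≤ D) (H : SimpleGraph (Fin n)) (hH : IsDistThreeMatching G H) (k : ℕ)
    (hk : D + 2 ≤ k) : Extends G H k := by
  classical
  obtain ⟨C⟩ := hG.colorable_two
  obtain ⟨Δ, rfl⟩ : ∃ Δ, k = Δ + 2 := ⟨k - 2, by omega⟩
  intro c d hcd hc hd
  have hX : ∀ u v, G.Adj u v → (u ∈ {x : Fin n | C x = 0} ↔ v ∉ {x : Fin n | C x = 0}) := by
    intro u v huv
    have h1 := C.valid huv
    simp only [Set.mem_ofPred_eq]
    constructor
    · intro h2 h3
      exact h1 (h2.trans h3.symm)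
    · intro h2
      by_contra h3
      apply h1
      omega
  let f0 : Fin n → Fin (Δ + 2) := fun v => if h : c v < Δ + 2 then ⟨c v, h⟩ else 0
  let g0 : Sym2 (Fin n) → Fin (Δ + 2) := fun e => if h : d e < Δ + 2 then ⟨d e, h⟩ else 0
  have hf0 : ∀ v ∈ H.support, (f0 v : ℕ) = c v := by
    intro v hv
    simp only [f0]
    rw [dif_pos (hc v hv)]
  have hg0 : ∀ e ∈ H.edgeSet, (g0 e : ℕ) = d e := by
    intro e he
    simp only [g0]
    rw [dif_pos (hd e he)]
  have hsupp : ∀ u v, H.Adj u v → u ∈ H.support := fun u v h => ⟨v, h⟩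
  have h0 : Pool.Agent.R61.TotExt.IsTotal H f0 g0 := by
    refine ⟨?_, ?_, ?_⟩
    · intro u v huv h
      apply hcd.vert u v huv
      rw [← hf0 u (hsupp u v huv), ← hf0 v (hsupp v u huv.symm), h]
    · intro u v w huv huw hvw h
      apply hcd.edge u v w huv huw hvw
      rw [← hg0 _ huv, ← hg0 _ huw, h]
    · intro u v huv h
      apply hcd.inc u v huv
      rw [← hg0 _ huv, ← hf0 u (hsupp u v huv), h]
  obtain ⟨f, g, hfg, hext⟩ := Pool.Agent.N410.TB.ext_bip G H Δ (fun v => v ∈ {x : Fin n | C x = 0})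
    hX (fun v => by
      rw [← dg_eq_ncard]
      have := hdeg v
      omega) hH.le hH.matching (by
      intro u v x y huv hxy hne
      refine hH.dist u (hsupp u v huv) x (hsupp x y hxy) ?_ ?_
      · rintro rfl
        exact hne (by rw [hH.matching u v y huv hxy])
      · intro hux
        have h1 := hH.matching u v x huv hux
        have h2 := hH.matching x u y hux.symm hxy
        apply hne
        rw [h1, ← h2, Sym2.eq_swap]) f0 g0 h0
  refine ⟨fun v => (f v : ℕ), fun e => (g e : ℕ), ⟨?_, ?_, ?_⟩, ?_, ?_, fun v => (f v).2,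
    fun e _ => (g e).2⟩
  · intro u v huv h
    exact hfg.1 u v huv (Fin.ext h)
  · intro u v w huv huw hvw h
    exact hfg.2.1 u v w huv huw hvw (Fin.ext h)
  · intro u v huv h
    exact hfg.2.2 u v huv (Fin.ext h)
  · intro v hv
    obtain ⟨w, hw⟩ := hv
    change ((f v : Fin (Δ + 2)) : ℕ) = c v
    rw [(hext v w hw).1]
    exact hf0 v ⟨w, hw⟩
  · intro e he
    induction e using Sym2.ind with
    | _ u v =>
      change ((g s(u, v) : Fin (Δ + 2)) : ℕ) = d s(u, v)
      rw [(hext u v he).2]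
      exact hg0 _ he

end Pool.Agent.W2helper87.TC
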