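import Pool.Agent.W2helper87.TC.LowT
import Pool.Agent.W2helper87.TC.For

/-!
# Extending total colourings of distance-3 matchings of all sparse random graphs
-/

set_option autoImplicit false

namespace Pool.Agent.W2helper87.TC

open Finset Pool.Agent.H162R2.Sparse Pool.Agent.H162R2.AG Pool.Agent.W2helper87.SR
open Pool.Agent.W2helper87.FR Pool.Agent.W2helper87.LD
open Pool.Agent.Results.MP_db9399_co.SparseLargeDegrees

/-- lists of `Δ + 1` colours if `Δ ≥ K`; `Δ + 2` colours -/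
def GdK {n : ℕ} (K : ℕ) (G : SimpleGraph (Fin n)) : Prop :=
  ∀ D : ℕ, (∀ v, dg G v ≤ D) → (∃ v, dg G v = D) →
    ∀ H : SimpleGraph (Fin n), IsDistThreeMatching G H → ∀ k,
      (K ≤ D → D + 1 ≤ k → ListExtends G H k) ∧ (D + 2 ≤ k → Extends G H k)

theorem ext_of_list {n : ℕ} (G H : SimpleGraph (Fin n)) (k : ℕ) (h : ListExtends G H k) :
    Extends G H k := by
  intro c d hcd hc hd
  obtain ⟨c', d', h1, h2, h3, h4, h5⟩ := h (fun _ => range k) (fun _ => range k)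
    (fun _ => by simp) (fun _ _ => by simp) c d hcd
  refine ⟨c', d', h1, h2, h3, fun v => ?_, fun e he => ?_⟩
  · by_cases hv : v ∈ H.support
    · rw [h2 v hv]
      exact hc v hv
    · exact mem_range.1 (h4 v hv)
  · by_cases he' : e ∈ H.edgeSet
    · rw [h3 e he']
      exact hd e he'
    · exact mem_range.1 (h5 e he he')

theorem GdK_of_tot {n : ℕ} (K : ℕ) (G : SimpleGraph (Fin n)) (h : GdTot G) : GdK K G := by
  intro D hD1 hD2 H hH k
  exact ⟨fun _ hk => h D hD1 hD2 H hH k hk,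
    fun hk => ext_of_list G H k (h D hD1 hD2 H hH k (by omega))⟩

set_option maxHeartbeats 4000000 in
open Classical in
theorem low_total (C : ℝ) (hC : 0 < C) :
    ∃ c δ : ℝ, 0 < c ∧ c ≤ 1 ∧ 0 < δ ∧ ∃ K' N : ℕ, ∀ n : ℕ, N ≤ n → ∀ q : Sym2 (Fin n) → ℝ,
      (∀ e, 0 ≤ q e ∧ q e ≤ (n : ℝ) ^ (c - 1)) → (∀ v, mu q v ≤ C * Real.log n) →
      pb q (fun G => ¬ GdK K' G) ≤ (n : ℝ) ^ (-δ) := by
  obtain ⟨c₂, δ₂, hc₂0, hc₂1, hδ₂0, K₁, N₁, hlow⟩ := low_list C hC
  obtain ⟨K, hK⟩ : ∃ K : ℕ, K = max K₁ 1 := ⟨_, rfl⟩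
  have hK1 : 1 ≤ K := by rw [hK]; exact le_max_right _ _
  have hKK : K₁ ≤ K := by rw [hK]; exact le_max_left _ _
  have hKr : (1 : ℝ) ≤ K := by exact_mod_cast hK1
  obtain ⟨β, hβ⟩ : ∃ β : ℝ, β = 1 / (40 * K) := ⟨_, rfl⟩
  have hβ0 : 0 < β := by rw [hβ]; positivity
  have hβ1 : β ≤ 1 / 40 := by
    rw [hβ]
    apply div_le_div_of_nonneg_left (by norm_num) (by norm_num)
    linarith
  have hβK : β * K = 1 / 40 := by
    rw [hβ]
    field_simp
  obtain ⟨c, hc⟩ : ∃ c : ℝ, c = min c₂ (β / 4) := ⟨_, rfl⟩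
  have hc0 : 0 < c := by
    rw [hc]
    exact lt_min hc₂0 (by positivity)
  have hcc₂ : c ≤ c₂ := by rw [hc]; exact min_le_left _ _
  have hcβ : c ≤ β / 4 := by rw [hc]; exact min_le_right _ _
  obtain ⟨δ, hδ⟩ : ∃ δ : ℝ, δ = min (δ₂ / 2) (β / 4) := ⟨_, rfl⟩
  have hδ0 : 0 < δ := by
    rw [hδ]
    exact lt_min (by positivity) (by positivity)
  have hδδ₂ : 2 * δ ≤ δ₂ := by
    have : δ ≤ δ₂ / 2 := by rw [hδ]; exact min_le_left _ _
    linarith
  have hδβ : 2 * δ ≤ β / 2 := by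
    have : δ ≤ β / 4 := by rw [hδ]; exact min_le_right _ _
    linarith
  obtain ⟨cK, hcK⟩ : ∃ cK : ℝ, cK = (1 / (2 * K : ℝ)) ^ K * Real.exp (-(16 * K)) / 2 := ⟨_, rfl⟩
  have hcK0 : 0 < cK := by
    rw [hcK]
    have := Real.exp_pos (-(16 * K : ℝ))
    positivity
  obtain ⟨N, hN⟩ := Filter.eventually_atTop.1
    ((ev_log (1 + 1 / C)).and
      ((ev_const (1 / cK) (1 / 40) (by norm_num)).and
      ((ev_log3 (4 * C + 8 * C ^ 2) (β / 4) (by positivity) (by positivity)).and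
      ((ev_const (2 * K) (1 / 2) (by norm_num)).and
      ((ev_rpow 3 (2 * δ) δ (by linarith)).and
      (Filter.eventually_ge_atTop (max N₁ 4)))))))
  refine ⟨c, δ, hc0, by linarith, hδ0, K, N, fun n hn q hq' hmu => ?_⟩
  obtain ⟨v1, v2, v3, v4, v5, hn4'⟩ := hN n hn
  have hnN₁ : N₁ ≤ n := le_trans (le_max_left _ _) hn4'
  have hn4 : 4 ≤ n := le_trans (le_max_right _ _) hn4'
  have hnr : (4 : ℝ) ≤ n := by exact_mod_cast hn4
  have hn0 : (0 : ℝ) < n := by linarith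
  have hn1 : (1 : ℝ) ≤ n := by linarith
  obtain ⟨l, hl⟩ : ∃ l : ℝ, l = Real.log n := ⟨_, rfl⟩
  rw [← hl] at v1 v3
  have hCi : 0 < 1 / C := by positivity
  have hl1 : 1 ≤ l := by linarith
  have hCl : 1 ≤ C * l := by
    calc (1 : ℝ) = C * (1 / C) := by field_simp
      _ ≤ C * l := by
          apply mul_le_mul_of_nonneg_left _ hC.le
          linarith
  have hl3 : l ≤ l ^ 3 := by
    have : l * 1 ≤ l * l ^ 2 := by
      gcongr
      exact one_le_pow₀ hl1
    calc l = l * 1 := (mul_one l).symm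
      _ ≤ l * l ^ 2 := this
      _ = l ^ 3 := by ring
  have hl23 : l ^ 2 ≤ l ^ 3 := pow_le_pow_right₀ hl1 (by norm_num)
  obtain ⟨qm, hqm⟩ : ∃ qm : ℝ, qm = (n : ℝ) ^ (c - 1) := ⟨_, rfl⟩
  have hqm0 : 0 < qm := by rw [hqm]; positivity
  have hqm12 : qm ≤ (n : ℝ) ^ (-(3 / 4) : ℝ) := by
    rw [hqm]
    apply Real.rpow_le_rpow_of_exponent_le hn1
    linarith
  have hqm2 : qm ≤ 1 / 2 := by
    refine hqm12.trans ?_
    calc (n : ℝ) ^ (-(3 / 4) : ℝ) ≤ (n : ℝ) ^ (-(1 / 2) : ℝ) := by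
          apply Real.rpow_le_rpow_of_exponent_le hn1
          norm_num
      _ = 1 / Real.sqrt n := by
          rw [Real.rpow_neg hn0.le, ← Real.sqrt_eq_rpow, one_div]
      _ ≤ 1 / 2 := by
          apply div_le_div_of_nonneg_left (by norm_num) (by norm_num)
          apply Real.le_sqrt_of_sq_le
          linarith
  have hq : ∀ e, 0 ≤ q e ∧ q e ≤ 1 :=
    fun e => ⟨(hq' e).1, (hq' e).2.trans (by rw [← hqm]; linarith)⟩
  have hqle : ∀ e, q e ≤ qm := fun e => by rw [hqm]; exact (hq' e).2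
  have hmono : ∀ x y : ℝ, x ≤ y → (n : ℝ) ^ x ≤ (n : ℝ) ^ y := fun x y h =>
    Real.rpow_le_rpow_of_exponent_le hn1 h
  -- the two cases
  have h1 := hlow n hnN₁ q (fun e => ⟨(hq' e).1, (hq' e).2.trans (hmono _ _ (by linarith))⟩) hmu
  have h2 : pb q (fun G => ¬ GdK K G ∧ ∀ v, dg G v < K) ≤ 2 * (n : ℝ) ^ (-(2 * δ)) := by
    rcases le_or_gt ((n : ℝ) ^ ((3 : ℝ) / 5)) (FF q K) with hF | hF
    · have hF0 : 0 < FF q K := lt_of_lt_of_le (by positivity) hF
      have h3 : pb q (fun G => ¬ GdK K G ∧ ∀ v, dg G v < K) ≤ pb q (fun G => ∀ v, dg G v < K) :=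
        pb_mono q hq fun G h => h.2
      refine (h3.trans (second q hq qm hqle hqm0.le K hF0)).trans ?_
      have e0 : (FF q K + n ^ 2 * qm) / FF q K ^ 2 =
          1 / FF q K + n ^ 2 * qm / FF q K ^ 2 := by
        field_simp
      have e1 : 1 / FF q K ≤ (n : ℝ) ^ (-(2 * δ)) := by
        calc 1 / FF q K ≤ 1 / (n : ℝ) ^ ((3 : ℝ) / 5) := by gcongr
          _ = (n : ℝ) ^ (-(3 / 5) : ℝ) := by rw [Real.rpow_neg hn0.le, one_div]
          _ ≤ _ := hmono _ _ (by linarith)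
      have e2 : n ^ 2 * qm / FF q K ^ 2 ≤ (n : ℝ) ^ (-(2 * δ)) := by
        have e3 : (n : ℝ) ^ 2 = (n : ℝ) ^ (2 : ℝ) := by
          rw [← Real.rpow_natCast]
          norm_num
        have e4 : ((n : ℝ) ^ ((3 : ℝ) / 5)) ^ 2 = (n : ℝ) ^ ((6 : ℝ) / 5) := by
          rw [← Real.rpow_natCast, ← Real.rpow_mul hn0.le]
          norm_num
        calc n ^ 2 * qm / FF q K ^ 2 ≤ n ^ 2 * qm / ((n : ℝ) ^ ((3 : ℝ) / 5)) ^ 2 := by gcongr
          _ = (n : ℝ) ^ (2 + (c - 1) - 6 / 5) := by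
              rw [e4, e3, hqm, ← Real.rpow_add hn0, ← Real.rpow_sub hn0]
          _ ≤ _ := hmono _ _ (by linarith)
      rw [e0]
      linarith
    · -- few vertices have an expected degree which is not tiny
      obtain ⟨b, hb⟩ : ∃ b : ℝ, b = (n : ℝ) ^ (-β) := ⟨_, rfl⟩
      have hb0 : 0 < b := by rw [hb]; positivity
      have hb1 : b ≤ 1 := by
        rw [hb]
        exact Real.rpow_le_one_of_one_le_of_nonpos hn1 (by linarith)
      set W : Finset (Fin n) := univ.filter (fun v => b ≤ mu q v) with hW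
      have hlowK : (n : ℝ) ^ (-(1 / 20) : ℝ) ≤
          (b / (2 * K)) ^ K * Real.exp (-(16 * K)) / 2 := by
        have e1 : b ^ K = (n : ℝ) ^ (-(1 / 40) : ℝ) := by
          rw [hb, ← Real.rpow_natCast, ← Real.rpow_mul hn0.le]
          congr 1
          linarith
        have e2 : (b / (2 * K)) ^ K * Real.exp (-(16 * K)) / 2 = b ^ K * cK := by
          rw [hcK, div_pow, div_pow, one_pow]
          ring
        have e3 : (n : ℝ) ^ (-(1 / 40) : ℝ) ≤ cK := by
          rw [Real.rpow_neg hn0.le, inv_le_comm₀ (by positivity) hcK0]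
          rw [← one_div]
          exact v2
        rw [e2, e1]
        calc (n : ℝ) ^ (-(1 / 20) : ℝ) = (n : ℝ) ^ (-(1 / 40) : ℝ) * (n : ℝ) ^ (-(1 / 40) : ℝ) := by
              rw [← Real.rpow_add hn0]
              norm_num
          _ ≤ (n : ℝ) ^ (-(1 / 40) : ℝ) * cK := by gcongr
      have hqK : 2 * qm * K ≤ b := by
        calc 2 * qm * K = (2 * K) * qm := by ring
          _ ≤ (n : ℝ) ^ ((1 : ℝ) / 2) * (n : ℝ) ^ (-(3 / 4) : ℝ) := by gcongr
          _ = (n : ℝ) ^ (-(1 / 4) : ℝ) := by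
              rw [← Real.rpow_add hn0]
              norm_num
          _ ≤ b := by
              rw [hb]
              exact hmono _ _ (by linarith)
      have hWc : (W.card : ℝ) ≤ (n : ℝ) ^ ((13 : ℝ) / 20) := by
        have e1 : (W.card : ℝ) * (n : ℝ) ^ (-(1 / 20) : ℝ) ≤ FF q K := by
          calc (W.card : ℝ) * (n : ℝ) ^ (-(1 / 20) : ℝ) =
              ∑ _v ∈ W, (n : ℝ) ^ (-(1 / 20) : ℝ) := by rw [sum_const, nsmul_eq_mul]
            _ ≤ ∑ v ∈ W, TS q (sU v univ) K := by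
                apply sum_le_sum
                intro v hv
                refine hlowK.trans (TS_lower q hq qm hqle hqm2 (sU v univ) K hK1 b hb0 hb1 ?_ hqK)
                rw [qs_mu]
                exact (mem_filter.1 hv).2
            _ ≤ FF q K := by
                unfold FF
                exact sum_le_sum_of_subset_of_nonneg (subset_univ _)
                  fun v _ _ => TS_nonneg q hq _ _
        have e2 : (W.card : ℝ) = (W.card : ℝ) * (n : ℝ) ^ (-(1 / 20) : ℝ) *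
            (n : ℝ) ^ ((1 : ℝ) / 20) := by
          rw [mul_assoc, ← Real.rpow_add hn0]
          norm_num
        rw [e2]
        calc (W.card : ℝ) * (n : ℝ) ^ (-(1 / 20) : ℝ) * (n : ℝ) ^ ((1 : ℝ) / 20) ≤
            (n : ℝ) ^ ((3 : ℝ) / 5) * (n : ℝ) ^ ((1 : ℝ) / 20) := by
              gcongr
              exact e1.trans hF.le
          _ = (n : ℝ) ^ ((13 : ℝ) / 20) := by
              rw [← Real.rpow_add hn0]
              norm_num
      have hWq : (W.card : ℝ) * qm ≤ b := by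
        calc (W.card : ℝ) * qm ≤ (n : ℝ) ^ ((13 : ℝ) / 20) * (n : ℝ) ^ (-(3 / 4) : ℝ) := by gcongr
          _ = (n : ℝ) ^ (-(1 / 10) : ℝ) := by
              rw [← Real.rpow_add hn0]
              norm_num
          _ ≤ b := by
              rw [hb]
              exact hmono _ _ (by linarith)
      have hρ : 2 * (C * l) * b ≤ 1 / 2 := by
        have e1 : 4 * C * l ≤ (n : ℝ) ^ (β / 4) := by
          refine le_trans ?_ v3
          calc 4 * C * l ≤ 4 * C * l ^ 3 := by gcongr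
            _ ≤ (4 * C + 8 * C ^ 2) * l ^ 3 := by
                gcongr
                have : 0 ≤ 8 * C ^ 2 := by positivity
                linarith
        have e2 : (n : ℝ) ^ (β / 4) * b ≤ 1 := by
          rw [hb, ← Real.rpow_add hn0]
          exact Real.rpow_le_one_of_one_le_of_nonpos hn1 (by linarith)
        calc 2 * (C * l) * b = (4 * C * l) * b / 2 := by ring
          _ ≤ (n : ℝ) ^ (β / 4) * b / 2 := by gcongr
          _ ≤ 1 / 2 := by linarith
      have h3 := pb_cycle q hq qm (C * l) b hqle hqm0.le hCl hb0.le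
        (fun v => by rw [hl]; exact hmu v) W (by
          intro v hv
          rw [hW, mem_filter] at hv
          push Not at hv
          exact (hv (mem_univ _)).le) hWq hρ
      have h4 : pb q (fun G => ¬ GdK K G ∧ ∀ v, dg G v < K) ≤ pb q (fun G => ¬ G.IsAcyclic) := by
        apply pb_mono q hq
        rintro G ⟨hG1, hG2⟩ hac
        apply hG1
        rintro D hD1 ⟨v, hv⟩ H hH k
        have hDK : D < K := by
          rw [← hv]
          exact hG2 v
        exact ⟨fun h => absurd h (not_le.2 hDK), fun hk => ext_acyclic G hac D hD1 H hH k hk⟩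
      refine (h4.trans h3).trans ?_
      have e1 : (n : ℝ) * qm = (n : ℝ) ^ c := by
        rw [hqm]
        nth_rewrite 1 [← Real.rpow_one (n : ℝ)]
        rw [← Real.rpow_add hn0]
        congr 1
        ring
      have e2 : 8 * C ^ 2 * l ^ 2 ≤ (n : ℝ) ^ (β / 4) := by
        refine le_trans ?_ v3
        calc 8 * C ^ 2 * l ^ 2 ≤ 8 * C ^ 2 * l ^ 3 := by gcongr
          _ ≤ (4 * C + 8 * C ^ 2) * l ^ 3 := by
              gcongr
              linarith
      calc 8 * (n : ℝ) * qm * (C * l) ^ 2 * b = (8 * C ^ 2 * l ^ 2) * ((n * qm) * b) := by ring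
        _ ≤ (n : ℝ) ^ (β / 4) * ((n : ℝ) ^ c * (n : ℝ) ^ (-β)) := by
            rw [e1, hb]
            gcongr
        _ = (n : ℝ) ^ (β / 4 + (c + -β)) := by
            rw [← Real.rpow_add hn0, ← Real.rpow_add hn0]
        _ ≤ (n : ℝ) ^ (-(2 * δ)) := hmono _ _ (by linarith)
        _ ≤ 2 * (n : ℝ) ^ (-(2 * δ)) := by
            have : 0 < (n : ℝ) ^ (-(2 * δ)) := by positivity
            linarith
  have h3 : pb q (fun G => ¬ GdK K G) ≤ pb q (fun G => (¬ GdTot G ∧ ∃ v, K₁ ≤ dg G v) ∨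
      (¬ GdK K G ∧ ∀ v, dg G v < K)) := by
    apply pb_mono q hq
    intro G hG
    by_cases h : ∃ v, K ≤ dg G v
    · obtain ⟨v, hv⟩ := h
      exact Or.inl ⟨fun h' => hG (GdK_of_tot K G h'), v, hKK.trans hv⟩
    · push Not at h
      exact Or.inr ⟨hG, h⟩
  have h4 := pb_or_le q hq (fun G => ¬ GdTot G ∧ ∃ v, K₁ ≤ dg G v)
    (fun G => ¬ GdK K G ∧ ∀ v, dg G v < K)
  have h5 : (n : ℝ) ^ (-δ₂) ≤ (n : ℝ) ^ (-(2 * δ)) := hmono _ _ (by linarith)
  linarith


/-- all random graphs with independent edges and small edge probabilities -/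
theorem sparse_all_ext : ∃ c : ℝ, 0 < c ∧ c ≤ 1 ∧ ∃ K N : ℕ, ∀ n : ℕ, N ≤ n →
    ∀ q : Sym2 (Fin n) → ℝ, (∀ e, 0 ≤ q e ∧ q e ≤ (n : ℝ) ^ (c - 1)) →
    1 - (n : ℝ) ^ (-c) ≤ pb q (GdK K) := by
  obtain ⟨c₁, C, hc₁0, hc₁1, hC, N₁, h₁⟩ := total_random
  obtain ⟨c₂, δ₂, hc₂0, hc₂1, hδ₂0, K, N₂, h₂⟩ := low_total C hC
  obtain ⟨c, hc⟩ : ∃ c : ℝ, c = min c₁ (min c₂ δ₂) := ⟨_, rfl⟩
  have hc0 : 0 < c := by
    rw [hc]
    exact lt_min hc₁0 (lt_min hc₂0 hδ₂0)
  have hcc₁ : c ≤ c₁ := by rw [hc]; exact min_le_left _ _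
  have hcc₂ : c ≤ c₂ := by rw [hc]; exact (min_le_right _ _).trans (min_le_left _ _)
  have hcδ₂ : c ≤ δ₂ := by rw [hc]; exact (min_le_right _ _).trans (min_le_right _ _)
  refine ⟨c, hc0, by linarith, K, max (max N₁ N₂) 1, fun n hn q hq => ?_⟩
  have hnN₁ : N₁ ≤ n := le_trans (le_max_left _ _) (le_trans (le_max_left _ _) hn)
  have hnN₂ : N₂ ≤ n := le_trans (le_max_right _ _) (le_trans (le_max_left _ _) hn)
  have hn1 : (1 : ℝ) ≤ n := by exact_mod_cast le_trans (le_max_right _ _) hn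
  have hmono : ∀ x y : ℝ, x ≤ y → (n : ℝ) ^ x ≤ (n : ℝ) ^ y := fun x y h =>
    Real.rpow_le_rpow_of_exponent_le hn1 h
  have hq1 : ∀ e, 0 ≤ q e ∧ q e ≤ 1 := fun e => ⟨(hq e).1, (hq e).2.trans
    (Real.rpow_le_one_of_one_le_of_nonpos hn1 (by linarith))⟩
  by_cases hv : ∃ v, C * Real.log n ≤ mu q v
  · have h3 := h₁ n hnN₁ q (fun e => ⟨(hq e).1, (hq e).2.trans (hmono _ _ (by linarith))⟩) hv
    have h4 : (n : ℝ) ^ (-c₁) ≤ (n : ℝ) ^ (-c) := hmono _ _ (by linarith)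
    have h5 : pb q GdTot ≤ pb q (GdK K) := pb_mono q hq1 fun G hG => GdK_of_tot K G hG
    linarith
  · push Not at hv
    have h3 := h₂ n hnN₂ q (fun e => ⟨(hq e).1, (hq e).2.trans (hmono _ _ (by linarith))⟩)
      (fun v => (hv v).le)
    have h4 : (n : ℝ) ^ (-δ₂) ≤ (n : ℝ) ^ (-c) := hmono _ _ (by linarith)
    rw [pb_not]
    linarith

end Pool.Agent.W2helper87.TC
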