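import Pool.Agent.W2helper87.TC.Jum2
import Pool.Agent.W2helper87.TC.LowAll

/-!
# Total list colourings of pseudo-random graphs extending a precoloured distance-3 matching
-/

set_option autoImplicit false

namespace Pool.Agent.W2helper87.TC

open Finset Pool.Agent.H162R2.Sparse Pool.Agent.H162R2.AG Pool.Agent.W2helper87.SR
open Pool.Agent.W2helper87.FR Pool.Agent.Results.MP_db9399_co.SparseLargeDegrees

open Classical in
theorem fl_of_nb {n : ℕ} (G : SimpleGraph (Fin n)) (D b : ℕ) (T : Finset (Fin n))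
    (hdeg : ∀ v, dg G v ≤ D) (hb : ∀ v, ((nb G v).filter (fun w => w ∈ T)).card ≤ b)
    (hgap : ∀ v, v ∉ T → dg G v + (2 * b + 2) ≤ D)
    (hsmall : 34 * (2 * (b : ℝ)) * (1 + Real.log D) ≤ D) : FewLarge G D T (2 * b) b 0 := by
  refine ⟨fun v => by rw [← dg_eq_ncard]; exact hdeg v, hsmall, ?_, ?_, ?_⟩
  · intro X
    have h1 : {e : Fin n × Fin n | e.1 ∈ X ∧ e.2 ∈ X ∧ G.Adj e.1 e.2 ∧ (e.1 ∈ T ∨ e.2 ∈ T)} ⊆
        ((X.biUnion (fun v => ((nb G v).filter (fun w => w ∈ T)).image (fun w => (v, w))) ∪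
          X.biUnion (fun v => ((nb G v).filter (fun w => w ∈ T)).image (fun w => (w, v))) :
          Finset (Fin n × Fin n)) : Set (Fin n × Fin n)) := by
      rintro ⟨x, y⟩ ⟨hx, hy, hxy, h⟩
      rw [mem_coe, mem_union, mem_biUnion, mem_biUnion]
      rcases h with h | h
      · right
        refine ⟨y, hy, ?_⟩
        rw [mem_image]
        refine ⟨x, ?_, rfl⟩
        rw [mem_filter, mem_nb]
        exact ⟨hxy.symm, h⟩
      · left
        refine ⟨x, hx, ?_⟩
        rw [mem_image]
        refine ⟨y, ?_, rfl⟩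
        rw [mem_filter, mem_nb]
        exact ⟨hxy, h⟩
    have h2 := Set.ncard_le_ncard h1 (Set.toFinite _)
    rw [Set.ncard_coe_finset] at h2
    have h3 : (X.biUnion (fun v => ((nb G v).filter (fun w => w ∈ T)).image
        (fun w => (v, w)))).card ≤ X.card * b :=
      card_biUnion_le_card_mul _ _ _ fun v _ => card_image_le.trans (hb v)
    have h4 : (X.biUnion (fun v => ((nb G v).filter (fun w => w ∈ T)).image
        (fun w => (w, v)))).card ≤ X.card * b :=
      card_biUnion_le_card_mul _ _ _ fun v _ => card_image_le.trans (hb v)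
    have h5 := card_union_le (X.biUnion (fun v => ((nb G v).filter (fun w => w ∈ T)).image
        (fun w => (v, w)))) (X.biUnion (fun v => ((nb G v).filter (fun w => w ∈ T)).image
        (fun w => (w, v))))
    have h6 : {e : Fin n × Fin n | e.1 ∈ X ∧ e.2 ∈ X ∧ G.Adj e.1 e.2 ∧
        (e.1 ∈ T ∨ e.2 ∈ T)}.ncard ≤ 2 * b * X.card := by
      nlinarith
    exact_mod_cast h6
  · intro v _
    have h1 : {w : Fin n | w ∈ T ∧ G.Adj v w} ⊆
        (((nb G v).filter (fun w => w ∈ T) : Finset (Fin n)) : Set (Fin n)) := by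
      rintro w ⟨hw, hvw⟩
      rw [mem_coe, mem_filter, mem_nb]
      exact ⟨hvw, hw⟩
    have h2 := Set.ncard_le_ncard h1 (Set.toFinite _)
    rw [Set.ncard_coe_finset] at h2
    exact h2.trans (hb v)
  · intro v hv
    have h1 := hgap v hv
    have h2 : {w : Fin n | w ∉ T ∧ G.Adj v w}.ncard ≤ dg G v := by
      rw [dg_eq_ncard]
      apply Set.ncard_le_ncard _ (Set.toFinite _)
      intro w hw
      exact hw.2
    have h3 : (({w : Fin n | w ∉ T ∧ G.Adj v w}.ncard : ℕ) : ℝ) + (2 * b + 2) ≤ D := by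
      exact_mod_cast (by omega : _ + (2 * b + 2) ≤ D)
    linarith

/-- assembly -/
theorem asm_gen {n : ℕ} (G : SimpleGraph (Fin n)) (D b : ℕ) (a : ℝ) (T : Finset (Fin n))
    (hFL : FewLarge G D T a b 0)
    (hcol : ∀ G' : SimpleGraph (Fin n), (∀ x y, G'.Adj x y → G.Adj x y) →
      (∀ v, dg G' v ≤ D - (2 * b + 2)) → ∀ L : Fin n → Fin n → Finset ℕ,
      (∀ x y, L x y = L y x) → (∀ x y, G'.Adj x y → D - (2 * b + 2) ≤ (L x y).card) → LC G' L)
    (H : SimpleGraph (Fin n)) (hH : IsDistThreeMatching G H) (k : ℕ) (hk : D + 1 ≤ k) :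
    ListExtends G H k := by
  classical
  intro L M hL hM c d hcd
  refine wrap G H hH D k (fun v => by rw [dg_eq_ncard]; exact hFL.deg v) hk L M hL hM c d hcd ?_
  intro P G' LE LV bad hsub hsym hM0 hM' hDP hP hP2 hL0 hL1 hb1 hb2 hLE
  refine core_of G D T a b 0 le_rfl hFL P G' LE LV hsub hsym hM0 hM' hDP hP hP2 hL0 hL1 ?_
  intro d' W hd1 hd2 hd3 hW
  have hd4 : d' + (2 * b + 2) ≤ D := by
    have : (d' : ℝ) + (2 * b + 2) ≤ D := by linarith
    exact_mod_cast this
  refine hcol (cutX G' T) ?_ ?_ _ ?_ ?_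
  · intro a b hab
    exact hsub a b ((cutX_adj G' T a b).1 hab).1
  · intro v
    have := hd3 v
    omega
  · intro a b
    rw [hsym a b, union_comm]
  · intro x y hxy
    obtain ⟨hxy1, hxT, hyT⟩ := (cutX_adj G' T x y).1 hxy
    have h1 := hW x hxT
    have h2 := hW y hyT
    have h3 : (LE x y).card ≤ (LE x y \ (W x ∪ W y)).card + ((W x).card + (W y).card) := by
      have e1 := le_card_sdiff (W x ∪ W y) (LE x y)
      have e2 := card_union_le (W x) (W y)
      omega
    by_cases hx : x ∈ P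
    · have hy : y ∉ P := fun hy => hP x hx y hy hxy1
      rw [if_pos hx] at h1
      rw [if_neg hy] at h2
      have h5 := hL0 x y hxy1
      omega
    · by_cases hy : y ∈ P
      · rw [if_neg hx] at h1
        rw [if_pos hy] at h2
        have h5 := hL0 x y hxy1
        omega
      · rw [if_neg hx] at h1
        rw [if_neg hy] at h2
        have h5 := hL1 x y hxy1 hx hy
        omega

/-- numbers: `s = √(D log n)` satisfies `s log n ≤ D`, and small multiples of `s` are allowed -/
theorem sq_small (n D b : ℕ) (hn : 3 ≤ n) (hDn : D ≤ n) (hDl : 2 * Real.log n ^ 3 ≤ D)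
    (hb : 2 * (b : ℝ) ≤ 1 / 136 * Real.sqrt (D * Real.log n)) :
    34 * (2 * (b : ℝ)) * (1 + Real.log D) ≤ D ∧ Real.log n ≤ Real.sqrt (D * Real.log n) := by
  have hnr : (3 : ℝ) ≤ n := by exact_mod_cast hn
  have hn0 : (0 : ℝ) < n := by linarith
  obtain ⟨l, hl⟩ : ∃ l : ℝ, l = Real.log n := ⟨_, rfl⟩
  rw [← hl] at hDl hb ⊢
  have hl1 : 1 ≤ l := by
    rw [hl, Real.le_log_iff_exp_le hn0]
    linarith [Real.exp_one_lt_d9]
  have hl0 : 0 < l := by linarith
  have hl3 : l ≤ l ^ 3 := by
    have : l * 1 ≤ l * l ^ 2 := by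
      gcongr
      exact one_le_pow₀ hl1
    calc l = l * 1 := (mul_one l).symm
      _ ≤ l * l ^ 2 := this
      _ = l ^ 3 := by ring
  have hD0 : (0 : ℝ) < D := by linarith
  have hDnr : (D : ℝ) ≤ n := by exact_mod_cast hDn
  obtain ⟨s, hs⟩ : ∃ s : ℝ, s = Real.sqrt (D * l) := ⟨_, rfl⟩
  rw [← hs] at hb ⊢
  have hs0 : 0 ≤ s := by rw [hs]; exact Real.sqrt_nonneg _
  have hsl : l ≤ s := by
    rw [hs]
    apply Real.le_sqrt_of_sq_le
    have : l ≤ D := by linarith
    nlinarith
  have hsD : l * s ≤ D := by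
    have h1 : s ≤ D / l := by
      rw [hs]
      apply Real.sqrt_le_iff.2
      refine ⟨by positivity, ?_⟩
      rw [div_pow, le_div_iff₀ (by positivity)]
      calc (D : ℝ) * l * l ^ 2 = D * l ^ 3 := by ring
        _ ≤ (D : ℝ) * D := by
            gcongr
            have : 0 < l ^ 3 := by positivity
            linarith
        _ = (D : ℝ) ^ 2 := by ring
    calc l * s ≤ l * (D / l) := by gcongr
      _ = D := by field_simp
  refine ⟨?_, hsl⟩
  have hlogD : Real.log D ≤ l := by
    rw [hl]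
    exact Real.log_le_log hD0 hDnr
  have hlogD0 : 0 ≤ Real.log D := Real.log_nonneg (by linarith)
  calc 34 * (2 * (b : ℝ)) * (1 + Real.log D) ≤ 34 * (1 / 136 * s) * (l + l) := by
        gcongr
    _ = 1 / 2 * (l * s) := by ring
    _ ≤ 1 / 2 * D := by gcongr
    _ ≤ D := by linarith

open Classical in
/-- pseudo-random graphs -/
theorem jumb_total (ε K : ℝ) (hε : 0 < ε) (hε1 : ε ≤ 1) (hK : 1 ≤ K) :
    ∃ c : ℝ, 0 < c ∧ ∃ N : ℕ, ∀ n : ℕ, N ≤ n →
      ∀ (G : SimpleGraph (Fin n)) (D b : ℕ), (∀ v, dg G v ≤ D) → D ≤ n → 2 * Real.log n ^ 3 ≤ D →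
      (∀ X Y : Finset (Fin n), eXY G X Y ≤ K * D / n * X.card * Y.card +
        c * Real.sqrt (D * Real.log n) * Real.sqrt (X.card * Y.card)) →
      ((univ.filter (fun v => (D : ℝ) - ε * Real.sqrt (D * Real.log n) < dg G v)).card : ℝ) ≤
        c * n * Real.sqrt (Real.log n / D) →
      (b : ℝ) ≤ c * Real.sqrt (D * Real.log n) →
      (∀ v, ((nb G v).filter (fun w => D < dg G w + (2 * b + 2))).card ≤ b) →
      ∀ H : SimpleGraph (Fin n), IsDistThreeMatching G H → ∀ k : ℕ, D + 1 ≤ k →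
        ListExtends G H k := by
  obtain ⟨c, hc0, hc1, N, h⟩ := jumb ε K hε hε1 hK
  obtain ⟨N', hN'⟩ := Filter.eventually_atTop.1
    ((ev_log (4 / c)).and (Filter.eventually_ge_atTop (max N 3)))
  refine ⟨c / 4, by positivity, N', fun n hn G D b hdeg hDn hDl hj hfew hb hnb H hH k hk => ?_⟩
  obtain ⟨v1, hnN⟩ := hN' n hn
  have hn3 : 3 ≤ n := le_trans (le_max_right _ _) hnN
  have hs0 : 0 ≤ Real.sqrt (D * Real.log n) := Real.sqrt_nonneg _
  have hb2 : 2 * (b : ℝ) ≤ 1 / 136 * Real.sqrt (D * Real.log n) := by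
    have : c / 4 * Real.sqrt (D * Real.log n) ≤ 1 / 136 / 4 * Real.sqrt (D * Real.log n) := by
      gcongr
    linarith
  obtain ⟨hsm, hls⟩ := sq_small n D b hn3 hDn hDl hb2
  have h2b : 2 * (b : ℝ) + 2 ≤ c * Real.sqrt (D * Real.log n) := by
    have h4 : 4 ≤ c * Real.sqrt (D * Real.log n) := by
      calc (4 : ℝ) = c * (4 / c) := by field_simp
        _ ≤ c * Real.sqrt (D * Real.log n) := by
            gcongr
            exact v1.trans hls
    linarith
  have hD2b : 2 * b + 2 ≤ D := by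
    have h5 : c * Real.sqrt (D * Real.log n) ≤ D := by
      have e1 : (D : ℝ) * Real.log n ≤ D * D := by
        gcongr
        have hl1 : 1 ≤ Real.log n := by
          have : (4 : ℝ) ≤ 4 / c := by
            rw [le_div_iff₀ hc0]
            linarith
          linarith
        have hl3 : Real.log n ≤ Real.log n ^ 3 := by
          calc Real.log n = Real.log n * 1 := (mul_one _).symm
            _ ≤ Real.log n * Real.log n ^ 2 := by
                gcongr
                exact one_le_pow₀ hl1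
            _ = Real.log n ^ 3 := by ring
        have : 0 ≤ Real.log n ^ 3 := by positivity
        linarith
      have e2 : Real.sqrt (D * Real.log n) ≤ D := by
        apply Real.sqrt_le_iff.2
        refine ⟨by positivity, ?_⟩
        rw [sq]
        exact e1
      have e3 : c * Real.sqrt (D * Real.log n) ≤ 1 * Real.sqrt (D * Real.log n) := by
        gcongr
        linarith
      linarith
    exact_mod_cast h2b.trans h5
  have hcast : ((D - (2 * b + 2) : ℕ) : ℝ) = D - (2 * b + 2) := by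
    rw [Nat.cast_sub hD2b]
    push_cast
    ring
  refine asm_gen G D b (2 * b) (univ.filter (fun w => D < dg G w + (2 * b + 2)))
    (fl_of_nb G D b _ hdeg ?_ ?_ hsm) ?_ H hH k hk
  · intro v
    refine le_trans (le_of_eq ?_) (hnb v)
    congr 1
    ext w
    simp only [mem_filter, mem_univ, true_and]
  · intro v hv
    rw [mem_filter, not_and] at hv
    exact not_lt.1 (hv (mem_univ _))
  · intro G' hsub hdeg' L hsym hL
    refine h n (le_trans (le_max_left _ _) hnN) G D hDn hDl ?_ ?_ (D - (2 * b + 2))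
      (Nat.sub_le _ _) ?_ G' hsub hdeg' L hsym hL
    · intro X Y
      refine (hj X Y).trans ?_
      have : c / 4 ≤ c := by linarith
      gcongr
    · refine hfew.trans ?_
      have : c / 4 ≤ c := by linarith
      gcongr
    · rw [hcast]
      linarith

open Classical in
/-- almost dense graphs -/
theorem dense2_total (ε : ℝ) (hε : 0 < ε) (hε1 : ε ≤ 1) :
    ∃ c κ : ℝ, 0 < c ∧ 0 < κ ∧ ∃ N : ℕ, ∀ n : ℕ, N ≤ n →
      ∀ (G : SimpleGraph (Fin n)) (D : ℕ), (∀ v, dg G v ≤ D) → D ≤ n → (n : ℝ) ^ (1 - κ) ≤ D →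
      ((univ.filter (fun v => (D : ℝ) - ε * Real.sqrt (D * Real.log n) < dg G v)).card : ℝ) ≤
        c * Real.sqrt (D * Real.log n) →
      ∀ H : SimpleGraph (Fin n), IsDistThreeMatching G H → ∀ k : ℕ, D + 1 ≤ k →
        ListExtends G H k := by
  obtain ⟨c, κ, hc0, hc1, hκ0, hκ1, N, h⟩ := dense2 ε hε hε1
  obtain ⟨c', hc'⟩ : ∃ c' : ℝ, c' = min c ε := ⟨_, rfl⟩
  have hc'0 : 0 < c' := by rw [hc']; exact lt_min hc0 hε
  have hc'c : c' ≤ c := by rw [hc']; exact min_le_left _ _
  have hc'ε : c' ≤ ε := by rw [hc']; exact min_le_right _ _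
  obtain ⟨N', hN'⟩ := Filter.eventually_atTop.1
    ((ev_log (4 / c')).and ((ev_log3 2 (1 / 2) (by norm_num) (by norm_num)).and
      (Filter.eventually_ge_atTop (max N 3))))
  refine ⟨c' / 4, κ, by positivity, hκ0, N', fun n hn G D hdeg hDn hDκ hfew H hH k hk => ?_⟩
  obtain ⟨v1, v2, hnN⟩ := hN' n hn
  have hn3 : 3 ≤ n := le_trans (le_max_right _ _) hnN
  have hnr : (3 : ℝ) ≤ n := by exact_mod_cast hn3
  have hDl : 2 * Real.log n ^ 3 ≤ D := by
    refine v2.trans (le_trans ?_ hDκ)
    apply Real.rpow_le_rpow_of_exponent_le (by linarith)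
    linarith
  obtain ⟨T, hT⟩ : ∃ T : Finset (Fin n), T = univ.filter
    (fun v => (D : ℝ) - ε * Real.sqrt (D * Real.log n) < dg G v) := ⟨_, rfl⟩
  obtain ⟨b, hb⟩ : ∃ b : ℕ, b = T.card := ⟨_, rfl⟩
  have hs0 : 0 ≤ Real.sqrt (D * Real.log n) := Real.sqrt_nonneg _
  rw [← hT, ← hb] at hfew
  have hb2 : 2 * (b : ℝ) ≤ 1 / 136 * Real.sqrt (D * Real.log n) := by
    have : c' / 4 * Real.sqrt (D * Real.log n) ≤ 1 / 136 / 4 * Real.sqrt (D * Real.log n) := by
      gcongr
      linarith
    linarith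
  obtain ⟨hsm, hls⟩ := sq_small n D b hn3 hDn hDl hb2
  have h2b : 2 * (b : ℝ) + 2 ≤ c' * Real.sqrt (D * Real.log n) := by
    have h4 : 4 ≤ c' * Real.sqrt (D * Real.log n) := by
      calc (4 : ℝ) = c' * (4 / c') := by field_simp
        _ ≤ c' * Real.sqrt (D * Real.log n) := by
            gcongr
            exact v1.trans hls
    linarith
  have hD2b : 2 * b + 2 ≤ D := by
    have h5 : c' * Real.sqrt (D * Real.log n) ≤ D := by
      have e1 : (D : ℝ) * Real.log n ≤ D * D := by
        gcongr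
        have hl1 : 1 ≤ Real.log n := by
          have : (4 : ℝ) ≤ 4 / c' := by
            rw [le_div_iff₀ hc'0]
            linarith
          linarith
        have hl3 : Real.log n ≤ Real.log n ^ 3 := by
          calc Real.log n = Real.log n * 1 := (mul_one _).symm
            _ ≤ Real.log n * Real.log n ^ 2 := by
                gcongr
                exact one_le_pow₀ hl1
            _ = Real.log n ^ 3 := by ring
        have : 0 ≤ Real.log n ^ 3 := by positivity
        linarith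
      have e2 : Real.sqrt (D * Real.log n) ≤ D := by
        apply Real.sqrt_le_iff.2
        refine ⟨by positivity, ?_⟩
        rw [sq]
        exact e1
      have e3 : c' * Real.sqrt (D * Real.log n) ≤ 1 * Real.sqrt (D * Real.log n) := by
        gcongr
        linarith
      linarith
    exact_mod_cast h2b.trans h5
  have hcast : ((D - (2 * b + 2) : ℕ) : ℝ) = D - (2 * b + 2) := by
    rw [Nat.cast_sub hD2b]
    push_cast
    ring
  refine asm_gen G D b (2 * b) T (fl_of_nb G D b T hdeg ?_ ?_ hsm) ?_ H hH k hk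
  · intro v
    rw [hb]
    apply card_le_card
    intro w hw
    exact (mem_filter.1 hw).2
  · intro v hv
    rw [hT, mem_filter, not_and] at hv
    have h1 := not_lt.1 (hv (mem_univ _))
    have h2 : c' * Real.sqrt (D * Real.log n) ≤ ε * Real.sqrt (D * Real.log n) := by gcongr
    have h3 : (dg G v : ℝ) + (2 * b + 2) ≤ D := by linarith
    exact_mod_cast h3
  · intro G' hsub hdeg' L hsym hL
    refine h n (le_trans (le_max_left _ _) hnN) G D hDn hDκ ?_ (D - (2 * b + 2))
      (Nat.sub_le _ _) ?_ G' hsub hdeg' L hsym hL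
    · rw [← hT, ← hb]
      refine hfew.trans ?_
      have : c' / 4 ≤ c := by linarith
      gcongr
    · rw [hcast]
      have : c' * Real.sqrt (D * Real.log n) ≤ c * Real.sqrt (D * Real.log n) := by gcongr
      linarith

end Pool.Agent.W2helper87.TC
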