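import Pool.Agent.W2helper87.TC.Num0
import Pool.Agent.W2helper87.SR.TotFin

/-!
# Total list colourings of locally sparse graphs with few vertices of large degree
-/

set_option autoImplicit false

namespace Pool.Agent.W2helper87.TC

open Finset Pool.Agent.H162R2.Sparse Pool.Agent.H162R2.AG Pool.Agent.W2helper87.SR
open Pool.Agent.W2helper87.LD
open Pool.Agent.Results.MP_db9399_co.SparseLargeDegrees

/-- the edges outside a suitable set are coloured last -/
theorem tot_closure {n : ℕ} (G : SimpleGraph (Fin n)) (D : ℕ) (hdeg : ∀ v, dg G v ≤ D)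
    (A g : ℝ) (hA : 0 < A) (m : ℕ) (hm : 1 ≤ m) (ha : 34 * (2 * A) * (1 + Real.log D) ≤ D)
    (hgap : 2 * A + 2 ≤ g * D) (T0 : Finset (Fin n))
    (hout : ∀ v ∉ T0, (dg G v : ℝ) ≤ (1 - g) * D)
    (hsp : ∀ X : Finset (Fin n), X.card ≤ 3 * m → e2 G X ≤ A * X.card)
    (P : Finset (Fin n)) (G' : SimpleGraph (Fin n)) (LE : Fin n → Fin n → Finset ℕ)
    (LV : Fin n → Finset ℕ)
    (hsub : ∀ a b, G'.Adj a b → G.Adj a b) (hsym : ∀ x y, LE x y = LE y x)
    (hM0 : ∀ v, v ∉ P → (LV v).Nonempty) (hM : ∀ v, v ∉ P → D ≤ (LV v).card + 1)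
    (hDP : ∀ v ∈ P, dg G' v + 1 ≤ D) (hP : ∀ u ∈ P, ∀ v ∈ P, ¬ G'.Adj u v)
    (hP2 : ∀ v, ((nb G' v).filter (fun w => w ∈ P)).card ≤ 2)
    (hL : ∀ u v, G'.Adj u v → D ≤ (LE u v).card + 1)
    (hL1 : ∀ u v, G'.Adj u v → u ∉ P → v ∉ P → D + 1 ≤ (LE u v).card)
    (T₁ : Finset (Fin n)) (hcard : (T0 ∪ T₁).card ≤ m)
    (hLC : ∀ T : Finset (Fin n), T0 ⊆ T → T₁ ⊆ T → ∀ W : Fin n → Finset ℕ,
      (∀ v ∉ T, ((W v).card : ℝ) ≤ A + 1) →
      LC (cutX G' T) (fun x y => LE x y \ (W x ∪ W y))) :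
    Pool.Agent.N577.DT.LTH P G' LE LV := by
  classical
  obtain ⟨T, hT, hTc, hcl⟩ := closure G (T0 ∪ T₁) m A hA hm hcard hsp
  obtain ⟨b, hb⟩ : ∃ b : ℕ, b = ⌊A⌋₊ := ⟨_, rfl⟩
  have hbA : (b : ℝ) ≤ A := by
    rw [hb]
    exact Nat.floor_le hA.le
  have hFL : FewLarge G D T (2 * A) b 0 := by
    refine ⟨fun v => by rw [← dg_eq_ncard]; exact hdeg v, ha, ?_, ?_, ?_⟩
    · have hdens : Dens (A_meetX G T) (2 * A) := by
        refine Pool.Agent.H892.LEC.dens_meet G T (2 * A) ?_ ?_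
        · intro X hX
          have h2 := hsp X ((card_le_card hX).trans (hTc.trans (by omega)))
          unfold e2 at h2
          have h3 : A * (X.card : ℝ) ≤ 2 * A * X.card := by
            nlinarith [Nat.cast_nonneg (α := ℝ) X.card]
          linarith
        · intro v hv
          have := hcl v hv
          linarith
      intro X
      refine le_trans (le_of_eq ?_) (hdens X)
      rw [Set.ncard_eq_toFinset_card']
      congr 2
      ext e
      simp only [Set.mem_toFinset, Set.mem_ofPred_eq, mem_filter, mem_pr, A_meetX_adj]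
      tauto
    · intro v hv
      have h1 := hcl v hv
      have h2 : ((nb G v).filter (fun w => w ∈ T)).card ≤ b := by
        rw [hb]
        exact Nat.le_floor h1
      refine le_trans (le_of_eq ?_) h2
      rw [Set.ncard_eq_toFinset_card']
      congr 1
      ext w
      simp only [Set.mem_toFinset, Set.mem_ofPred_eq, mem_filter, mem_nb]
      tauto
    · intro v hv
      have h1 := hout v (fun h => hv (hT (mem_union_left _ h)))
      have h2 : ({w : Fin n | w ∉ T ∧ G.Adj v w}.ncard : ℝ) ≤ dg G v := by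
        have : {w : Fin n | w ∉ T ∧ G.Adj v w}.ncard ≤ dg G v := by
          rw [dg_eq_ncard]
          apply Set.ncard_le_ncard _ (Set.toFinite _)
          intro w hw
          exact hw.2
        exact_mod_cast this
      linarith
  refine core_of G D T (2 * A) b 0 le_rfl hFL P G' LE LV hsub hsym hM0 hM hDP hP hP2 hL hL1 ?_
  intro d0 W _ _ _ hW
  refine hLC T (fun v hv => hT (mem_union_left _ hv)) (fun v hv => hT (mem_union_right _ hv)) W ?_
  intro v hv
  have h1 := hW v hv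
  have h2 : (W v).card ≤ b + 1 := by
    split_ifs at h1 <;> omega
  have h3 : ((W v).card : ℝ) ≤ b + 1 := by exact_mod_cast h2
  linarith

theorem lists_after {n : ℕ} (D : ℕ) (A : ℝ) (G' : SimpleGraph (Fin n))
    (LE : Fin n → Fin n → Finset ℕ) (hL : ∀ u v, G'.Adj u v → D ≤ (LE u v).card + 1)
    (T : Finset (Fin n)) (W : Fin n → Finset ℕ) (hW : ∀ v ∉ T, ((W v).card : ℝ) ≤ A)
    (x y : Fin n) (hxy : (cutX G' T).Adj x y) :
    (D : ℝ) - 1 - 2 * A ≤ (LE x y \ (W x ∪ W y)).card := by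
  classical
  obtain ⟨hxy1, hxT, hyT⟩ := (cutX_adj G' T x y).1 hxy
  have h1 := hW x hxT
  have h2 := hW y hyT
  have h3 : (LE x y).card ≤ (LE x y \ (W x ∪ W y)).card + ((W x).card + (W y).card) := by
    have e1 := le_card_sdiff (W x ∪ W y) (LE x y)
    have e2 := card_union_le (W x) (W y)
    omega
  have h4 : ((LE x y).card : ℝ) ≤ (LE x y \ (W x ∪ W y)).card + ((W x).card + (W y).card) := by
    exact_mod_cast h3
  have h5 : (D : ℝ) ≤ (LE x y).card + 1 := by exact_mod_cast hL x y hxy1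
  linarith

/-- all but few degrees are at most a quarter of the maximum -/
theorem list_small {n : ℕ} (G : SimpleGraph (Fin n)) (D : ℕ) (hdeg : ∀ v, dg G v ≤ D)
    (A : ℝ) (hA : 0 < A) (m : ℕ) (hm : 1 ≤ m) (ha : 34 * (2 * A) * (1 + Real.log D) ≤ D)
    (hA8 : 4 * A + 6 ≤ D) (T0 : Finset (Fin n)) (hT0 : T0.card ≤ m)
    (hout : ∀ v ∉ T0, dg G v ≤ D / 4)
    (hsp : ∀ X : Finset (Fin n), X.card ≤ 3 * m → e2 G X ≤ A * X.card)
    (H : SimpleGraph (Fin n)) (hH : IsDistThreeMatching G H) (k : ℕ) (hk : D + 1 ≤ k) :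
    ListExtends G H k := by
  classical
  have hD4 : ((D / 4 : ℕ) : ℝ) ≤ D / 4 := by
    have := Nat.cast_div_le (m := D) (n := 4) (α := ℝ)
    push_cast at this
    exact this
  intro L M hL hM c d hcd
  refine wrap G H hH D k hdeg hk L M hL hM c d hcd ?_
  intro P G' LE LV bad hsub hsym hM0 hM' hDP hP hP2 hL0 hL1 hb1 hb2 hLE
  refine tot_closure G D hdeg A (3 / 4) hA m hm ha (by linarith) T0 ?_ hsp P G' LE LV hsub hsym
    hM0 hM' hDP hP hP2 hL0 hL1 ∅ (by rw [union_empty]; exact hT0) ?_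
  · intro v hv
    have h1 : (dg G v : ℝ) ≤ ((D / 4 : ℕ) : ℝ) := by exact_mod_cast hout v hv
    linarith
  intro T hT _ W hW
  refine GR (Fin n) (cutX G' T) (D / 4) ?_ _ ?_ ?_
  · intro v
    by_cases hv : v ∈ T
    · rw [isol G' (cutX G' T) T (fun _ _ h => h) v hv]
      exact Nat.zero_le _
    · refine (dg_mono (fun a b h => hsub a b ((cutX_adj G' T a b).1 h).1) v).trans
        (hout v (fun h => hv (hT h)))
  · intro a b
    rw [hsym a b, union_comm]
  · intro x y hxy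
    have h1 := lists_after D (A + 1) G' LE hL0 T W hW x y hxy
    have h2 : (2 * (D / 4 : ℕ) : ℝ) ≤ (LE x y \ (W x ∪ W y)).card := by linarith
    exact_mod_cast h2

set_option maxHeartbeats 1000000 in
/-- degree at least a multiple of `log n`, few degrees close to the maximum -/
theorem list_mid (g b : ℝ) (hg : 0 < g) (hg1 : g ≤ 1) (hb : 0 < b) :
    ∃ κ₂ : ℝ, 0 < κ₂ ∧ ∀ κ : ℝ, 0 < κ → κ ≤ κ₂ → κ ≤ 1 / 2 → ∀ A : ℝ, 0 < A → ∃ n₀ : ℕ,
      ∀ n : ℕ, n₀ ≤ n → ∀ (G : SimpleGraph (Fin n)) (D : ℕ), (∀ v, dg G v ≤ D) →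
      b * Real.log n ≤ D →
      ((univ.filter (fun v => (1 - g) * (D : ℝ) < dg G v)).card : ℝ) ≤ (n : ℝ) ^ (1 - κ) →
      (∀ X : Finset (Fin n), (X.card : ℝ) ≤ 9 * (n : ℝ) ^ (1 - κ) → e2 G X ≤ A * X.card) →
      ∀ H : SimpleGraph (Fin n), IsDistThreeMatching G H → ∀ k, D + 1 ≤ k →
        ListExtends G H k := by
  classical
  obtain ⟨J, κ₁, hκ₁0, hκ₁1, hnum⟩ := nums0 (g / 2) (by positivity) (by linarith)
  refine ⟨κ₁ ^ 2 * (b / 2) / 4, by positivity, fun κ hκ0 hκ hκ2 A hA => ?_⟩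
  obtain ⟨x₁, hx₁1, hx₁⟩ := hnum (A + 1) (by linarith)
  obtain ⟨x₀, hx₀1, hx₀⟩ := log_small A hA
  obtain ⟨n₁, hn₁⟩ := exc0 J κ₁ (b / 2) hκ₁0 (by positivity) κ hκ
  have v1 : ∀ᶠ n : ℕ in Filter.atTop, x₀ + x₁ + (2 * A + 2) / g + 4 / g + 4 ≤
      b * Real.log n := by
    have h1 : ∀ᶠ n : ℕ in Filter.atTop, (x₀ + x₁ + (2 * A + 2) / g + 4 / g + 4) / b ≤
        Real.log n :=
      (Real.tendsto_log_atTop.comp tendsto_natCast_atTop_atTop).eventually_ge_atTop _
    filter_upwards [h1] with n hn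
    rw [div_le_iff₀ hb] at hn
    linarith
  obtain ⟨N, hN⟩ := Filter.eventually_atTop.1
    (v1.and (Filter.eventually_ge_atTop (max n₁ 1)))
  refine ⟨N, fun n hn G D hdeg hD hT hsp H hH k hk => ?_⟩
  obtain ⟨w1, hn1'⟩ := hN n hn
  have hnn₁ : n₁ ≤ n := le_trans (le_max_left _ _) hn1'
  have hn1 : 1 ≤ n := le_trans (le_max_right _ _) hn1'
  have hnr : (1 : ℝ) ≤ n := by exact_mod_cast hn1
  have hn0 : (0 : ℝ) < n := by linarith
  have hpos1 : 0 ≤ (2 * A + 2) / g := by positivity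
  have hpos2 : 0 ≤ 4 / g := by positivity
  have hD4 : (4 : ℝ) ≤ D := by linarith
  have hDx0 : x₀ ≤ D := by linarith
  have hDg : 2 * A + 2 ≤ g * D := by
    have : (2 * A + 2) / g ≤ D := by linarith
    rw [div_le_iff₀ hg] at this
    linarith
  have hDg4 : 4 ≤ g * D := by
    have : 4 / g ≤ D := by linarith
    rw [div_le_iff₀ hg] at this
    linarith
  obtain ⟨E, rfl⟩ : ∃ E, D = E + 1 := ⟨D - 1, by
    have : 4 ≤ D := by exact_mod_cast hD4
    omega⟩
  push_cast at hD hD4 hDx0 hDg hDg4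
  have hE0 : 0 < E := by
    have : (0 : ℝ) < E := by linarith
    exact_mod_cast this
  have hEr : (0 : ℝ) < E := by exact_mod_cast hE0
  have hEx : x₁ ≤ E := by linarith
  -- the degrees outside `T0`
  obtain ⟨D', hD'⟩ : ∃ D' : ℕ, D' = ⌊(1 - g) * ((E : ℝ) + 1)⌋₊ := ⟨_, rfl⟩
  have hg1' : 0 ≤ 1 - g := by linarith
  have hD'le : (D' : ℝ) ≤ (1 - g) * (E + 1) := by
    rw [hD']
    exact Nat.floor_le (by positivity)
  have hD'le2 : (D' : ℝ) ≤ (1 - g / 2) * E := by nlinarith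
  have hD'E : D' ≤ E := by
    have : (D' : ℝ) ≤ E := by nlinarith
    exact_mod_cast this
  obtain ⟨mj, dj, q1, q2, q3, q4⟩ := hx₁ E D' hEx hD'le2
  have hexc := hn₁ n hnn₁ E hE0 (by linarith)
  set T0 : Finset (Fin n) := univ.filter (fun v => (1 - g) * ((E + 1 : ℕ) : ℝ) < dg G v) with hT0
  have hT0n : ∀ v ∉ T0, (dg G v : ℝ) ≤ (1 - g) * ((E + 1 : ℕ) : ℝ) := by
    intro v hv
    by_contra hcon
    exact hv (by
      rw [hT0, mem_filter]
      exact ⟨mem_univ _, not_le.1 hcon⟩)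
  obtain ⟨m, hm⟩ : ∃ m : ℕ, m = ⌈2 * (n : ℝ) ^ (1 - κ)⌉₊ := ⟨_, rfl⟩
  have hn1κ : (1 : ℝ) ≤ (n : ℝ) ^ (1 - κ) := Real.one_le_rpow hnr (by linarith)
  have hmle : (m : ℝ) ≤ 3 * (n : ℝ) ^ (1 - κ) := by
    have := Nat.ceil_lt_add_one (a := 2 * (n : ℝ) ^ (1 - κ)) (by positivity)
    rw [← hm] at this
    linarith
  have hmge : 2 * (n : ℝ) ^ (1 - κ) ≤ m := by
    rw [hm]
    exact Nat.le_ceil _
  have hm1' : 1 ≤ m := by
    have : (1 : ℝ) ≤ m := by linarith
    exact_mod_cast this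
  intro L M hL hM c d hcd
  refine wrap G H hH (E + 1) k hdeg hk L M hL hM c d hcd ?_
  intro P G' LE LV bad hsub hsym hM0 hM' hDP hP hP2 hL0 hL1 hb1 hb2 hLE
  set F : SimpleGraph (Fin n) := cutX G' T0 with hF
  have hFdeg : ∀ v, dg F v ≤ D' := by
    intro v
    by_cases hv : v ∈ T0
    · rw [isol G' F T0 (fun _ _ h => h) v hv]
      exact Nat.zero_le _
    · rw [hD']
      apply Nat.le_floor
      have h1 : (dg F v : ℝ) ≤ dg G v := by
        exact_mod_cast dg_mono (fun a b hab => hsub a b ((cutX_adj G' T0 a b).1 hab).1) v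
      have h2 := hT0n v hv
      push_cast at h2
      exact h1.trans h2
  have hFcard : ∀ x y, F.Adj x y → (trim E (LE x y)).card = E := by
    intro x y hxy
    apply trim_card
    have h1 := hL0 x y ((cutX_adj G' T0 x y).1 hxy).1
    omega
  obtain ⟨T₁, hT₁, hLC⟩ := split_col0 n F E D' J (A + 1) (κ₁ * E) mj dj hE0 hD'E hFdeg
    (by positivity) (by
      calc κ₁ * (E : ℝ) ≤ 1 / 2 * E := by gcongr
        _ = E / 2 := by ring) q1 q2 q3 q4 (by linarith) (fun x y => trim E (LE x y))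
    (fun x y => by rw [hsym x y]) hFcard
  have hTm : (T0 ∪ T₁).card ≤ m := by
    have e10 : ((T0 ∪ T₁).card : ℝ) ≤ T0.card + T₁.card := by exact_mod_cast card_union_le T0 T₁
    have e11 : ((T0 ∪ T₁).card : ℝ) ≤ m := by linarith
    exact_mod_cast e11
  refine tot_closure G (E + 1) hdeg A g hA m hm1' (by
      have := hx₀ ((E + 1 : ℕ) : ℝ) (by push_cast; linarith)
      exact this) (by push_cast; linarith) T0 hT0n (fun X hX => hsp X (by
      have : (X.card : ℝ) ≤ 3 * m := by exact_mod_cast hX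
      linarith)) P G' LE LV hsub hsym hM0 hM' hDP hP hP2 hL0 hL1 T₁ hTm ?_
  intro T hT hT' W hW
  refine LC_sub (cutX_cutX G' T0 T hT) ?_
  refine Pool.Agent.W2helper87.SR.LC_mono ?_ (hLC T hT' W hW)
  intro x y _
  exact sdiff_subset_sdiff (trim_subset E (LE x y)) subset_rfl

end Pool.Agent.W2helper87.TC
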