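import Pool.Agent.W2helper87.TC.Gap2
import Pool.Agent.W2helper87.FR.Dns

/-!
# Random subgraphs: the gap between the two largest degrees, asymptotic form
-/

set_option autoImplicit false

namespace Pool.Agent.W2helper87.TC

open Finset Pool.Agent.H162R2.Sparse Pool.Agent.H162R2.AG Pool.Agent.W2helper87.SR
open Pool.Agent.W2helper87.FR Pool.Agent.W2helper87.LD

set_option maxHeartbeats 4000000 in
theorem gap_dense (c₀ η : ℝ) (hc0 : 0 < c₀) (hc1 : c₀ ≤ 1) (hη : 0 < η) (hη1 : η ≤ 1) :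
    ∃ N : ℕ, ∀ n : ℕ, N ≤ n →
      ∀ (B : SimpleGraph (Fin n)) (p : ℝ), (n : ℝ) ^ (c₀ - 1) ≤ p → p ≤ 1 - η →
      (∃ v, (n : ℝ) ^ (1 - c₀ / 256) ≤ dg B v) →
      pb (qB B p) (fun G => ∃ v w, v ≠ w ∧ (∀ x, dg G x ≤ dg G v) ∧ dg G v < dg G w + 4) ≤
        (n : ℝ) ^ (-(c₀ / 64)) := by
  obtain ⟨a, ha⟩ : ∃ a : ℝ, a = c₀ / 64 := ⟨_, rfl⟩
  have ha0 : 0 < a := by rw [ha]; positivity
  have ha1 : a ≤ 1 / 64 := by rw [ha]; linarith
  have hca : c₀ = 64 * a := by rw [ha]; ring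
  obtain ⟨ε, hε⟩ : ∃ ε : ℝ, ε = η * a / 6800 := ⟨_, rfl⟩
  have hε0 : 0 < ε := by rw [hε]; positivity
  have hηa : η * a ≤ 1 * 1 := by gcongr; linarith
  have hε1 : 4 * ε ≤ 1 := by rw [hε]; linarith
  obtain ⟨K, hK⟩ : ∃ K : ℝ, K = 16 + 4624 / η ^ 2 + 64 / ε ^ 2 + 8 * 4 * (136 / η) := ⟨_, rfl⟩
  have k1 : 0 ≤ 4624 / η ^ 2 := by positivity
  have k2 : 0 ≤ 64 / ε ^ 2 := by positivity
  have k3 : 0 ≤ 8 * 4 * (136 / η) := by positivity
  have hK0 : 0 < K := by linarith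
  obtain ⟨N, hN⟩ := Filter.eventually_atTop.1
    ((ev_log3 K (a / 2) hK0 (by positivity)).and
      ((ev_const (16 / ε ^ 2) (a / 4) (by positivity)).and
      ((ev_rpow 13 (2 * a) a (by linarith)).and
      (Filter.eventually_ge_atTop 6))))
  refine ⟨N, fun n hn B p hp hpη hB => ?_⟩
  obtain ⟨v1, v2, v3, hn6⟩ := hN n hn
  have hnr : (6 : ℝ) ≤ n := by exact_mod_cast hn6
  have hn0 : (0 : ℝ) < n := by linarith
  have hn1 : (1 : ℝ) ≤ n := by linarith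
  have hp0 : 0 < p := lt_of_lt_of_le (by positivity) hp
  have hp1 : p ≤ 1 := by linarith
  have hq := qB_01 B p hp0.le hp1
  obtain ⟨l, hl⟩ : ∃ l : ℝ, l = Real.log n := ⟨_, rfl⟩
  rw [← hl] at v1
  have hl1 : 1 ≤ l := by
    rw [hl, Real.le_log_iff_exp_le hn0]
    linarith [Real.exp_one_lt_d9]
  have hl3 : l ≤ l ^ 3 := by
    have : l * 1 ≤ l * l ^ 2 := by
      gcongr
      exact one_le_pow₀ hl1
    calc l = l * 1 := (mul_one l).symm
      _ ≤ l * l ^ 2 := this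
      _ = l ^ 3 := by ring
  -- the largest expected degree
  have hne : Nonempty (Fin n) := ⟨⟨0, by omega⟩⟩
  obtain ⟨u₀, hu₀⟩ := Finite.exists_max (fun v : Fin n => dg B v)
  obtain ⟨Nm, hNm⟩ : ∃ Nm : ℝ, Nm = dg B u₀ := ⟨_, rfl⟩
  have hNm1 : (n : ℝ) ^ (1 - a / 4) ≤ Nm := by
    obtain ⟨v, hv⟩ := hB
    have e1 : 1 - c₀ / 256 = 1 - a / 4 := by rw [ha]; ring
    rw [e1] at hv
    rw [hNm]
    refine hv.trans ?_
    exact_mod_cast hu₀ v
  have hNm0 : 0 < Nm := lt_of_lt_of_le (by positivity) hNm1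
  obtain ⟨μ, hμ⟩ : ∃ μ : ℝ, μ = p * Nm := ⟨_, rfl⟩
  have hμ0 : 0 < μ := by rw [hμ]; positivity
  have hμv : ∀ v, p * (cS (sU v univ) B : ℝ) ≤ μ := by
    intro v
    rw [cS_univ, hμ, hNm]
    apply mul_le_mul_of_nonneg_left _ hp0.le
    exact_mod_cast hu₀ v
  have hμu : p * (cS (sU u₀ univ) B : ℝ) = μ := by
    rw [cS_univ, hμ, hNm]
  have hμ40 : (n : ℝ) ^ (40 * a) ≤ μ := by
    calc (n : ℝ) ^ (40 * a) ≤ (n : ℝ) ^ (c₀ - 1 + (1 - a / 4)) := by
          apply Real.rpow_le_rpow_of_exponent_le hn1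
          rw [hca]
          linarith
      _ = (n : ℝ) ^ (c₀ - 1) * (n : ℝ) ^ (1 - a / 4) := Real.rpow_add hn0 _ _
      _ ≤ p * Nm := by gcongr
      _ = μ := hμ.symm
  have hμK : K * l ^ 3 ≤ μ := by
    refine (v1.trans ?_).trans hμ40
    apply Real.rpow_le_rpow_of_exponent_le hn1
    linarith
  have hcoef1 : ∀ y : ℝ, 0 ≤ y → y ≤ K → y * l ≤ μ := by
    intro y hy0 hy
    refine le_trans ?_ hμK
    gcongr
  have hcoef2 : ∀ y : ℝ, 0 ≤ y → y ≤ K → y ≤ μ := by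
    intro y hy0 hy
    refine le_trans ?_ (hcoef1 y hy0 hy)
    nlinarith
  obtain ⟨S, hS⟩ : ∃ S : ℝ, S = Real.sqrt (μ * l) := ⟨_, rfl⟩
  have hS0 : 0 < S := by
    rw [hS]
    apply Real.sqrt_pos.2
    positivity
  have hSS : S ^ 2 = μ * l := by
    rw [hS]
    exact Real.sq_sqrt (by positivity)
  have hSη : 68 * S ≤ μ * η := by
    have h1 : 4624 / η ^ 2 * l ≤ μ := hcoef1 _ k1 (by linarith)
    have h2 : S ≤ μ * η / 68 := by
      rw [hS]
      apply Real.sqrt_le_iff.2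
      refine ⟨by positivity, ?_⟩
      have h3 : μ * l = μ * η ^ 2 / 4624 * (4624 / η ^ 2 * l) := by field_simp
      rw [h3]
      calc μ * η ^ 2 / 4624 * (4624 / η ^ 2 * l) ≤ μ * η ^ 2 / 4624 * μ := by gcongr
        _ = (μ * η / 68) ^ 2 := by ring
    linarith
  have hSε : 8 * S ≤ ε * μ := by
    have h1 : 64 / ε ^ 2 * l ≤ μ := hcoef1 _ k2 (by linarith)
    have h2 : S ≤ ε * μ / 8 := by
      rw [hS]
      apply Real.sqrt_le_iff.2
      refine ⟨by positivity, ?_⟩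
      have h3 : μ * l = μ * ε ^ 2 / 64 * (64 / ε ^ 2 * l) := by field_simp
      rw [h3]
      calc μ * ε ^ 2 / 64 * (64 / ε ^ 2 * l) ≤ μ * ε ^ 2 / 64 * μ := by gcongr
        _ = (ε * μ / 8) ^ 2 := by ring
    linarith
  have hSε8 : 8 ≤ ε * S := by
    have h1 : 64 / ε ^ 2 ≤ μ := hcoef2 _ k2 (by linarith)
    have h2 : 8 / ε ≤ S := by
      rw [hS]
      apply Real.le_sqrt_of_sq_le
      calc (8 / ε) ^ 2 = 64 / ε ^ 2 := by ring
        _ ≤ μ := h1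
        _ ≤ μ * l := by nlinarith
    calc (8 : ℝ) = ε * (8 / ε) := by field_simp
      _ ≤ ε * S := by gcongr
  have hS2 : 2 ≤ S := by nlinarith
  obtain ⟨u, hu⟩ : ∃ u : ℕ, u = ⌊(n : ℝ) ^ (1 - a / 2)⌋₊ := ⟨_, rfl⟩
  have hu1 : (u : ℝ) ≤ (n : ℝ) ^ (1 - a / 2) := by
    rw [hu]
    exact Nat.floor_le (by positivity)
  have hun : u ≤ n := by
    have : (n : ℝ) ^ (1 - a / 2) ≤ (n : ℝ) ^ (1 : ℝ) := by
      apply Real.rpow_le_rpow_of_exponent_le hn1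
      linarith
    rw [Real.rpow_one] at this
    exact_mod_cast hu1.trans this
  have h16 : (16 : ℝ) * l ≤ (n : ℝ) ^ (a / 2) := by
    refine le_trans ?_ v1
    calc 16 * l ≤ 16 * l ^ 3 := by gcongr
      _ ≤ K * l ^ 3 := by
          gcongr
          linarith
  have hu2 : (n : ℝ) ^ (1 - a / 2) / 2 ≤ u := by
    have h1 : (n : ℝ) ^ (1 - a / 2) < u + 1 := by
      rw [hu]
      exact Nat.lt_floor_add_one _
    have h2 : (4 : ℝ) ≤ (n : ℝ) ^ (1 - a / 2) := by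
      have h3 : (n : ℝ) ^ (a / 2) ≤ (n : ℝ) ^ (1 - a / 2) := by
        apply Real.rpow_le_rpow_of_exponent_le hn1
        linarith
      linarith
    linarith
  have hub : 2 * Real.log n ≤ u / n * (n : ℝ) ^ a := by
    rw [← hl]
    have h1 : (n : ℝ) ^ (a / 2) * n = (n : ℝ) ^ (1 - a / 2) * (n : ℝ) ^ a := by
      rw [← Real.rpow_add hn0]
      nth_rewrite 2 [← Real.rpow_one (n : ℝ)]
      rw [← Real.rpow_add hn0]
      congr 1
      ring
    rw [div_mul_eq_mul_div, le_div_iff₀ hn0]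
    calc 2 * l * n ≤ (16 * l) * n / 2 := by nlinarith
      _ ≤ (n : ℝ) ^ (a / 2) * n / 2 := by gcongr
      _ = (n : ℝ) ^ (1 - a / 2) / 2 * (n : ℝ) ^ a := by
          rw [h1]
          ring
      _ ≤ u * (n : ℝ) ^ a := by gcongr
  have hu3 : p * u ≤ ε ^ 2 * μ / 16 := by
    have h1 : (16 / ε ^ 2) * (n : ℝ) ^ (1 - a / 2) ≤ Nm := by
      calc (16 / ε ^ 2) * (n : ℝ) ^ (1 - a / 2) ≤
          (n : ℝ) ^ (a / 4) * (n : ℝ) ^ (1 - a / 2) := by gcongr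
        _ = (n : ℝ) ^ (1 - a / 4) := by
            rw [← Real.rpow_add hn0]
            congr 1
            ring
        _ ≤ Nm := hNm1
    calc p * u ≤ p * (n : ℝ) ^ (1 - a / 2) := by gcongr
      _ = p * (ε ^ 2 / 16 * ((16 / ε ^ 2) * (n : ℝ) ^ (1 - a / 2))) := by field_simp
      _ ≤ p * (ε ^ 2 / 16 * Nm) := by gcongr
      _ = ε ^ 2 * μ / 16 := by
          rw [hμ]
          ring
  have hb1 : (1 : ℝ) ≤ (n : ℝ) ^ a := Real.one_le_rpow hn1 (by linarith)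
  have hbn : (n : ℝ) ^ a ≤ n := by
    calc (n : ℝ) ^ a ≤ (n : ℝ) ^ (1 : ℝ) := by
          apply Real.rpow_le_rpow_of_exponent_le hn1
          linarith
      _ = n := Real.rpow_one _
  obtain ⟨k₁, t1, t2, t3⟩ := thresh B p η μ S hp0 hη hpη hμ0 hμv hS0 (by rw [← hl]; exact hSS) ε
    hε0 hε1 u₀ hμu ((n : ℝ) ^ a) _ 4 hb1 hbn rfl hSη (by linarith) hSε (by rw [← hl]; exact hl1)
    (by linarith) u hun hu3 hub
  have hb2 : Real.exp (1360 * 5 * ε / η * Real.log n) * (n : ℝ) ^ a + 1 =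
      (n : ℝ) ^ (2 * a) + 1 := by
    have h1 : 1360 * 5 * ε / η = a := by
      rw [hε]
      field_simp
      norm_num
    rw [h1, exp_mul_log n (by omega), ← Real.rpow_add hn0]
    congr 2
    ring
  rw [hb2] at t2
  obtain ⟨m, hm⟩ : ∃ m : ℕ, m = ⌊μ * η / (68 * S)⌋₊ := ⟨_, rfl⟩
  have hgap := gap_max B p η μ S hp0 hη hpη hμ0 hμv hS0 (by rw [← hl]; exact hSS) hSη
    (by rw [← hl]; exact hl1) hS2 m hm k₁ 4 (by norm_num) ((n : ℝ) ^ (2 * a) + 1) t1 t2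
    (by exact_mod_cast t3) (by omega)
  refine hgap.trans ?_
  have hr1 : 1 ≤ μ * η / (68 * S) := by
    rw [le_div_iff₀ (by positivity)]
    linarith
  have hmr1 : (1 : ℝ) ≤ m := by
    have : 1 ≤ m := by
      rw [hm]
      exact Nat.le_floor (by simpa using hr1)
    exact_mod_cast this
  have hmge : μ * η / (136 * S) ≤ m := by
    have h1 : μ * η / (68 * S) < m + 1 := by
      rw [hm]
      exact Nat.lt_floor_add_one _
    have h2 : μ * η / (136 * S) = μ * η / (68 * S) / 2 := by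
      field_simp
      norm_num
    rw [h2]
    linarith
  have hmi : 2 / (m : ℝ) ≤ 2 * (136 / η * (l * (n : ℝ) ^ (-(20 * a)))) := by
    have e1 : 2 / (m : ℝ) ≤ 2 / (μ * η / (136 * S)) := by
      apply div_le_div_of_nonneg_left (by norm_num) (by positivity) hmge
    refine e1.trans ?_
    have e2 : 2 / (μ * η / (136 * S)) = 2 * (136 / η * (S / μ)) := by
      field_simp
    rw [e2]
    have e3 : S / μ ≤ l * (n : ℝ) ^ (-(20 * a)) := by
      rw [div_le_iff₀ hμ0, hS]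
      apply Real.sqrt_le_iff.2
      refine ⟨by positivity, ?_⟩
      have e4 : (l * (n : ℝ) ^ (-(20 * a)) * μ) ^ 2 =
          (l * μ) * (l * ((n : ℝ) ^ (-(40 * a)) * μ)) := by
        have e5 : (n : ℝ) ^ (-(40 * a)) = (n : ℝ) ^ (-(20 * a)) * (n : ℝ) ^ (-(20 * a)) := by
          rw [← Real.rpow_add hn0]
          congr 1
          ring
        rw [e5]
        ring
      have e6 : 1 ≤ (n : ℝ) ^ (-(40 * a)) * μ := by
        calc (1 : ℝ) = (n : ℝ) ^ (-(40 * a)) * (n : ℝ) ^ (40 * a) := by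
              rw [← Real.rpow_add hn0]
              simp
          _ ≤ (n : ℝ) ^ (-(40 * a)) * μ := by gcongr
      rw [e4]
      calc μ * l = (l * μ) * (1 * 1) := by ring
        _ ≤ (l * μ) * (l * ((n : ℝ) ^ (-(40 * a)) * μ)) := by gcongr
    gcongr
  have hbb : (n : ℝ) ^ (2 * a) + 1 ≤ 2 * (n : ℝ) ^ (2 * a) := by
    have : (1 : ℝ) ≤ (n : ℝ) ^ (2 * a) := Real.one_le_rpow hn1 (by linarith)
    linarith
  have hni : 1 / (n : ℝ) ≤ (n : ℝ) ^ (-(15 * a)) := by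
    rw [one_div, ← Real.rpow_neg_one]
    apply Real.rpow_le_rpow_of_exponent_le hn1
    linarith
  have hterm : ((n : ℝ) ^ (2 * a) + 1) * ((4 : ℕ) * (2 / m * ((n : ℝ) ^ (2 * a) + 1) + 1 / n)) ≤
      9 * (n : ℝ) ^ (-(2 * a)) := by
    have hQ : 0 < (n : ℝ) ^ (2 * a) := by positivity
    calc ((n : ℝ) ^ (2 * a) + 1) * ((4 : ℕ) * (2 / m * ((n : ℝ) ^ (2 * a) + 1) + 1 / n)) ≤
        (2 * (n : ℝ) ^ (2 * a)) * ((4 : ℕ) * (2 * (136 / η * (l * (n : ℝ) ^ (-(20 * a)))) *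
          (2 * (n : ℝ) ^ (2 * a)) + (n : ℝ) ^ (-(15 * a)))) := by gcongr
      _ = (8 * 4 * (136 / η) * l) * ((n : ℝ) ^ (2 * a) * (n : ℝ) ^ (2 * a) *
          (n : ℝ) ^ (-(20 * a))) + 8 * ((n : ℝ) ^ (2 * a) * (n : ℝ) ^ (-(15 * a))) := by
            push_cast
            ring
      _ ≤ (n : ℝ) ^ (a / 2) * ((n : ℝ) ^ (2 * a) * (n : ℝ) ^ (2 * a) *
          (n : ℝ) ^ (-(20 * a))) + 8 * ((n : ℝ) ^ (2 * a) * (n : ℝ) ^ (-(15 * a))) := by
            gcongr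
            refine le_trans ?_ v1
            calc 8 * 4 * (136 / η) * l ≤ 8 * 4 * (136 / η) * l ^ 3 := by gcongr
              _ ≤ K * l ^ 3 := by
                  gcongr
                  linarith
      _ = (n : ℝ) ^ (a / 2 + (2 * a + 2 * a + -(20 * a))) +
          8 * (n : ℝ) ^ (2 * a + -(15 * a)) := by
            rw [← Real.rpow_add hn0, ← Real.rpow_add hn0, ← Real.rpow_add hn0,
              ← Real.rpow_add hn0]
      _ ≤ (n : ℝ) ^ (-(2 * a)) + 8 * (n : ℝ) ^ (-(2 * a)) := by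
            have e1 : (n : ℝ) ^ (a / 2 + (2 * a + 2 * a + -(20 * a))) ≤
                (n : ℝ) ^ (-(2 * a)) := by
              apply Real.rpow_le_rpow_of_exponent_le hn1
              linarith
            have e2 : (n : ℝ) ^ (2 * a + -(15 * a)) ≤ (n : ℝ) ^ (-(2 * a)) := by
              apply Real.rpow_le_rpow_of_exponent_le hn1
              linarith
            linarith
      _ = 9 * (n : ℝ) ^ (-(2 * a)) := by ring
  have h4 : (4 : ℝ) / n ≤ 4 * (n : ℝ) ^ (-(2 * a)) := by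
    have e1 : (n : ℝ) ^ (-(15 * a)) ≤ (n : ℝ) ^ (-(2 * a)) := by
      apply Real.rpow_le_rpow_of_exponent_le hn1
      linarith
    have e2 : (4 : ℝ) / n = 4 * (1 / n) := by ring
    rw [e2]
    linarith
  have h5 : (13 : ℝ) * (n : ℝ) ^ (-(2 * a)) ≤ (n : ℝ) ^ (-a) := v3
  rw [← ha]
  linarith

end Pool.Agent.W2helper87.TC
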