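import Pool.Agent.W2helper87.TC.DnsT
import Pool.Agent.W2helper87.TC.GapD
import Pool.Agent.W2helper87.SR.TotFin

/-!
# Total list colourings extending a precoloured distance-3 matching: one vertex of large degree
-/

set_option autoImplicit false

namespace Pool.Agent.W2helper87.TC

open Finset Pool.Agent.H162R2.Sparse Pool.Agent.H162R2.AG Pool.Agent.W2helper87.SR
open Pool.Agent.W2helper87.FR Pool.Agent.Results.MP_db9399_co.SparseLargeDegrees

theorem star_dens {n : ℕ} (G : SimpleGraph (Fin n)) (w₀ : Fin n) (X : Finset (Fin n)) :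
    ({e : Fin n × Fin n | e.1 ∈ X ∧ e.2 ∈ X ∧ G.Adj e.1 e.2 ∧
      (e.1 ∈ ({w₀} : Finset (Fin n)) ∨ e.2 ∈ ({w₀} : Finset (Fin n)))}.ncard : ℝ) ≤
      2 * X.card := by
  classical
  have h1 : {e : Fin n × Fin n | e.1 ∈ X ∧ e.2 ∈ X ∧ G.Adj e.1 e.2 ∧
      (e.1 ∈ ({w₀} : Finset (Fin n)) ∨ e.2 ∈ ({w₀} : Finset (Fin n)))} ⊆
      ((X.image (fun x => (w₀, x)) ∪ X.image (fun x => (x, w₀)) : Finset (Fin n × Fin n)) :
        Set (Fin n × Fin n)) := by
    rintro ⟨a, b⟩ ⟨ha, hb, _, h⟩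
    rw [mem_coe, mem_union, mem_image, mem_image]
    rw [mem_singleton, mem_singleton] at h
    rcases h with h | h
    · left
      exact ⟨b, hb, by rw [← h]⟩
    · right
      exact ⟨a, ha, by rw [← h]⟩
  have h2 := Set.ncard_le_ncard h1 (Set.toFinite _)
  rw [Set.ncard_coe_finset] at h2
  have h3 := card_union_le (X.image (fun x => (w₀, x))) (X.image (fun x => (x, w₀)))
  have h4 := card_image_le (s := X) (f := fun x => (w₀, x))
  have h5 := card_image_le (s := X) (f := fun x => (x, w₀))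
  exact_mod_cast (by omega : {e : Fin n × Fin n | e.1 ∈ X ∧ e.2 ∈ X ∧ G.Adj e.1 e.2 ∧
      (e.1 ∈ ({w₀} : Finset (Fin n)) ∨ e.2 ∈ ({w₀} : Finset (Fin n)))}.ncard ≤ 2 * X.card)

theorem asm_total {n : ℕ} (G : SimpleGraph (Fin n)) (h4 : Gd4 G)
    (hgap : ¬ ∃ v w, v ≠ w ∧ (∀ x, dg G x ≤ dg G v) ∧ dg G v < dg G w + 4) (D : ℕ)
    (hdeg : ∀ v, dg G v ≤ D) (hmax : ∃ v, dg G v = D)
    (hbig : 34 * 2 * (1 + Real.log D) ≤ D) (H : SimpleGraph (Fin n))
    (hH : IsDistThreeMatching G H) (k : ℕ) (hk : D + 1 ≤ k) : ListExtends G H k := by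
  classical
  obtain ⟨w₀, hw₀⟩ := hmax
  have hD4 : (4 : ℝ) ≤ D := by
    rcases Nat.eq_zero_or_pos D with h | h
    · rw [h] at hbig
      norm_num at hbig
    · have h1 : (1 : ℝ) ≤ D := by exact_mod_cast h
      have h2 := Real.log_nonneg h1
      linarith
  have hg : ∀ v, v ≠ w₀ → dg G v + 4 ≤ D := by
    intro v hv
    by_contra hcon
    apply hgap
    refine ⟨w₀, v, hv.symm, fun x => by rw [hw₀]; exact hdeg x, ?_⟩
    rw [hw₀]
    omega
  intro L M hL hM c d hcd
  refine wrap G H hH D k hdeg hk L M hL hM c d hcd ?_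
  intro P G' LE LV bad hsub hsym hM0 hM' hDP hP hP2 hL0 hL1 hb1 hb2 hLE
  have hFL : FewLarge G D {w₀} 2 1 0 := by
    refine ⟨fun v => by rw [← dg_eq_ncard]; exact hdeg v, hbig, star_dens G w₀, ?_, ?_⟩
    · intro v hv
      have h1 : {w : Fin n | w ∈ ({w₀} : Finset (Fin n)) ∧ G.Adj v w} ⊆ {w₀} := by
        intro w hw
        exact mem_singleton.1 hw.1
      have h2 := Set.ncard_le_ncard h1 (Set.toFinite _)
      rwa [Set.ncard_singleton] at h2
    · intro v hv
      have h1 := hg v (fun h => hv (mem_singleton.2 h))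
      have h2 : {w : Fin n | w ∉ ({w₀} : Finset (Fin n)) ∧ G.Adj v w}.ncard ≤ dg G v := by
        rw [dg_eq_ncard]
        apply Set.ncard_le_ncard _ (Set.toFinite _)
        intro w hw
        exact hw.2
      have h3 : (({w : Fin n | w ∉ ({w₀} : Finset (Fin n)) ∧ G.Adj v w}.ncard : ℕ) : ℝ) + 4 ≤
          D := by exact_mod_cast (by omega : _ + 4 ≤ D)
      push_cast
      linarith
  refine core_of G D {w₀} 2 1 0 le_rfl hFL P G' LE LV hsub hsym hM0 hM' hDP hP hP2 hL0 hL1 ?_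
  intro d' W hd1 hd2 hd3 hW
  have hd4 : d' + 4 ≤ D := by
    have : (d' : ℝ) + 4 ≤ D := by
      push_cast at hd2
      linarith
    exact_mod_cast this
  refine h4 D hdeg ⟨w₀, hw₀⟩ (cutX G' {w₀}) ?_ ?_ _ ?_ ?_
  · intro a b hab
    exact hsub a b ((cutX_adj G' {w₀} a b).1 hab).1
  · intro v
    have := hd3 v
    omega
  · intro a b
    rw [hsym a b, union_comm]
  · intro x y hxy
    obtain ⟨hxy1, hxT, hyT⟩ := (cutX_adj G' {w₀} x y).1 hxy
    have h1 := hW x hxT
    have h2 := hW y hyT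
    have h3 : (LE x y).card ≤ (LE x y \ (W x ∪ W y)).card + ((W x).card + (W y).card) := by
      have e1 := le_card_sdiff (W x ∪ W y) (LE x y)
      have e2 := card_union_le (W x) (W y)
      omega
    by_cases hx : x ∈ P
    · have hy : y ∉ P := fun hy => hP x hx y hy hxy1
      rw [if_pos hx] at h1
      rw [if_neg hy] at h2
      have h5 := hL0 x y hxy1
      omega
    · by_cases hy : y ∈ P
      · rw [if_neg hx] at h1
        rw [if_pos hy] at h2
        have h5 := hL0 x y hxy1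
        omega
      · rw [if_neg hx] at h1
        rw [if_neg hy] at h2
        have h5 := hL1 x y hxy1 hx hy
        omega

end Pool.Agent.W2helper87.TC
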