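import Pool.Agent.W2helper87.TC.Asm
import Pool.Agent.W2helper87.TC.LowAll

/-!
# Total list colourings of random subgraphs of almost dense graphs extending a precoloured
distance-3 matching
-/

set_option autoImplicit false

namespace Pool.Agent.W2helper87.TC

open Finset Pool.Agent.H162R2.Sparse Pool.Agent.H162R2.AG Pool.Agent.W2helper87.SR
open Pool.Agent.W2helper87.FR Pool.Agent.W2helper87.LD
open Pool.Agent.Results.MP_db9399_co.SparseLargeDegrees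

set_option maxHeartbeats 1000000 in
theorem dense_total (c₀ η : ℝ) (hc0 : 0 < c₀) (hc1 : c₀ ≤ 1) (hη : 0 < η) (hη1 : η ≤ 1) :
    ∃ c₁ : ℝ, 0 < c₁ ∧ c₁ ≤ 1 ∧ ∃ N : ℕ, ∀ n : ℕ, N ≤ n →
      ∀ (B : SimpleGraph (Fin n)) (p : ℝ), (n : ℝ) ^ (c₀ - 1) ≤ p → p ≤ 1 - η →
      (∃ v, (n : ℝ) ^ (1 - c₁) ≤ dg B v) →
      1 - (n : ℝ) ^ (-c₁) ≤ pb (qB B p) GdTot := by
  obtain ⟨c₂, hc₂0, hc₂1, N₂, h₂⟩ := struct_dense c₀ η hc0 hη hη1
  obtain ⟨N₃, h₃⟩ := gap_dense c₀ η hc0 hc1 hη hη1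
  obtain ⟨x₀, hx₀1, hx₀⟩ := log_small 1 one_pos
  obtain ⟨c₁, hc₁⟩ : ∃ c₁ : ℝ, c₁ = min (c₂ / 2) (c₀ / 256) := ⟨_, rfl⟩
  have hc₁0 : 0 < c₁ := by
    rw [hc₁]
    exact lt_min (by linarith) (by linarith)
  have hc₁2 : c₁ ≤ c₂ / 2 := by rw [hc₁]; exact min_le_left _ _
  have hc₁3 : c₁ ≤ c₀ / 256 := by rw [hc₁]; exact min_le_right _ _
  obtain ⟨N, hN⟩ := Filter.eventually_atTop.1
    ((ev_log3 (16 + 2 * x₀) (c₀ / 2) (by linarith) (by positivity)).and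
      ((ev_rpow 3 (2 * c₁) c₁ (by linarith)).and
      (Filter.eventually_ge_atTop (max (max N₂ N₃) 6))))
  refine ⟨c₁, hc₁0, by linarith, N, fun n hn B p hp hpη hB => ?_⟩
  obtain ⟨v1, v2, hn6'⟩ := hN n hn
  have hnN₂ : N₂ ≤ n := le_trans (le_max_left _ _) (le_trans (le_max_left _ _) hn6')
  have hnN₃ : N₃ ≤ n := le_trans (le_max_right _ _) (le_trans (le_max_left _ _) hn6')
  have hn6 : 6 ≤ n := le_trans (le_max_right _ _) hn6'
  have hnr : (6 : ℝ) ≤ n := by exact_mod_cast hn6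
  have hn0 : (0 : ℝ) < n := by linarith
  have hn1 : (1 : ℝ) ≤ n := by linarith
  have hp0 : 0 < p := lt_of_lt_of_le (by positivity) hp
  have hp1 : p ≤ 1 := by linarith
  have hq := qB_01 B p hp0.le hp1
  have hmono : ∀ x y : ℝ, x ≤ y → (n : ℝ) ^ x ≤ (n : ℝ) ^ y := fun x y h =>
    Real.rpow_le_rpow_of_exponent_le hn1 h
  obtain ⟨v₀, hv₀⟩ := hB
  have g2 := h₂ n hnN₂ B p hp hpη ⟨v₀, (hmono _ _ (by linarith)).trans hv₀⟩
  have g3 := h₃ n hnN₃ B p hp hpη ⟨v₀, (hmono _ _ (by linarith)).trans hv₀⟩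
  -- the maximum degree
  have hl1 : 1 ≤ Real.log n := by
    rw [Real.le_log_iff_exp_le hn0]
    linarith [Real.exp_one_lt_d9]
  have hl3 : Real.log n ≤ Real.log n ^ 3 := by
    have : Real.log n * 1 ≤ Real.log n * Real.log n ^ 2 := by
      gcongr
      exact one_le_pow₀ hl1
    calc Real.log n = Real.log n * 1 := (mul_one _).symm
      _ ≤ Real.log n * Real.log n ^ 2 := this
      _ = Real.log n ^ 3 := by ring
  obtain ⟨μ, hμ⟩ : ∃ μ : ℝ, μ = p * (dg B v₀ : ℝ) := ⟨_, rfl⟩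
  have hμK : (16 + 2 * x₀) * Real.log n ^ 3 ≤ μ := by
    refine v1.trans ?_
    calc (n : ℝ) ^ (c₀ / 2) ≤ (n : ℝ) ^ (c₀ - 1 + (1 - c₁)) := hmono _ _ (by linarith)
      _ = (n : ℝ) ^ (c₀ - 1) * (n : ℝ) ^ (1 - c₁) := Real.rpow_add hn0 _ _
      _ ≤ p * (dg B v₀ : ℝ) := by gcongr
      _ = μ := hμ.symm
  have hμ16 : 16 * Real.log n ≤ μ := by
    refine le_trans ?_ hμK
    have : 0 ≤ 2 * x₀ * Real.log n ^ 3 := by positivity
    nlinarith
  have hμx : 2 * x₀ ≤ μ := by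
    refine le_trans ?_ hμK
    have h1 : 1 ≤ Real.log n ^ 3 := by linarith
    nlinarith
  have hμ0 : 0 < μ := by linarith
  have hlow := cS_lower (qB B p) hq (sU v₀ univ) μ (μ / 2) hμ0 (by rw [qs_qB, cS_univ, hμ])
    (by positivity) (by linarith)
  have hlow2 : Real.exp (-((μ / 2) ^ 2) / (4 * μ)) ≤ 1 / n := by
    have e1 : -((μ / 2) ^ 2) / (4 * μ) = -(μ / 16) := by
      field_simp
      norm_num
    have e3 : (1 : ℝ) / n = Real.exp (-Real.log n) := by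
      rw [Real.exp_neg, Real.exp_log hn0, one_div]
    rw [e1, e3]
    apply Real.exp_le_exp.2
    linarith
  rw [qs_qB, cS_univ, ← hμ] at hlow
  -- the events
  have hbad : pb (qB B p) (fun G => ¬ GdTot G) ≤ pb (qB B p) (fun G => (¬ Gd4 G) ∨
      ((∃ v w, v ≠ w ∧ (∀ x, dg G x ≤ dg G v) ∧ dg G v < dg G w + 4) ∨
      ((cS (sU v₀ univ) G : ℝ) ≤ μ - μ / 2))) := by
    apply pb_mono _ hq
    intro G hG
    by_contra hcon
    apply hG
    rw [not_or, not_or, not_not] at hcon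
    obtain ⟨k1, k2, k3⟩ := hcon
    rw [not_le, cS_univ] at k3
    intro D hD1 hD2 H hH k hk
    refine asm_total G k1 k2 D hD1 hD2 ?_ H hH k hk
    have h5 : (dg G v₀ : ℝ) ≤ D := by exact_mod_cast hD1 v₀
    have h6 := hx₀ D (by linarith)
    linarith
  have h5 : pb (qB B p) (fun G => ¬ Gd4 G) ≤ (n : ℝ) ^ (-(1 / 40) : ℝ) := by
    rw [pb_not] at g2
    linarith
  have h6 : pb (qB B p) (fun G => ¬ GdTot G) ≤ (n : ℝ) ^ (-(1 / 40) : ℝ) +
      ((n : ℝ) ^ (-(c₀ / 64)) + 1 / n) := by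
    refine hbad.trans ((pb_or_le _ hq _ _).trans (add_le_add h5 ?_))
    exact (pb_or_le _ hq _ _).trans (add_le_add g3 (hlow.trans hlow2))
  have e1 : (n : ℝ) ^ (-(1 / 40) : ℝ) ≤ (n : ℝ) ^ (-(2 * c₁)) := hmono _ _ (by linarith)
  have e2' : (n : ℝ) ^ (-(c₀ / 64)) ≤ (n : ℝ) ^ (-(2 * c₁)) := hmono _ _ (by linarith)
  have e3 : 1 / (n : ℝ) ≤ (n : ℝ) ^ (-(2 * c₁)) := by
    rw [one_div, ← Real.rpow_neg_one]
    exact hmono _ _ (by linarith)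
  rw [pb_not]
  linarith

end Pool.Agent.W2helper87.TC
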