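import Pool.Agent.W2helper87.FR.Mx2
import Pool.Agent.W2helper87.LD.Rat

/-!
# Random graphs: two degrees are rarely both large and close to each other
-/

set_option autoImplicit false

namespace Pool.Agent.W2helper87.TC

open Finset Pool.Agent.H162R2.Sparse Pool.Agent.H162R2.AG Pool.Agent.W2helper87.SR
open Pool.Agent.W2helper87.FR Pool.Agent.W2helper87.LD

section

variable {n : ℕ} (q : Sym2 (Fin n) → ℝ)

/-- the edge between two different vertices -/
def ed {n : ℕ} (v w : Fin n) (hvw : v ≠ w) : Pr n := ⟨s(v, w), by simpa using hvw⟩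

theorem ed_comm {n : ℕ} (v w : Fin n) (hvw : v ≠ w) : ed v w hvw = ed w v hvw.symm := by
  apply Subtype.ext
  exact Sym2.eq_swap

theorem ed_mem {n : ℕ} (v w : Fin n) (hvw : v ≠ w) : ed v w hvw ∈ sU v univ := by
  rw [mem_sU]
  exact ⟨w, mem_univ _, rfl⟩

theorem ed_mem2 {n : ℕ} (v w : Fin n) (hvw : v ≠ w) : ed v w hvw ∈ sU w univ := by
  rw [ed_comm]
  exact ed_mem w v hvw.symm

theorem disj_edges {n : ℕ} (v w : Fin n) (hvw : v ≠ w) (f : Pr n)
    (hf : f ∈ (sU v univ).erase (ed v w hvw)) (hf2 : f ∈ (sU w univ).erase (ed v w hvw)) :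
    False := by
  classical
  rw [mem_erase, mem_sU] at hf hf2
  obtain ⟨hfe, a, _, ha⟩ := hf
  obtain ⟨_, b, _, hb⟩ := hf2
  apply hfe
  apply Subtype.ext
  change f.1 = s(v, w)
  rw [ha] at hb
  rcases Sym2.eq_iff.1 hb with h3 | h3
  · exact absurd h3.1 hvw
  · rw [ha, h3.2]

/-- independence of the two degrees up to the edge between the two vertices -/
theorem pair_PS (v w : Fin n) (hvw : v ≠ w) (i j : ℕ) :
    ex q (fun G => (if cS ((sU v univ).erase (ed v w hvw)) G = j then (1 : ℝ) else 0) *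
      (if cS ((sU w univ).erase (ed v w hvw)) G = i then (1 : ℝ) else 0)) =
      PS q ((sU v univ).erase (ed v w hvw)) j * PS q ((sU w univ).erase (ed v w hvw)) i := by
  classical
  unfold PS
  simp_rw [pb_ex]
  rw [← ex_indep q ((sU v univ).erase (ed v w hvw))]
  · intro G G' h
    rw [cS_congr _ G G' h]
  · intro G G' h
    have : cS ((sU w univ).erase (ed v w hvw)) G = cS ((sU w univ).erase (ed v w hvw)) G' := by
      apply cS_congr
      intro f hf
      exact h f (fun hf2 => disj_edges v w hvw f hf2 hf)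
    rw [this]

theorem sum_PS (hq : ∀ e, 0 ≤ q e ∧ q e ≤ 1) (S : Finset (Pr n)) (k M : ℕ) :
    ∑ j ∈ Icc k M, PS q S j ≤ TS q S k := by
  classical
  unfold PS TS
  simp_rw [pb_ex]
  rw [← ex_sum]
  apply ex_mono _ hq
  intro G
  rw [sum_boole]
  by_cases h : k ≤ cS S G
  · rw [if_pos h]
    have : (filter (fun i => cS S G = i) (Icc k M)).card ≤ 1 := by
      rw [card_le_one]
      intro a ha b hb
      rw [mem_filter] at ha hb
      rw [← ha.2, ← hb.2]
    exact_mod_cast this
  · rw [if_neg h]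
    apply le_of_eq
    rw [Nat.cast_eq_zero, card_eq_zero, filter_eq_empty_iff]
    intro i hi h2
    rw [mem_Icc] at hi
    omega

theorem TS_erase (hq : ∀ e, 0 ≤ q e ∧ q e ≤ 1) (S : Finset (Pr n)) (e : Pr n) (k : ℕ) :
    TS q (S.erase e) k ≤ TS q S k := by
  classical
  apply pb_mono q hq
  intro G hG
  refine hG.trans ?_
  unfold cS
  exact card_le_card (filter_subset_filter _ (erase_subset _ _))

/-- two large degrees are rarely close to each other -/
theorem two_deg (hq : ∀ e, 0 ≤ q e ∧ q e ≤ 1) (v w : Fin n) (hvw : v ≠ w) (k g M : ℕ) (ρ : ℝ)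
    (hg : 1 ≤ g) (hρ0 : 0 ≤ ρ)
    (hρ : ∀ i, k ≤ i → i ≤ M → PS q ((sU w univ).erase (ed v w hvw)) i ≤ ρ) :
    pb q (fun G => k + g ≤ dg G v ∧ dg G v ≤ M ∧ dg G w ≤ dg G v ∧ dg G v < dg G w + g) ≤
      TS q (sU v univ) k * (g * ρ) := by
  classical
  set e := ed v w hvw with he
  set Sv := (sU v univ).erase e with hSv
  set Sw := (sU w univ).erase e with hSw
  have h1 : pb q (fun G => k + g ≤ dg G v ∧ dg G v ≤ M ∧ dg G w ≤ dg G v ∧
      dg G v < dg G w + g) ≤
      ex q (fun G => ∑ j ∈ Icc k M, ∑ i ∈ (Icc k M).filter (fun i => i ≤ j ∧ j < i + g),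
        (if cS Sv G = j then (1 : ℝ) else 0) * (if cS Sw G = i then (1 : ℝ) else 0)) := by
    rw [pb_ex]
    apply ex_mono q hq
    intro G
    have hnn : ∀ j i : ℕ, (0 : ℝ) ≤ (if cS Sv G = j then (1 : ℝ) else 0) *
        (if cS Sw G = i then (1 : ℝ) else 0) := by
      intro j i
      split_ifs <;> norm_num
    split_ifs with h
    · obtain ⟨h2, h3, h4, h5⟩ := h
      have k1 : dg G v = cS Sv G + (if e.1 ∈ G.edgeSet then 1 else 0) := by
        rw [← cS_univ, cS_erase _ e (ed_mem v w hvw) G]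
      have k2 : dg G w = cS Sw G + (if e.1 ∈ G.edgeSet then 1 else 0) := by
        rw [← cS_univ, cS_erase _ e (ed_mem2 v w hvw) G]
      rw [k1] at h2 h3
      rw [k1, k2] at h4 h5
      have hj : cS Sv G ∈ Icc k M := by
        rw [mem_Icc]
        split_ifs at h2 h3 h4 h5 <;> omega
      have hi : cS Sw G ∈ (Icc k M).filter (fun i => i ≤ cS Sv G ∧ cS Sv G < i + g) := by
        rw [mem_filter, mem_Icc]
        split_ifs at h2 h3 h4 h5 <;> omega
      refine le_trans ?_ (single_le_sum (f := fun j => ∑ i ∈ (Icc k M).filter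
        (fun i => i ≤ j ∧ j < i + g), (if cS Sv G = j then (1 : ℝ) else 0) *
        (if cS Sw G = i then (1 : ℝ) else 0)) (fun j _ => sum_nonneg fun i _ => hnn j i) hj)
      refine le_trans ?_ (single_le_sum (f := fun i => (if cS Sv G = cS Sv G then (1 : ℝ) else 0) *
        (if cS Sw G = i then (1 : ℝ) else 0)) (fun i _ => hnn _ i) hi)
      simp
    · exact sum_nonneg fun j _ => sum_nonneg fun i _ => hnn j i
  refine h1.trans ?_
  rw [ex_sum]
  have h2 : ∀ j ∈ Icc k M, ex q (fun G => ∑ i ∈ (Icc k M).filter (fun i => i ≤ j ∧ j < i + g),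
      (if cS Sv G = j then (1 : ℝ) else 0) * (if cS Sw G = i then (1 : ℝ) else 0)) ≤
      PS q Sv j * (g * ρ) := by
    intro j hj
    rw [ex_sum]
    have hP := PS_nonneg q hq Sv j
    have h3 : ∀ i ∈ (Icc k M).filter (fun i => i ≤ j ∧ j < i + g),
        ex q (fun G => (if cS Sv G = j then (1 : ℝ) else 0) *
          (if cS Sw G = i then (1 : ℝ) else 0)) ≤ PS q Sv j * ρ := by
      intro i hi
      rw [mem_filter, mem_Icc] at hi
      rw [pair_PS q v w hvw i j]
      exact mul_le_mul_of_nonneg_left (hρ i hi.1.1 hi.1.2) hP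
    refine (sum_le_sum h3).trans ?_
    rw [sum_const, nsmul_eq_mul]
    have h4 : ((Icc k M).filter (fun i => i ≤ j ∧ j < i + g)).card ≤ g := by
      have h5 : (Icc k M).filter (fun i => i ≤ j ∧ j < i + g) ⊆
          (range g).image (fun t => j - t) := by
        intro i hi
        rw [mem_filter] at hi
        rw [mem_image]
        refine ⟨j - i, ?_, ?_⟩
        · rw [mem_range]
          omega
        · omega
      refine (card_le_card h5).trans (card_image_le.trans ?_)
      rw [card_range]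
    have h6 : (((Icc k M).filter (fun i => i ≤ j ∧ j < i + g)).card : ℝ) ≤ g := by
      exact_mod_cast h4
    calc _ ≤ (g : ℝ) * (PS q Sv j * ρ) := by
          apply mul_le_mul_of_nonneg_right h6
          exact mul_nonneg hP hρ0
      _ = _ := by ring
  refine (sum_le_sum h2).trans ?_
  rw [← sum_mul]
  apply mul_le_mul_of_nonneg_right _ (by positivity)
  exact (sum_PS q hq Sv k M).trans (TS_erase q hq _ _ k)

end

end Pool.Agent.W2helper87.TC
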