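import Pool.Agent.W2helper87.TC.Gap1

/-!
# Random graphs: the gap between the two largest degrees
-/

set_option autoImplicit false

namespace Pool.Agent.W2helper87.TC

open Finset Pool.Agent.H162R2.Sparse Pool.Agent.H162R2.AG Pool.Agent.W2helper87.SR
open Pool.Agent.W2helper87.FR Pool.Agent.W2helper87.LD

theorem cS_erase_ge {n : ℕ} (S : Finset (Pr n)) (e : Pr n) (G : SimpleGraph (Fin n)) :
    cS S G ≤ cS (S.erase e) G + 1 := by
  classical
  by_cases he : e ∈ S
  · rw [cS_erase S e he G]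
    split_ifs <;> omega
  · rw [erase_eq_of_notMem he]
    omega

section

variable {n : ℕ} (B : SimpleGraph (Fin n)) (p η μ S : ℝ) (hp0 : 0 < p) (hη0 : 0 < η)
  (hη : p ≤ 1 - η) (hμ0 : 0 < μ) (hμ : ∀ v, p * (cS (sU v univ) B : ℝ) ≤ μ)
  (hS0 : 0 < S) (hSS : S ^ 2 = μ * Real.log n)

include hp0 hη0 hη hμ0 hμ hS0 hSS in
/-- the probability of a single large value -/
theorem PS_bound (hηS : 68 * S ≤ μ * η) (hl1 : 1 ≤ Real.log n)
    (hS2 : 2 ≤ S) (m : ℕ) (hm : m = ⌊μ * η / (68 * S)⌋₊) (w : Fin n) (e : Pr n) (k i : ℕ)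
    (hk : μ - 6 * S ≤ k) (hki : k ≤ i) (hi : (i : ℝ) ≤ μ + 4 * S) :
    PS (qB B p) ((sU w univ).erase e) i ≤
      2 / m * TS (qB B p) (sU w univ) k + Real.exp (-(4 * Real.log n)) := by
  have hq := qB_01 B p hp0.le (by linarith)
  have hp1 : p < 1 := by linarith
  have hη1 : η < 1 := by linarith
  have hr1 : 1 ≤ μ * η / (68 * S) := by
    rw [le_div_iff₀ (by positivity)]
    linarith
  have hm1 : 1 ≤ m := by
    rw [hm]
    exact Nat.le_floor (by simpa using hr1)
  have hmr1 : (1 : ℝ) ≤ m := by exact_mod_cast hm1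
  have hmle : (m : ℝ) ≤ μ * η / (68 * S) := by
    rw [hm]
    exact Nat.floor_le (by linarith)
  have hmS : (m : ℝ) ≤ S := by
    refine hmle.trans ?_
    rw [div_le_iff₀ (by positivity)]
    have h1 : μ * η ≤ μ * 1 := by gcongr
    have h2 : μ * 1 ≤ μ * Real.log n := by gcongr
    have h3 : S * (68 * S) = 68 * S ^ 2 := by ring
    rw [h3, hSS]
    have h4 : 0 ≤ μ * Real.log n := by positivity
    linarith
  have h34 : 34 * S ≤ μ / 2 := by
    have : μ * η ≤ μ * 1 := by gcongr
    linarith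
  have hkr : (k : ℝ) ≤ i := by exact_mod_cast hki
  have hT0 := TS_nonneg (qB B p) hq (sU w univ) k
  have hcs : (cS (sU w univ) B : ℝ) ≤ cS ((sU w univ).erase e) B + 1 := by
    exact_mod_cast cS_erase_ge (sU w univ) e B
  by_cases hv : μ - 10 * S ≤ p * (cS (sU w univ) B : ℝ)
  · have hN : μ - 10 * S - 1 ≤ (cS ((sU w univ).erase e) B : ℝ) * p := by
      have h5 : p * (cS (sU w univ) B : ℝ) ≤ p * (cS ((sU w univ).erase e) B + 1) := by gcongr
      have h6 : p * ((cS ((sU w univ).erase e) B : ℝ) + 1) =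
          (cS ((sU w univ).erase e) B : ℝ) * p + p := by ring
      linarith
    have h1 := PS_le_TS B p hp0 hp1 ((sU w univ).erase e) (16 * S) (34 * S / (μ * η))
      (by positivity) (by positivity) m hm1 (by
        calc (m : ℝ) * (34 * S / (μ * η)) ≤ μ * η / (68 * S) * (34 * S / (μ * η)) := by gcongr
          _ = 1 / 2 := by
              field_simp
              norm_num) (by
        have h2 : μ / 2 * η ≤ (cS ((sU w univ).erase e) B : ℝ) * p * (1 - p) := by
          have h3 : μ / 2 ≤ (cS ((sU w univ).erase e) B : ℝ) * p := by linarith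
          have h4 : η ≤ 1 - p := by linarith
          calc μ / 2 * η ≤ ((cS ((sU w univ).erase e) B : ℝ) * p) * η := by gcongr
            _ ≤ (cS ((sU w univ).erase e) B : ℝ) * p * (1 - p) := by gcongr
        calc 16 * S + 1 ≤ 17 * S := by linarith
          _ = 34 * S / (μ * η) * (μ / 2 * η) := by
              field_simp
              norm_num
          _ ≤ 34 * S / (μ * η) * ((cS ((sU w univ).erase e) B : ℝ) * p * (1 - p)) := by gcongr)
      i (by
        push_cast
        linarith)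
    have h2 : TS (qB B p) ((sU w univ).erase e) (i + 1) ≤ TS (qB B p) (sU w univ) k :=
      (TS_anti (qB B p) hq _ k (i + 1) (by omega)).trans (TS_erase (qB B p) hq _ e k)
    have h3 : 2 / (m : ℝ) * TS (qB B p) ((sU w univ).erase e) (i + 1) ≤
        2 / m * TS (qB B p) (sU w univ) k := by gcongr
    have h4 := Real.exp_pos (-(4 * Real.log n))
    linarith
  · push Not at hv
    have h1 := TS_far B p η μ S hp0 hη0 hη hμ0 hμ hS0 hSS w i (by linarith) (by linarith)
    have h2 : PS (qB B p) ((sU w univ).erase e) i ≤ TS (qB B p) (sU w univ) i := by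
      have h3 := TS_succ ((sU w univ).erase e) (qB B p) i
      have h4 := TS_nonneg (qB B p) hq ((sU w univ).erase e) (i + 1)
      have h5 := TS_erase (qB B p) hq (sU w univ) e i
      linarith
    have h3 : 0 ≤ 2 / (m : ℝ) * TS (qB B p) (sU w univ) k := by positivity
    linarith

set_option maxHeartbeats 4000000 in
include hp0 hη0 hη hμ0 hμ hS0 hSS in
/-- a threshold which is exceeded by a degree, but by few degrees -/
theorem thresh (ε : ℝ) (hε : 0 < ε) (hε4 : 4 * ε ≤ 1) (v₀ : Fin n)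
    (hv₀ : p * (cS (sU v₀ univ) B : ℝ) = μ) (b b2 g : ℝ) (hb : 1 ≤ b) (hbn : b ≤ n)
    (hb2 : b2 = Real.exp (1360 * 5 * ε / η * Real.log n) * b + 1)
    (hηS : 68 * S ≤ μ * η) (hεS1 : 1 ≤ ε * S) (hεS2 : 8 * S ≤ ε * μ) (hl1 : 1 ≤ Real.log n)
    (hg : g + 1 ≤ 2 * ε * S)
    (u : ℕ) (hu : u ≤ n) (huμ : p * u ≤ ε ^ 2 * μ / 16) (hub : 2 * Real.log n ≤ u / n * b) :
    ∃ k₁ : ℕ, μ - 6 * S ≤ k₁ ∧ FF (qB B p) k₁ ≤ b2 ∧
      pb (qB B p) (fun G => ∀ v, (dg G v : ℝ) < k₁ + g) ≤ 3 / n := by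
  classical
  have hq := qB_01 B p hp0.le (by linarith)
  have hn : 1 ≤ n := by
    have := v₀.2
    omega
  have hn0 : (0 : ℝ) < n := by exact_mod_cast hn
  have hn1 : (1 : ℝ) ≤ n := by exact_mod_cast hn
  have hη1 : η < 1 := by linarith
  have hS2 : 2 ≤ S := by nlinarith
  have h34 : 34 * S ≤ μ / 2 := by
    have : μ * η ≤ μ * 1 := by gcongr
    linarith
  have hb2b : b + 1 ≤ b2 := by
    rw [hb2]
    have h1 : 1 ≤ Real.exp (1360 * 5 * ε / η * Real.log n) := Real.one_le_exp (by positivity)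
    nlinarith
  have hexp1 : (n : ℝ) * Real.exp (-(4 * Real.log n)) < 1 := by
    calc (n : ℝ) * Real.exp (-(4 * Real.log n)) =
        Real.exp (Real.log n) * Real.exp (-(4 * Real.log n)) := by rw [Real.exp_log hn0]
      _ = Real.exp (Real.log n + -(4 * Real.log n)) := by rw [Real.exp_add]
      _ < 1 := by
          rw [Real.exp_lt_one_iff]
          linarith
  have hfar : ∀ k : ℕ, μ + 4 * S ≤ k → FF (qB B p) k < b := by
    intro k hk
    have h2 : FF (qB B p) k ≤ n * Real.exp (-(4 * Real.log n)) := by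
      unfold FF
      refine (sum_le_sum (g := fun _ => Real.exp (-(4 * Real.log n))) fun v _ =>
        TS_far B p η μ S hp0 hη0 hη hμ0 hμ hS0 hSS v _ (by
          have := hμ v
          linarith) (by linarith)).trans ?_
      rw [sum_const, card_univ, Fintype.card_fin, nsmul_eq_mul]
    linarith
  -- the threshold
  have hex : ∃ k₀ : ℕ, b ≤ FF (qB B p) k₀ ∧ FF (qB B p) (k₀ + 1) < b := by
    have h0 : b ≤ FF (qB B p) 0 := by
      have : FF (qB B p) 0 = n := by
        unfold FF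
        have h1 : ∀ v : Fin n, TS (qB B p) (sU v univ) 0 = 1 := by
          intro v
          unfold TS
          simp only [Nat.zero_le]
          rw [pb_eq]
          simpa using ex_one (qB B p)
        simp [h1]
      rw [this]
      exact hbn
    have h1 : FF (qB B p) (⌈μ + 4 * S⌉₊) < b := hfar _ (Nat.le_ceil _)
    by_contra hcon
    push Not at hcon
    have h4 : ∀ k, b ≤ FF (qB B p) k := by
      intro k
      induction k with
      | zero => exact h0
      | succ k ih => exact hcon k ih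
    linarith [h4 (⌈μ + 4 * S⌉₊)]
  obtain ⟨k₀, hk0, hk1⟩ := hex
  have hk₀u : (k₀ : ℝ) ≤ μ + 4 * S := by
    by_contra hcon
    push Not at hcon
    linarith [hfar k₀ hcon.le]
  rcases le_or_gt ((k₀ : ℝ) + 1) (μ - 4 * S) with hB | hA
  · -- the maximum degree is larger than `k₀`
    have hpos : 0 ≤ μ - 4 * S := by linarith
    have hc1 : μ - 4 * S ≤ (⌈μ - 4 * S⌉₊ : ℕ) := Nat.le_ceil _
    have hc2 : ((⌈μ - 4 * S⌉₊ : ℕ) : ℝ) < μ - 4 * S + 1 := Nat.ceil_lt_add_one hpos
    refine ⟨⌈μ - 4 * S⌉₊, by linarith, ?_, ?_⟩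
    · have h1 : k₀ + 1 ≤ ⌈μ - 4 * S⌉₊ := by
        have : ((k₀ + 1 : ℕ) : ℝ) ≤ (⌈μ - 4 * S⌉₊ : ℕ) := by
          push_cast
          linarith
        exact_mod_cast this
      have h2 : FF (qB B p) ⌈μ - 4 * S⌉₊ ≤ FF (qB B p) (k₀ + 1) := by
        unfold FF
        exact sum_le_sum fun v _ => TS_anti (qB B p) hq _ _ _ h1
      linarith
    · have h1 : pb (qB B p) (fun G => ∀ v, (dg G v : ℝ) < (⌈μ - 4 * S⌉₊ : ℕ) + g) ≤
          pb (qB B p) (fun G => (cS (sU v₀ univ) G : ℝ) ≤ qs (qB B p) (sU v₀ univ) - 3 * S) := by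
        apply pb_mono _ hq
        intro G hG
        rw [qs_qB, hv₀, cS_univ]
        have h2 := hG v₀
        have h3 : 2 * ε * S ≤ S := by nlinarith
        linarith
      have h2 := cS_lower (qB B p) hq (sU v₀ univ) μ (3 * S) hμ0 (by rw [qs_qB, hv₀])
        (by linarith) (by linarith)
      have h4 : Real.exp (-((3 * S) ^ 2) / (4 * μ)) ≤ 1 / n := by
        have e1 : -((3 * S) ^ 2) / (4 * μ) = -(9 / 4 * Real.log n) := by
          have e2 : -((3 * S) ^ 2) = -(9 * (S ^ 2)) := by ring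
          rw [e2, hSS]
          field_simp
        have e3 : (1 : ℝ) / n = Real.exp (-Real.log n) := by
          rw [Real.exp_neg, Real.exp_log hn0, one_div]
        rw [e1, e3]
        apply Real.exp_le_exp.2
        linarith
      have h6 : (1 : ℝ) / n ≤ 3 / n := by
        gcongr
        norm_num
      linarith
  · -- the independent events
    set k₁ : ℕ := ⌈(k₀ : ℝ) - 4 * ε * S⌉₊ with hk₁
    have hpos : 0 ≤ (k₀ : ℝ) - 4 * ε * S := by nlinarith
    have hk₁le : k₁ ≤ k₀ := by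
      rw [hk₁, Nat.ceil_le]
      have : 0 ≤ 4 * ε * S := by positivity
      linarith
    obtain ⟨s, hs⟩ : ∃ s, k₁ + s = k₀ + 1 := ⟨k₀ + 1 - k₁, by omega⟩
    have hk₁lo : (k₀ : ℝ) - 4 * ε * S ≤ k₁ := Nat.le_ceil _
    have hk₁hi : (k₁ : ℝ) < (k₀ : ℝ) - 4 * ε * S + 1 := Nat.ceil_lt_add_one hpos
    have hsr : (k₁ : ℝ) + s = k₀ + 1 := by exact_mod_cast hs
    have hεS4 : 4 * ε * S ≤ S := by nlinarith
    obtain ⟨hm1, hmge, hcmp⟩ := FF_cmp B p η μ S hp0 hη0 hη hμ0 hμ hS0 hSS k₁ s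
      (⌊μ * η / (68 * S)⌋₊) hn hηS hl1 (by linarith) (by push_cast; linarith) hS2 rfl
    set m := ⌊μ * η / (68 * S)⌋₊ with hm
    have hmr1 : (1 : ℝ) ≤ m := by exact_mod_cast hm1
    rw [hs] at hcmp
    have hsle : (s : ℝ) ≤ 5 * ε * S := by nlinarith
    have hfac : 2 / (m : ℝ) * s ≤ 1360 * 5 * ε / η * Real.log n := by
      have e1 : 2 / (m : ℝ) ≤ 2 / (μ * η / (136 * S)) := by
        apply div_le_div_of_nonneg_left (by norm_num) (by positivity) hmge
      calc 2 / (m : ℝ) * s ≤ 2 / (μ * η / (136 * S)) * (5 * ε * S) := by gcongr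
        _ = 1360 * ε / η * (S ^ 2 / μ) := by
            field_simp
            ring
        _ = 1360 * ε / η * Real.log n := by
            rw [hSS]
            field_simp
        _ ≤ _ := by
            have : 0 ≤ ε / η * Real.log n := by positivity
            have e2 : 1360 * ε / η * Real.log n = 1360 * (ε / η * Real.log n) := by ring
            have e3 : 1360 * 5 * ε / η * Real.log n = 6800 * (ε / η * Real.log n) := by ring
            rw [e2, e3]
            linarith
    have hFF : FF (qB B p) k₁ ≤ b2 := by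
      rw [hb2]
      refine hcmp.trans ?_
      have e1 : Real.exp (2 / m * s) ≤ Real.exp (1360 * 5 * ε / η * Real.log n) :=
        Real.exp_le_exp.2 hfac
      have e2 : 0 ≤ FF (qB B p) (k₀ + 1) := sum_nonneg fun v _ => TS_nonneg _ hq _ _
      have e3 : Real.exp (2 / m * s) * FF (qB B p) (k₀ + 1) ≤
          Real.exp (1360 * 5 * ε / η * Real.log n) * b := by gcongr
      linarith
    refine ⟨k₁, by linarith, hFF, ?_⟩
    have h1 : pb (qB B p) (fun G => ∀ v, (dg G v : ℝ) < k₁ + g) ≤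
        pb (qB B p) (fun G => ∀ v, (dg G v : ℝ) < k₀ - 2 * (ε * S)) := by
      apply pb_mono _ hq
      intro G hG v
      have := hG v
      linarith
    have hτ : ε * S ≤ 2 * (ε ^ 2 * μ / 16) := by
      calc ε * S = ε * (8 * S) / 8 := by ring
        _ ≤ ε * (ε * μ) / 8 := by gcongr
        _ = 2 * (ε ^ 2 * μ / 16) := by ring
    have h2 := indep_max (qB B p) hq k₀ (ε ^ 2 * μ / 16) (ε * S) (by positivity) (by positivity)
      hτ u hu hn (by
        intro U hU v
        rw [qs_qB]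
        refine le_trans ?_ huμ
        apply mul_le_mul_of_nonneg_left _ hp0.le
        rw [← hU]
        exact_mod_cast (cS_le (sU v U) B).trans (by
          have h1 : (sU v U).card ≤ (U.image (fun w => s(v, w))).card := by
            refine card_le_card_of_injOn (fun e => e.1) ?_ ?_
            · intro e he
              rw [mem_coe, mem_sU] at he
              obtain ⟨w, hw, he⟩ := he
              rw [mem_coe, mem_image]
              exact ⟨w, hw, he.symm⟩
            · intro a _ b _ h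
              exact Subtype.ext h
          exact h1.trans card_image_le))
    have e1 : -((ε * S) ^ 2) / (4 * (ε ^ 2 * μ / 16)) = -(4 * Real.log n) := by
      have e2 : -((ε * S) ^ 2) = -(ε ^ 2 * (S ^ 2)) := by ring
      rw [e2, hSS]
      field_simp
      norm_num
    rw [e1] at h2
    have hur : (u : ℝ) ≤ n := by exact_mod_cast hu
    have e3 : (u : ℝ) * Real.exp (-(4 * Real.log n)) ≤ 1 / n := by
      have e4 : Real.exp (-(4 * Real.log n)) ≤ 1 / (n : ℝ) ^ 2 := by
        have e5 : 1 / (n : ℝ) ^ 2 = Real.exp (-(2 * Real.log n)) := by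
          rw [Real.exp_neg, mul_comm, Real.exp_mul, Real.exp_log hn0, one_div]
          norm_num
        rw [e5]
        apply Real.exp_le_exp.2
        linarith
      calc (u : ℝ) * Real.exp (-(4 * Real.log n)) ≤ n * (1 / (n : ℝ) ^ 2) := by gcongr
        _ = 1 / n := by field_simp
    have e6 : Real.exp (-(u / n * FF (qB B p) k₀ - u * Real.exp (-(4 * Real.log n)))) ≤ 2 / n := by
      have e7 : (u : ℝ) / n * b ≤ u / n * FF (qB B p) k₀ := by gcongr
      have e8 : 1 / (n : ℝ) ≤ 1 := by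
        rw [div_le_one hn0]
        exact hn1
      have e9 : (1 : ℝ) / n = Real.exp (-Real.log n) := by
        rw [Real.exp_neg, Real.exp_log hn0, one_div]
      calc Real.exp (-(u / n * FF (qB B p) k₀ - u * Real.exp (-(4 * Real.log n)))) ≤
          Real.exp (-Real.log n) := by
            apply Real.exp_le_exp.2
            linarith
        _ = 1 / n := e9.symm
        _ ≤ 2 / n := by
            gcongr
            norm_num
    have h6 : (2 : ℝ) / n + 1 / n = 3 / n := by ring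
    linarith

include hp0 hη0 hη hμ0 hμ hS0 hSS in
/-- the gap between the two largest degrees -/
theorem gap_max (hηS : 68 * S ≤ μ * η) (hl1 : 1 ≤ Real.log n)
    (hS2 : 2 ≤ S) (m : ℕ) (hm : m = ⌊μ * η / (68 * S)⌋₊) (k₁ g : ℕ) (hg : 1 ≤ g) (b2 : ℝ)
    (hk : μ - 6 * S ≤ k₁) (hF : FF (qB B p) k₁ ≤ b2)
    (hmax : pb (qB B p) (fun G => ∀ v, (dg G v : ℝ) < k₁ + g) ≤ 3 / n) (hn : 1 ≤ n) :
    pb (qB B p) (fun G => ∃ v w, v ≠ w ∧ (∀ x, dg G x ≤ dg G v) ∧ dg G v < dg G w + g) ≤
      4 / n + b2 * (g * (2 / m * b2 + 1 / n)) := by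
  classical
  have hq := qB_01 B p hp0.le (by linarith)
  have hn0 : (0 : ℝ) < n := by exact_mod_cast hn
  have hn1 : (1 : ℝ) ≤ n := by exact_mod_cast hn
  have hη1 : η < 1 := by linarith
  have h34 : 34 * S ≤ μ / 2 := by
    have : μ * η ≤ μ * 1 := by gcongr
    linarith
  obtain ⟨M, hM⟩ : ∃ M : ℕ, M = ⌊μ + 4 * S⌋₊ := ⟨_, rfl⟩
  have hMle : (M : ℝ) ≤ μ + 4 * S := by
    rw [hM]
    exact Nat.floor_le (by positivity)
  have hM1 : μ + 4 * S < M + 1 := by
    rw [hM]
    exact Nat.lt_floor_add_one _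
  have hexp2 : Real.exp (-(4 * Real.log n)) ≤ 1 / (n : ℝ) ^ 2 := by
    have e5 : 1 / (n : ℝ) ^ 2 = Real.exp (-(2 * Real.log n)) := by
      rw [Real.exp_neg, mul_comm, Real.exp_mul, Real.exp_log hn0, one_div]
      norm_num
    rw [e5]
    apply Real.exp_le_exp.2
    linarith
  have hbig : pb (qB B p) (fun G => ∃ v ∈ (univ : Finset (Fin n)), M + 1 ≤ dg G v) ≤ 1 / n := by
    refine (pb_exists_le _ hq univ (fun v G => M + 1 ≤ dg G v)).trans ?_
    have h1 : ∀ v ∈ (univ : Finset (Fin n)), pb (qB B p) (fun G => M + 1 ≤ dg G v) ≤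
        1 / (n : ℝ) ^ 2 := by
      intro v _
      have h2 := TS_far B p η μ S hp0 hη0 hη hμ0 hμ hS0 hSS v (M + 1) (by
        have := hμ v
        push_cast
        linarith) (by linarith)
      unfold TS at h2
      simp only [cS_univ] at h2
      exact h2.trans hexp2
    refine (sum_le_sum h1).trans ?_
    rw [sum_const, card_univ, Fintype.card_fin, nsmul_eq_mul]
    apply le_of_eq
    field_simp
  -- the pairs
  have hpair : pb (qB B p) (fun G => ∃ v ∈ (univ : Finset (Fin n)),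
      ∃ w ∈ (univ : Finset (Fin n)), v ≠ w ∧
      (k₁ + g ≤ dg G v ∧ dg G v ≤ M ∧ dg G w ≤ dg G v ∧ dg G v < dg G w + g)) ≤
      b2 * (g * (2 / m * b2 + 1 / n)) := by
    refine (pb_exists_le _ hq univ (fun v G => ∃ w ∈ (univ : Finset (Fin n)), v ≠ w ∧
      (k₁ + g ≤ dg G v ∧ dg G v ≤ M ∧ dg G w ≤ dg G v ∧ dg G v < dg G w + g))).trans ?_
    have h1 : ∀ v ∈ (univ : Finset (Fin n)), pb (qB B p)
        (fun G => ∃ w ∈ (univ : Finset (Fin n)), v ≠ w ∧
        (k₁ + g ≤ dg G v ∧ dg G v ≤ M ∧ dg G w ≤ dg G v ∧ dg G v < dg G w + g)) ≤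
        TS (qB B p) (sU v univ) k₁ * (g * (2 / m * b2 + 1 / n)) := by
      intro v _
      refine (pb_exists_le _ hq univ (fun w G => v ≠ w ∧
        (k₁ + g ≤ dg G v ∧ dg G v ≤ M ∧ dg G w ≤ dg G v ∧ dg G v < dg G w + g))).trans ?_
      have hTv := TS_nonneg (qB B p) hq (sU v univ) k₁
      have h2 : ∀ w ∈ (univ : Finset (Fin n)), pb (qB B p) (fun G => v ≠ w ∧
          (k₁ + g ≤ dg G v ∧ dg G v ≤ M ∧ dg G w ≤ dg G v ∧ dg G v < dg G w + g)) ≤
          TS (qB B p) (sU v univ) k₁ *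
            (g * (2 / m * TS (qB B p) (sU w univ) k₁ + 1 / (n : ℝ) ^ 2)) := by
        intro w _
        have hTw := TS_nonneg (qB B p) hq (sU w univ) k₁
        by_cases hvw : v = w
        · have e1 : pb (qB B p) (fun G => v ≠ w ∧
              (k₁ + g ≤ dg G v ∧ dg G v ≤ M ∧ dg G w ≤ dg G v ∧ dg G v < dg G w + g)) ≤
              pb (qB B p) (fun _ => False) := by
            apply pb_mono _ hq
            intro G hG
            exact hG.1 hvw
          rw [pb_false] at e1
          exact e1.trans (by positivity)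
        · have e1 := two_deg (qB B p) hq v w hvw k₁ g M
            (2 / m * TS (qB B p) (sU w univ) k₁ + Real.exp (-(4 * Real.log n))) hg
            (by positivity) (fun i hi1 hi2 => PS_bound B p η μ S hp0 hη0 hη hμ0 hμ hS0 hSS hηS
              hl1 hS2 m hm w (ed v w hvw) k₁ i hk hi1 (by
                have : (i : ℝ) ≤ M := by exact_mod_cast hi2
                linarith))
          refine (pb_mono _ hq (fun G hG => hG.2)).trans (e1.trans ?_)
          gcongr
      refine (sum_le_sum h2).trans ?_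
      rw [← mul_sum, ← mul_sum, sum_add_distrib, ← mul_sum, sum_const, card_univ,
        Fintype.card_fin, nsmul_eq_mul]
      have h3 : (n : ℝ) * (1 / (n : ℝ) ^ 2) = 1 / n := by field_simp
      rw [h3]
      have h4 : ∑ w : Fin n, TS (qB B p) (sU w univ) k₁ ≤ b2 := hF
      gcongr
    refine (sum_le_sum h1).trans ?_
    rw [← sum_mul]
    have h4 : ∑ v : Fin n, TS (qB B p) (sU v univ) k₁ ≤ b2 := hF
    have h5 : 0 ≤ ∑ v : Fin n, TS (qB B p) (sU v univ) k₁ :=
      sum_nonneg fun v _ => TS_nonneg _ hq _ _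
    have h6 : 0 ≤ b2 := h5.trans h4
    gcongr
  have h1 : pb (qB B p) (fun G => ∃ v w, v ≠ w ∧ (∀ x, dg G x ≤ dg G v) ∧
      dg G v < dg G w + g) ≤ pb (qB B p) (fun G => (∀ v, (dg G v : ℝ) < k₁ + g) ∨
      ((∃ v ∈ (univ : Finset (Fin n)), M + 1 ≤ dg G v) ∨
      (∃ v ∈ (univ : Finset (Fin n)), ∃ w ∈ (univ : Finset (Fin n)), v ≠ w ∧
      (k₁ + g ≤ dg G v ∧ dg G v ≤ M ∧ dg G w ≤ dg G v ∧ dg G v < dg G w + g)))) := by
    apply pb_mono _ hq
    rintro G ⟨v, w, hvw, hv, hlt⟩
    by_contra hcon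
    rw [not_or, not_or] at hcon
    obtain ⟨c1, c2, c3⟩ := hcon
    push Not at c1 c2
    obtain ⟨x, hx⟩ := c1
    have hx' : k₁ + g ≤ dg G x := by exact_mod_cast hx
    apply c3
    refine ⟨v, mem_univ _, w, mem_univ _, hvw, hx'.trans (hv x), ?_, hv w, hlt⟩
    have := c2 v (mem_univ _)
    omega
  refine h1.trans ((pb_or_le _ hq _ _).trans ?_)
  have h2 := pb_or_le (qB B p) hq (fun G => ∃ v ∈ (univ : Finset (Fin n)), M + 1 ≤ dg G v)
    (fun G => ∃ v ∈ (univ : Finset (Fin n)), ∃ w ∈ (univ : Finset (Fin n)), v ≠ w ∧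
      (k₁ + g ≤ dg G v ∧ dg G v ≤ M ∧ dg G w ≤ dg G v ∧ dg G v < dg G w + g))
  have h3 : (4 : ℝ) / n = 3 / n + 1 / n := by ring
  linarith

end

end Pool.Agent.W2helper87.TC
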