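import Pool.Agent.W2helper87.FR.Dns

/-!
# List edge colourings of pseudo-random graphs with few vertices of degree close to the maximum
-/

set_option autoImplicit false

namespace Pool.Agent.W2helper87.TC

open Finset Pool.Agent.H162R2.Sparse Pool.Agent.H162R2.AG Pool.Agent.W2helper87.SR
open Pool.Agent.W2helper87.FR

/-- the number of pairs of adjacent vertices, one in `X` and one in `Y` -/
noncomputable def eXY {n : ℕ} (G : SimpleGraph (Fin n)) (X Y : Finset (Fin n)) : ℝ :=
  ∑ v ∈ X, (((nb G v).filter (fun w => w ∈ Y)).card : ℝ)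

theorem e2_eXY {n : ℕ} (G : SimpleGraph (Fin n)) (X : Finset (Fin n)) : e2 G X ≤ eXY G X X := by
  classical
  unfold e2 eXY
  have h1 : ((pr G).filter (fun e => e.1 ∈ X ∧ e.2 ∈ X)).card ≤
      ∑ v ∈ X, ((nb G v).filter (fun w => w ∈ X)).card := by
    have h2 : (pr G).filter (fun e => e.1 ∈ X ∧ e.2 ∈ X) ⊆
        X.biUnion (fun v => ((nb G v).filter (fun w => w ∈ X)).image (fun w => (v, w))) := by
      rintro ⟨a, b⟩ he
      rw [mem_filter, mem_pr] at he
      rw [mem_biUnion]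
      refine ⟨a, he.2.1, ?_⟩
      rw [mem_image]
      refine ⟨b, ?_, rfl⟩
      rw [mem_filter, mem_nb]
      exact ⟨he.1, he.2.2⟩
    refine (card_le_card h2).trans (card_biUnion_le.trans ?_)
    exact sum_le_sum fun v _ => card_image_le
  exact_mod_cast h1

set_option maxHeartbeats 4000000 in
open Classical in
/-- pseudo-random graphs -/
theorem jumb (ε K : ℝ) (hε : 0 < ε) (hε1 : ε ≤ 1) (hK : 1 ≤ K) :
    ∃ c : ℝ, 0 < c ∧ c ≤ 1 / 136 ∧ ∃ N : ℕ, ∀ n : ℕ, N ≤ n →
      ∀ (G : SimpleGraph (Fin n)) (D : ℕ), D ≤ n → 2 * Real.log n ^ 3 ≤ D →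
      (∀ X Y : Finset (Fin n), eXY G X Y ≤ K * D / n * X.card * Y.card +
        c * Real.sqrt (D * Real.log n) * Real.sqrt (X.card * Y.card)) →
      ((univ.filter (fun v => (D : ℝ) - ε * Real.sqrt (D * Real.log n) < dg G v)).card : ℝ) ≤
        c * n * Real.sqrt (Real.log n / D) →
      ∀ D₃ : ℕ, D₃ ≤ D → (D : ℝ) ≤ D₃ + c * Real.sqrt (D * Real.log n) →
      ∀ G' : SimpleGraph (Fin n), (∀ a b, G'.Adj a b → G.Adj a b) → (∀ v, dg G' v ≤ D₃) →
      ∀ L : Fin n → Fin n → Finset ℕ, (∀ a b, L a b = L b a) →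
      (∀ a b, G'.Adj a b → D₃ ≤ (L a b).card) → LC G' L := by
  obtain ⟨κ, γ, ζ, X₀, hκ0, hκ1, hγ0, hγ1, hζ, hX, hfull⟩ :=
    full (ε / 2) (by positivity) (by linarith)
  obtain ⟨c, hc⟩ : ∃ c : ℝ, c = min (ζ / (24 * K)) (min (ε / 8) (1 / 136)) := ⟨_, rfl⟩
  have hc0 : 0 < c := by
    rw [hc]
    exact lt_min (by positivity) (lt_min (by positivity) (by norm_num))
  have hc1 : c ≤ ζ / (24 * K) := by rw [hc]; exact min_le_left _ _
  have hc2 : c ≤ ε / 8 := by rw [hc]; exact (min_le_right _ _).trans (min_le_left _ _)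
  have hc3 : c ≤ 1 / 136 := by rw [hc]; exact (min_le_right _ _).trans (min_le_right _ _)
  have hKc : K * c ≤ ζ / 24 := by
    calc K * c ≤ K * (ζ / (24 * K)) := by gcongr
      _ = ζ / 24 := by field_simp
  have hcζ : c ≤ ζ / 24 := by nlinarith
  obtain ⟨M, hM⟩ : ∃ M : ℝ, M = 48 * K * c ^ 2 / γ ^ 2 + 12 * K := ⟨_, rfl⟩
  have hM0 : 0 < M := by
    rw [hM]
    have : 0 ≤ 48 * K * c ^ 2 / γ ^ 2 := by positivity
    linarith
  obtain ⟨N, hN⟩ := Filter.eventually_atTop.1
    ((ev_log (X₀ ^ 2 + 4 * M / ζ + X₀ + 1)).and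
      ((ev_const (4 * K / γ) κ hκ0).and
      ((ev_log3 1 κ (by norm_num) hκ0).and
      (Filter.eventually_ge_atTop 3))))
  refine ⟨c, hc0, hc3, N, fun n hn G D hDn hDl hj hfew D₃ hD₃ hD₃c G' hsub hdeg' L hsym hL => ?_⟩
  obtain ⟨v1, v2, v3, hn3⟩ := hN n hn
  have hnr : (3 : ℝ) ≤ n := by exact_mod_cast hn3
  have hn0 : (0 : ℝ) < n := by linarith
  have hn1 : (1 : ℝ) ≤ n := by linarith
  obtain ⟨l, hl⟩ : ∃ l : ℝ, l = Real.log n := ⟨_, rfl⟩
  rw [← hl] at v1 v3 hDl hj hfew hD₃c
  have hMζ : 0 ≤ 4 * M / ζ := by positivity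
  have hX2 : 0 ≤ X₀ ^ 2 := by positivity
  have hl1 : 1 ≤ l := by linarith
  have hl0 : 0 < l := by linarith
  have hl3 : l ≤ l ^ 3 := by
    have : l * 1 ≤ l * l ^ 2 := by
      gcongr
      exact one_le_pow₀ hl1
    calc l = l * 1 := (mul_one l).symm
      _ ≤ l * l ^ 2 := this
      _ = l ^ 3 := by ring
  have hDr : (2 : ℝ) ≤ D := by linarith
  have hD0 : (0 : ℝ) < D := by linarith
  have hDnr : (D : ℝ) ≤ n := by exact_mod_cast hDn
  obtain ⟨s, hs⟩ : ∃ s : ℝ, s = Real.sqrt (D * l) := ⟨_, rfl⟩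
  rw [← hs] at hj hfew hD₃c
  have hss : s ^ 2 = D * l := by
    rw [hs]
    exact Real.sq_sqrt (by positivity)
  have hs0 : 0 < s := by
    rw [hs]
    apply Real.sqrt_pos.2
    positivity
  have hsl : l ≤ s := by
    rw [hs]
    apply Real.le_sqrt_of_sq_le
    have : l ≤ D := by linarith
    nlinarith
  have hsD : l * s ≤ D := by
    have h1 : s ≤ D / l := by
      rw [hs]
      apply Real.sqrt_le_iff.2
      refine ⟨by positivity, ?_⟩
      rw [div_pow, le_div_iff₀ (by positivity)]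
      calc (D : ℝ) * l * l ^ 2 = D * l ^ 3 := by ring
        _ ≤ (D : ℝ) * D := by
            gcongr
            have : 0 < l ^ 3 := by positivity
            linarith
        _ = (D : ℝ) ^ 2 := by ring
    calc l * s ≤ l * (D / l) := by gcongr
      _ = D := by field_simp
  have hsD1 : s ≤ D := by nlinarith
  -- `D₃` is at least half of `D`
  have hD₃2 : (D : ℝ) / 2 ≤ D₃ := by
    have : c * s ≤ 1 / 136 * D := by gcongr
    linarith
  have hD₃r : (D₃ : ℝ) ≤ D := by exact_mod_cast hD₃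
  have hD₃0 : (0 : ℝ) < D₃ := by linarith
  obtain ⟨s₃, hs₃⟩ : ∃ s₃ : ℝ, s₃ = Real.sqrt (D₃ * l) := ⟨_, rfl⟩
  have hs₃s : s₃ ≤ s := by
    rw [hs₃, hs]
    apply Real.sqrt_le_sqrt
    gcongr
  have hs₃s2 : s / 2 ≤ s₃ := by
    rw [hs₃]
    apply Real.le_sqrt_of_sq_le
    rw [div_pow, hss]
    nlinarith
  -- the exceptional vertices
  obtain ⟨r, hr⟩ : ∃ r : ℝ, r = 16 * c ^ 2 * l * (n : ℝ) ^ (1 - κ) / (γ ^ 2 * D) := ⟨_, rfl⟩
  have hr0 : 0 ≤ r := by rw [hr]; positivity
  obtain ⟨m', hm'⟩ : ∃ m' : ℕ, m' = ⌈r⌉₊ := ⟨_, rfl⟩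
  have hm'1 : (m' : ℝ) ≤ r + 1 := by
    rw [hm']
    exact (Nat.ceil_lt_add_one hr0).le
  have hrm' : r ≤ m' := by
    rw [hm']
    exact Nat.le_ceil _
  obtain ⟨m₀, hm₀⟩ : ∃ m₀ : ℕ, m₀ = (univ.filter (fun v => (D : ℝ) - ε * s < dg G v)).card :=
    ⟨_, rfl⟩
  rw [← hm₀] at hfew
  obtain ⟨m, hm⟩ : ∃ m : ℕ, m = m₀ + m' + 1 := ⟨_, rfl⟩
  have hnb : ∀ v, nb G' v ⊆ nb G v := by
    intro v w hw
    rw [mem_nb] at hw ⊢
    exact hsub v w hw
  have hnκ : 0 < (n : ℝ) ^ (-κ) := by positivity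
  have hKn : K * (n : ℝ) ^ (-κ) ≤ γ / 4 := by
    have h1 : 4 * K / γ * (n : ℝ) ^ (-κ) ≤ (n : ℝ) ^ κ * (n : ℝ) ^ (-κ) := by gcongr
    rw [← Real.rpow_add hn0, add_neg_cancel, Real.rpow_zero] at h1
    calc K * (n : ℝ) ^ (-κ) = γ / 4 * (4 * K / γ * (n : ℝ) ^ (-κ)) := by field_simp
      _ ≤ γ / 4 * 1 := by gcongr
      _ = γ / 4 := mul_one _
  refine hfull n D₃ (hD₃.trans hDn) (by rw [← hl]; linarith) ?_ ?_ (ζ / 2 * s) (by positivity) ?_
    G' hdeg' m m' (by omega) ?_ ?_ ?_ L hsym hL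
  · rw [← hl]
    apply Real.le_sqrt_of_sq_le
    calc (X₀ * l) ^ 2 = X₀ ^ 2 * l * l := by ring
      _ ≤ D₃ * l := by
          gcongr
          have h1 : X₀ ^ 2 ≤ l := by linarith
          calc X₀ ^ 2 * l ≤ l * l := by gcongr
            _ ≤ l ^ 3 := by
                have : l * l * 1 ≤ l * l * l := by gcongr
                calc l * l = l * l * 1 := (mul_one _).symm
                  _ ≤ l * l * l := this
                  _ = l ^ 3 := by ring
            _ ≤ D₃ := by linarith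
  · rw [← hl, ← hs₃]
    have h1 : s₃ ≤ D₃ / l := by
      rw [hs₃]
      apply Real.sqrt_le_iff.2
      refine ⟨by positivity, ?_⟩
      rw [div_pow, le_div_iff₀ (by positivity)]
      calc (D₃ : ℝ) * l * l ^ 2 = D₃ * l ^ 3 := by ring
        _ ≤ (D₃ : ℝ) * D₃ := by
            gcongr
            linarith
        _ = (D₃ : ℝ) ^ 2 := by ring
    calc l * s₃ ≤ l * (D₃ / l) := by gcongr
      _ = D₃ := by field_simp
  · rw [← hl, ← hs₃]
    calc ζ / 2 * s = ζ * (s / 2) := by ring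
      _ ≤ ζ * s₃ := by gcongr
  · rw [hm, ← hl, ← hs₃]
    have h1 : (univ.filter (fun v => (D₃ : ℝ) - ε / 2 * s₃ < dg G' v)).card ≤ m₀ := by
      rw [hm₀]
      apply card_le_card
      intro v hv
      rw [mem_filter] at hv ⊢
      have h5 : (dg G' v : ℝ) ≤ dg G v := by exact_mod_cast card_le_card (hnb v)
      refine ⟨hv.1, lt_of_lt_of_le (lt_of_le_of_lt ?_ hv.2) h5⟩
      have h6 : ε / 2 * s₃ ≤ ε / 2 * s := by gcongr
      have h7 : c * s ≤ ε / 8 * s := by gcongr
      have h8 : 0 ≤ ε * s := by positivity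
      linarith
    omega
  · -- many neighbours in a small set
    intro T hT
    set Y : Finset (Fin n) := univ.filter (fun v => γ * D₃ <
      (((nb G' v).filter (fun w => w ∈ T)).card : ℝ)) with hY
    have h1 := hj Y T
    have h2 : γ * D / 2 * Y.card ≤ eXY G Y T := by
      unfold eXY
      calc γ * D / 2 * Y.card = ∑ _v ∈ Y, γ * D / 2 := by
            rw [sum_const, nsmul_eq_mul]
            ring
        _ ≤ ∑ v ∈ Y, (((nb G v).filter (fun w => w ∈ T)).card : ℝ) := by
            apply sum_le_sum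
            intro v hv
            rw [hY, mem_filter] at hv
            have h3 : ((((nb G' v).filter (fun w => w ∈ T)).card : ℕ) : ℝ) ≤
                (((nb G v).filter (fun w => w ∈ T)).card : ℝ) := by
              exact_mod_cast card_le_card (filter_subset_filter _ (hnb v))
            have h4 : γ * D / 2 ≤ γ * D₃ := by
              calc γ * D / 2 = γ * ((D : ℝ) / 2) := by ring
                _ ≤ γ * D₃ := by gcongr
            linarith [hv.2]
    obtain ⟨y, hy⟩ : ∃ y : ℝ, y = Y.card := ⟨_, rfl⟩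
    obtain ⟨t, ht⟩ : ∃ t : ℝ, t = (n : ℝ) ^ (1 - κ) := ⟨_, rfl⟩
    have ht0 : 0 < t := by rw [ht]; positivity
    have hy0 : 0 ≤ y := by rw [hy]; positivity
    rw [← hy] at h1 h2
    rw [← ht] at hT
    have h3 : K * D / n * y * T.card ≤ γ * D / 4 * y := by
      have h4 : K / n * T.card ≤ γ / 4 := by
        refine le_trans ?_ hKn
        have h5 : t = n * (n : ℝ) ^ (-κ) := by
          rw [ht, sub_eq_add_neg, Real.rpow_add hn0, Real.rpow_one]
        calc K / n * (T.card : ℝ) ≤ K / n * t := by gcongr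
          _ = K * (n : ℝ) ^ (-κ) := by
              rw [h5]
              field_simp
      calc K * D / n * y * T.card = (K / n * T.card) * (D * y) := by ring
        _ ≤ γ / 4 * (D * y) := by gcongr
        _ = γ * D / 4 * y := by ring
    have h4 : c * s * Real.sqrt (y * T.card) ≤ c * s * Real.sqrt (y * t) := by
      gcongr
    have h5 : γ * D / 4 * y ≤ c * s * Real.sqrt (y * t) := by linarith
    have h6 : y ≤ r := by
      rcases eq_or_lt_of_le hy0 with h0 | h0
      · rw [← h0]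
        exact hr0
      · have h7 : (γ * D / 4 * y) ^ 2 ≤ (c * s * Real.sqrt (y * t)) ^ 2 := by gcongr
        have h8 : (c * s * Real.sqrt (y * t)) ^ 2 = c ^ 2 * (D * l) * (y * t) := by
          rw [mul_pow, mul_pow, hss, Real.sq_sqrt (by positivity)]
        rw [h8] at h7
        have h9 : (γ * D / 4 * y) ^ 2 = y * D * (γ ^ 2 * D / 16 * y) := by ring
        have h10 : c ^ 2 * (D * l) * (y * t) = y * D * (c ^ 2 * l * t) := by ring
        rw [h9, h10] at h7
        have h11 := le_of_mul_le_mul_left h7 (by positivity)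
        rw [hr, ← ht, le_div_iff₀ (by positivity)]
        linarith
    have h7 : ((Y.card : ℕ) : ℝ) ≤ m' := by
      rw [← hy]
      exact h6.trans hrm'
    exact_mod_cast h7
  · -- small sets are sparse
    intro X hXc
    have h1 : e2 G' X ≤ e2 G X := by
      unfold e2
      have h5 : (((pr G').filter (fun e => e.1 ∈ X ∧ e.2 ∈ X)).card : ℝ) ≤
          ((pr G).filter (fun e => e.1 ∈ X ∧ e.2 ∈ X)).card := by
        exact_mod_cast card_le_card (filter_subset_filter _ (by
          intro e he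
          rw [mem_pr] at he ⊢
          exact hsub _ _ he))
      exact h5
    have h2 := (h1.trans (e2_eXY G X)).trans (hj X X)
    obtain ⟨x, hx⟩ : ∃ x : ℝ, x = X.card := ⟨_, rfl⟩
    have hx0 : 0 ≤ x := by rw [hx]; positivity
    rw [← hx] at h2 ⊢
    have h3 : Real.sqrt (x * x) = x := Real.sqrt_mul_self hx0
    rw [h3] at h2
    have hxm : x ≤ 3 * m := by
      rw [hx]
      exact_mod_cast hXc
    have h4 : K * D / n * x ≤ ζ / 2 * s - c * s := by
      have h5 : K * D / n * x ≤ K * D / n * (3 * m) := by gcongr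
      have h6 : K * D / n * (3 * m) = 3 * (K * D / n) * m₀ + 3 * (K * D / n) * (m' + 1) := by
        rw [hm]
        push_cast
        ring
      have h7 : 3 * (K * D / n) * m₀ ≤ ζ / 8 * s := by
        have h8 : (D : ℝ) * Real.sqrt (l / D) = s := by
          rw [hs, ← Real.sqrt_sq hD0.le, ← Real.sqrt_mul (by positivity)]
          rw [Real.sqrt_sq hD0.le]
          congr 1
          field_simp
        calc 3 * (K * D / n) * (m₀ : ℝ) ≤
            3 * (K * D / n) * (c * n * Real.sqrt (l / D)) := by gcongr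
          _ = 3 * (K * c) * (D * Real.sqrt (l / D)) := by
              field_simp
          _ = 3 * (K * c) * s := by rw [h8]
          _ ≤ 3 * (ζ / 24) * s := by gcongr
          _ = ζ / 8 * s := by ring
      have h9 : 3 * (K * D / n) * (m' + 1) ≤ ζ / 4 * s := by
        have h10 : 3 * (K * D / n) * ((m' : ℝ) + 1) ≤ 3 * (K * D / n) * (r + 2) := by
          apply mul_le_mul_of_nonneg_left _ (by positivity)
          linarith
        have h11 : 3 * (K * D / n) * (r + 2) =
            48 * K * c ^ 2 / γ ^ 2 * (l * ((n : ℝ) ^ (1 - κ) / n)) + 6 * K * (D / n) := by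
          rw [hr]
          field_simp
          ring
        have h12 : (n : ℝ) ^ (1 - κ) / n = (n : ℝ) ^ (-κ) := by
          rw [div_eq_iff hn0.ne', sub_eq_add_neg, add_comm, Real.rpow_add hn0, Real.rpow_one]
        have h13 : l * (n : ℝ) ^ (-κ) ≤ 1 := by
          calc l * (n : ℝ) ^ (-κ) ≤ (1 * l ^ 3) * (n : ℝ) ^ (-κ) := by
                rw [one_mul]
                gcongr
            _ ≤ (n : ℝ) ^ κ * (n : ℝ) ^ (-κ) := by gcongr
            _ = 1 := by
                rw [← Real.rpow_add hn0, add_neg_cancel, Real.rpow_zero]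
        have h14 : (D : ℝ) / n ≤ 1 := by
          rw [div_le_one hn0]
          exact hDnr
        have h15 : 48 * K * c ^ 2 / γ ^ 2 * (l * ((n : ℝ) ^ (1 - κ) / n)) + 6 * K * (D / n) ≤
            M := by
          rw [h12, hM]
          have e1 : 48 * K * c ^ 2 / γ ^ 2 * (l * (n : ℝ) ^ (-κ)) ≤
              48 * K * c ^ 2 / γ ^ 2 * 1 := by gcongr
          have e2 : 6 * K * ((D : ℝ) / n) ≤ 6 * K * 1 := by gcongr
          linarith
        have h16 : M ≤ ζ / 4 * s := by
          have h17 : 4 * M / ζ ≤ s := by linarith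
          calc M = ζ / 4 * (4 * M / ζ) := by field_simp
            _ ≤ ζ / 4 * s := by gcongr
        linarith
      have h18 : c * s ≤ ζ / 24 * s := by gcongr
      have h19 : 0 ≤ ζ * s := by positivity
      linarith
    have h5 : K * D / n * x * x + c * s * x = (K * D / n * x + c * s) * x := by ring
    rw [h5] at h2
    refine h2.trans ?_
    gcongr
    linarith

end Pool.Agent.W2helper87.TC
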