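import Pool.Agent.W2helper87.TC.Jum
import Pool.Agent.W2helper87.TC.Asm

/-!
# Edge and total list colourings of pseudo-random graphs with few vertices of degree close to the
maximum
-/

set_option autoImplicit false

namespace Pool.Agent.W2helper87.TC

open Finset Pool.Agent.H162R2.Sparse Pool.Agent.H162R2.AG Pool.Agent.W2helper87.SR
open Pool.Agent.W2helper87.FR

set_option maxHeartbeats 1000000 in
open Classical in
/-- almost dense graphs -/
theorem dense2 (ε : ℝ) (hε : 0 < ε) (hε1 : ε ≤ 1) :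
    ∃ c κ' : ℝ, 0 < c ∧ c ≤ 1 / 136 ∧ 0 < κ' ∧ κ' ≤ 1 / 2 ∧ ∃ N : ℕ, ∀ n : ℕ, N ≤ n →
      ∀ (G : SimpleGraph (Fin n)) (D : ℕ), D ≤ n → (n : ℝ) ^ (1 - κ') ≤ D →
      ((univ.filter (fun v => (D : ℝ) - ε * Real.sqrt (D * Real.log n) < dg G v)).card : ℝ) ≤
        c * Real.sqrt (D * Real.log n) →
      ∀ D₃ : ℕ, D₃ ≤ D → (D : ℝ) ≤ D₃ + c * Real.sqrt (D * Real.log n) →
      ∀ G' : SimpleGraph (Fin n), (∀ a b, G'.Adj a b → G.Adj a b) → (∀ v, dg G' v ≤ D₃) →
      ∀ L : Fin n → Fin n → Finset ℕ, (∀ a b, L a b = L b a) →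
      (∀ a b, G'.Adj a b → D₃ ≤ (L a b).card) → LC G' L := by
  obtain ⟨κ, γ, ζ, X₀, hκ0, hκ1, hγ0, hγ1, hζ, hX, hfull⟩ :=
    full (ε / 2) (by positivity) (by linarith)
  obtain ⟨c, hc⟩ : ∃ c : ℝ, c = min (ζ / 12) (min (ε / 8) (1 / 136)) := ⟨_, rfl⟩
  have hc0 : 0 < c := by
    rw [hc]
    exact lt_min (by positivity) (lt_min (by positivity) (by norm_num))
  have hc1 : c ≤ ζ / 12 := by rw [hc]; exact min_le_left _ _
  have hc2 : c ≤ ε / 8 := by rw [hc]; exact (min_le_right _ _).trans (min_le_left _ _)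
  have hc3 : c ≤ 1 / 136 := by rw [hc]; exact (min_le_right _ _).trans (min_le_right _ _)
  obtain ⟨N, hN⟩ := Filter.eventually_atTop.1
    ((ev_log (X₀ ^ 2 + 12 / ζ + X₀ + 1)).and
      ((ev_const (4 / γ) (κ / 2) (by positivity)).and
      ((ev_log3 2 (1 / 2) (by norm_num) (by norm_num)).and
      (Filter.eventually_ge_atTop 3))))
  refine ⟨c, κ / 2, hc0, hc3, by positivity, by linarith, N,
    fun n hn G D hDn hDκ hfew D₃ hD₃ hD₃c G' hsub hdeg' L hsym hL => ?_⟩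
  obtain ⟨v1, v2, v3, hn3⟩ := hN n hn
  have hnr : (3 : ℝ) ≤ n := by exact_mod_cast hn3
  have hn0 : (0 : ℝ) < n := by linarith
  have hn1 : (1 : ℝ) ≤ n := by linarith
  obtain ⟨l, hl⟩ : ∃ l : ℝ, l = Real.log n := ⟨_, rfl⟩
  rw [← hl] at v1 v3 hfew hD₃c
  have hMζ : 0 ≤ 12 / ζ := by positivity
  have hX2 : 0 ≤ X₀ ^ 2 := by positivity
  have hl1 : 1 ≤ l := by linarith
  have hl0 : 0 < l := by linarith
  have hDl : 2 * l ^ 3 ≤ D := by
    refine v3.trans (le_trans ?_ hDκ)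
    apply Real.rpow_le_rpow_of_exponent_le hn1
    linarith
  have hl3 : l ≤ l ^ 3 := by
    have : l * 1 ≤ l * l ^ 2 := by
      gcongr
      exact one_le_pow₀ hl1
    calc l = l * 1 := (mul_one l).symm
      _ ≤ l * l ^ 2 := this
      _ = l ^ 3 := by ring
  have hDr : (2 : ℝ) ≤ D := by linarith
  have hD0 : (0 : ℝ) < D := by linarith
  obtain ⟨s, hs⟩ : ∃ s : ℝ, s = Real.sqrt (D * l) := ⟨_, rfl⟩
  rw [← hs] at hfew hD₃c
  have hss : s ^ 2 = D * l := by
    rw [hs]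
    exact Real.sq_sqrt (by positivity)
  have hs0 : 0 < s := by
    rw [hs]
    apply Real.sqrt_pos.2
    positivity
  have hsl : l ≤ s := by
    rw [hs]
    apply Real.le_sqrt_of_sq_le
    have : l ≤ D := by linarith
    nlinarith
  have hsD : l * s ≤ D := by
    have h1 : s ≤ D / l := by
      rw [hs]
      apply Real.sqrt_le_iff.2
      refine ⟨by positivity, ?_⟩
      rw [div_pow, le_div_iff₀ (by positivity)]
      calc (D : ℝ) * l * l ^ 2 = D * l ^ 3 := by ring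
        _ ≤ (D : ℝ) * D := by
            gcongr
            have : 0 < l ^ 3 := by positivity
            linarith
        _ = (D : ℝ) ^ 2 := by ring
    calc l * s ≤ l * (D / l) := by gcongr
      _ = D := by field_simp
  have hsD1 : s ≤ D := by nlinarith
  have hD₃2 : (D : ℝ) / 2 ≤ D₃ := by
    have : c * s ≤ 1 / 136 * D := by gcongr
    linarith
  have hD₃r : (D₃ : ℝ) ≤ D := by exact_mod_cast hD₃
  have hD₃0 : (0 : ℝ) < D₃ := by linarith
  obtain ⟨s₃, hs₃⟩ : ∃ s₃ : ℝ, s₃ = Real.sqrt (D₃ * l) := ⟨_, rfl⟩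
  have hs₃s : s₃ ≤ s := by
    rw [hs₃, hs]
    apply Real.sqrt_le_sqrt
    gcongr
  have hs₃s2 : s / 2 ≤ s₃ := by
    rw [hs₃]
    apply Real.le_sqrt_of_sq_le
    rw [div_pow, hss]
    nlinarith
  obtain ⟨m₀, hm₀⟩ : ∃ m₀ : ℕ, m₀ = (univ.filter (fun v => (D : ℝ) - ε * s < dg G v)).card :=
    ⟨_, rfl⟩
  rw [← hm₀] at hfew
  have hnb : ∀ v, nb G' v ⊆ nb G v := by
    intro v w hw
    rw [mem_nb] at hw ⊢
    exact hsub v w hw
  refine hfull n D₃ (hD₃.trans hDn) (by rw [← hl]; linarith) ?_ ?_ (ζ / 2 * s) (by positivity) ?_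
    G' hdeg' (m₀ + 1) 0 (by omega) ?_ ?_ ?_ L hsym hL
  · rw [← hl]
    apply Real.le_sqrt_of_sq_le
    calc (X₀ * l) ^ 2 = X₀ ^ 2 * l * l := by ring
      _ ≤ D₃ * l := by
          gcongr
          have h1 : X₀ ^ 2 ≤ l := by linarith
          calc X₀ ^ 2 * l ≤ l * l := by gcongr
            _ ≤ l ^ 3 := by
                have : l * l * 1 ≤ l * l * l := by gcongr
                calc l * l = l * l * 1 := (mul_one _).symm
                  _ ≤ l * l * l := this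
                  _ = l ^ 3 := by ring
            _ ≤ D₃ := by linarith
  · rw [← hl, ← hs₃]
    have h1 : s₃ ≤ D₃ / l := by
      rw [hs₃]
      apply Real.sqrt_le_iff.2
      refine ⟨by positivity, ?_⟩
      rw [div_pow, le_div_iff₀ (by positivity)]
      calc (D₃ : ℝ) * l * l ^ 2 = D₃ * l ^ 3 := by ring
        _ ≤ (D₃ : ℝ) * D₃ := by
            gcongr
            linarith
        _ = (D₃ : ℝ) ^ 2 := by ring
    calc l * s₃ ≤ l * (D₃ / l) := by gcongr
      _ = D₃ := by field_simp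
  · rw [← hl, ← hs₃]
    calc ζ / 2 * s = ζ * (s / 2) := by ring
      _ ≤ ζ * s₃ := by gcongr
  · rw [← hl, ← hs₃]
    have h1 : (univ.filter (fun v => (D₃ : ℝ) - ε / 2 * s₃ < dg G' v)).card ≤ m₀ := by
      rw [hm₀]
      apply card_le_card
      intro v hv
      rw [mem_filter] at hv ⊢
      have h5 : (dg G' v : ℝ) ≤ dg G v := by exact_mod_cast card_le_card (hnb v)
      refine ⟨hv.1, lt_of_lt_of_le (lt_of_le_of_lt ?_ hv.2) h5⟩
      have h6 : ε / 2 * s₃ ≤ ε / 2 * s := by gcongr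
      have h7 : c * s ≤ ε / 8 * s := by gcongr
      have h8 : 0 ≤ ε * s := by positivity
      linarith
    omega
  · intro T hT
    rw [Nat.le_zero, card_eq_zero, filter_eq_empty_iff]
    intro v _
    rw [not_lt]
    have h1 : ((((nb G' v).filter (fun w => w ∈ T)).card : ℕ) : ℝ) ≤ T.card := by
      exact_mod_cast card_le_card (fun w hw => (mem_filter.1 hw).2)
    have h2 : (n : ℝ) ^ (1 - κ) ≤ γ * D₃ := by
      have h3 : (n : ℝ) ^ (1 - κ / 2) = (n : ℝ) ^ (κ / 2) * (n : ℝ) ^ (1 - κ) := by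
        rw [← Real.rpow_add hn0]
        congr 1
        ring
      have h4 : 4 / γ * (n : ℝ) ^ (1 - κ) ≤ D := by
        refine le_trans ?_ hDκ
        rw [h3]
        gcongr
      have h5 : 0 < (n : ℝ) ^ (1 - κ) := by positivity
      calc (n : ℝ) ^ (1 - κ) ≤ γ * ((4 / γ * (n : ℝ) ^ (1 - κ)) / 2) := by
            have : γ * ((4 / γ * (n : ℝ) ^ (1 - κ)) / 2) = 2 * (n : ℝ) ^ (1 - κ) := by
              field_simp
              ring
            rw [this]
            linarith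
        _ ≤ γ * (D / 2) := by gcongr
        _ ≤ γ * D₃ := by gcongr
    linarith
  · intro X hXc
    have h1 : e2 G' X ≤ (X.card : ℝ) ^ 2 := e2_le_sq G' X
    obtain ⟨x, hx⟩ : ∃ x : ℝ, x = X.card := ⟨_, rfl⟩
    have hx0 : 0 ≤ x := by rw [hx]; positivity
    rw [← hx] at h1 ⊢
    have hxm : x ≤ 3 * (m₀ + 1) := by
      rw [hx]
      exact_mod_cast hXc
    have h2 : 3 ≤ ζ / 4 * s := by
      have h17 : 12 / ζ ≤ s := by linarith
      calc (3 : ℝ) = ζ / 4 * (12 / ζ) := by field_simp; norm_num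
        _ ≤ ζ / 4 * s := by gcongr
    have h3 : c * s ≤ ζ / 12 * s := by gcongr
    have h4 : x ≤ ζ / 2 * s := by linarith
    calc e2 G' X ≤ x ^ 2 := h1
      _ = x * x := by ring
      _ ≤ ζ / 2 * s * x := by gcongr

end Pool.Agent.W2helper87.TC
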