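import Pool.Agent.W2helper87.LD.Low
import Pool.Agent.W2helper87.TC.LowL

/-!
# Total list colourings of random graphs of small maximum expected degree
-/

set_option autoImplicit false

namespace Pool.Agent.W2helper87.TC

open Finset Pool.Agent.H162R2.Sparse Pool.Agent.H162R2.AG Pool.Agent.W2helper87.SR
open Pool.Agent.W2helper87.FR Pool.Agent.W2helper87.LD
open Pool.Agent.Results.MP_db9399_co.SparseLargeDegrees

set_option maxHeartbeats 4000000 in
open Classical in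
theorem low_list (C : ℝ) (hC : 0 < C) :
    ∃ c δ : ℝ, 0 < c ∧ c ≤ 1 ∧ 0 < δ ∧ ∃ K₁ N : ℕ, ∀ n : ℕ, N ≤ n → ∀ q : Sym2 (Fin n) → ℝ,
      (∀ e, 0 ≤ q e ∧ q e ≤ (n : ℝ) ^ (c - 1)) → (∀ v, mu q v ≤ C * Real.log n) →
      pb q (fun G => ¬ GdTot G ∧ ∃ v, K₁ ≤ dg G v) ≤ (n : ℝ) ^ (-δ) := by
  obtain ⟨C', hC'⟩ : ∃ C' : ℝ, C' = 3 * C + 1 := ⟨_, rfl⟩
  have hC'0 : 1 ≤ C' := by linarith
  obtain ⟨g, hg⟩ : ∃ g : ℝ, g = 1 / (100 * C') := ⟨_, rfl⟩
  have hg0 : 0 < g := by rw [hg]; positivity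
  have hg1 : g ≤ 1 / 100 := by
    rw [hg]
    apply div_le_div_of_nonneg_left (by norm_num) (by norm_num)
    linarith
  obtain ⟨κ₂, hκ₂0, hdet⟩ := list_mid g (1 / 100) hg0 (by linarith) (by norm_num)
  obtain ⟨κ, hκ⟩ : ∃ κ : ℝ, κ = min κ₂ (1 / 100) := ⟨_, rfl⟩
  have hκ0 : 0 < κ := by
    rw [hκ]
    exact lt_min hκ₂0 (by norm_num)
  have hκ1 : κ ≤ κ₂ := by rw [hκ]; exact min_le_left _ _
  have hκ2 : κ ≤ 1 / 100 := by rw [hκ]; exact min_le_right _ _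
  obtain ⟨A, hA⟩ : ∃ A : ℝ, A = 24 / κ := ⟨_, rfl⟩
  have hA0 : 0 < A := by rw [hA]; positivity
  obtain ⟨n₀, hdet2⟩ := hdet κ hκ0 hκ1 (by linarith) A hA0
  obtain ⟨x₀, hx₀1, hx₀⟩ := log_small A hA0
  obtain ⟨K₁, hK₁⟩ : ∃ K₁ : ℕ, K₁ = ⌈max x₀ (4 * A + 6)⌉₊ := ⟨_, rfl⟩
  have hK₁r : max x₀ (4 * A + 6) ≤ K₁ := by rw [hK₁]; exact Nat.le_ceil _
  obtain ⟨N, hN⟩ := Filter.eventually_atTop.1
    ((ev_log (600 + 2 * (100 / g))).and
      ((ev_log3 (12 * (C' + 1)) (1 / 2) (by linarith) (by norm_num)).and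
      ((ev_const 5 (κ / 2) (by positivity)).and
      ((ev_rpow 5 (2 * κ) κ (by linarith)).and
      (Filter.eventually_ge_atTop (max n₀ 6))))))
  refine ⟨κ / 4, κ, by positivity, by linarith, hκ0, K₁, N, fun n hn q hq' hmu => ?_⟩
  obtain ⟨v1, v2, v3, v4, hn6'⟩ := hN n hn
  have hn₀ : n₀ ≤ n := le_trans (le_max_left _ _) hn6'
  have hn6 : 6 ≤ n := le_trans (le_max_right _ _) hn6'
  have hnr : (6 : ℝ) ≤ n := by exact_mod_cast hn6
  have hn0 : (0 : ℝ) < n := by linarith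
  have hn1 : (1 : ℝ) ≤ n := by linarith
  obtain ⟨l, hl⟩ : ∃ l : ℝ, l = Real.log n := ⟨_, rfl⟩
  rw [← hl] at v1 v2
  have hgp : 0 < 100 / g := by positivity
  have hl1 : 600 ≤ l := by linarith
  have hl0 : 0 < l := by linarith
  obtain ⟨qm, hqm⟩ : ∃ qm : ℝ, qm = (n : ℝ) ^ (κ / 4 - 1) := ⟨_, rfl⟩
  have hqm0 : 0 < qm := by rw [hqm]; positivity
  have hqm1 : qm ≤ 1 := by
    rw [hqm]
    exact Real.rpow_le_one_of_one_le_of_nonpos hn1 (by linarith)
  have hq : ∀ e, 0 ≤ q e ∧ q e ≤ 1 := fun e => ⟨(hq' e).1, (hq' e).2.trans (by rw [← hqm]; exact hqm1)⟩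
  have hqle : ∀ e, q e ≤ qm := fun e => by rw [hqm]; exact (hq' e).2
  have hexp : ∀ x : ℝ, Real.exp (x * l) = (n : ℝ) ^ x := fun x => by
    rw [hl]
    exact exp_mul_log n (by omega) x
  -- the threshold
  have hFup : ∀ k : ℕ, C' * l < k → FF q k < (n : ℝ) ^ ((3 : ℝ) / 5) := by
    intro k hk
    have h1 : FF q k ≤ ∑ _v : Fin n, Real.exp (-l) := by
      unfold FF
      apply sum_le_sum
      intro v _
      refine (TS_chern q hq (sU v univ) k 1 zero_le_one).trans ?_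
      apply Real.exp_le_exp.2
      rw [qs_mu]
      have h2 : mu q v * Real.exp 1 ≤ (C * l) * 3 := by
        have e1 : Real.exp 1 ≤ 3 := by
          have := Real.exp_one_lt_d9
          linarith
        have e2 := hmu v
        rw [← hl] at e2
        have e3 : 0 ≤ C * l := by positivity
        have e4 := (Real.exp_pos 1).le
        calc mu q v * Real.exp 1 ≤ (C * l) * Real.exp 1 := by gcongr
          _ ≤ (C * l) * 3 := by gcongr
      rw [hC'] at hk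
      linarith
    rw [sum_const, card_univ, Fintype.card_fin, nsmul_eq_mul] at h1
    have h2 : (n : ℝ) * Real.exp (-l) = 1 := by
      rw [Real.exp_neg, hl, Real.exp_log hn0]
      field_simp
    have h3 : (1 : ℝ) < (n : ℝ) ^ ((3 : ℝ) / 5) :=
      Real.one_lt_rpow (by linarith) (by norm_num)
    linarith
  have hex : ∃ k₀ : ℕ, (n : ℝ) ^ ((3 : ℝ) / 5) ≤ FF q k₀ ∧
      FF q (k₀ + 1) < (n : ℝ) ^ ((3 : ℝ) / 5) := by
    by_contra hcon
    push Not at hcon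
    have h4 : ∀ k, (n : ℝ) ^ ((3 : ℝ) / 5) ≤ FF q k := by
      intro k
      induction k with
      | zero =>
        rw [FF_zero]
        calc (n : ℝ) ^ ((3 : ℝ) / 5) ≤ (n : ℝ) ^ (1 : ℝ) := by
              apply Real.rpow_le_rpow_of_exponent_le hn1
              norm_num
          _ = n := Real.rpow_one _
      | succ k ih => exact hcon k ih
    obtain ⟨k, hk⟩ := exists_nat_gt (C' * l)
    linarith [h4 k, hFup k hk]
  obtain ⟨k₀, hk0, hk1⟩ := hex
  have hk₀u : (k₀ : ℝ) ≤ C' * l := by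
    by_contra hcon
    push Not at hcon
    linarith [hFup k₀ hcon]
  have hF0 : 0 < FF q k₀ := lt_of_lt_of_le (by positivity) hk0
  -- the lower threshold
  obtain ⟨k₁, s, hk₁1, hks, hk4, hsl, hII, hIII⟩ : ∃ k₁ s : ℕ, 1 ≤ k₁ ∧ k₁ + s = k₀ + 1 ∧
      k₁ + s ≤ 4 * k₁ ∧ (s : ℝ) * (4 + 3 * κ * l / k₁) ≤ 1 / 5 * l ∧
      (1 / 100 * l < k₀ → ∀ d : ℕ, (1 - g) * (k₀ : ℝ) < d → k₁ ≤ d) ∧
      ((k₀ : ℝ) ≤ 1 / 100 * l → k₁ = k₀ / 4 + 1) := by
    rcases le_or_gt (k₀ : ℝ) (1 / 100 * l) with h | h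
    · refine ⟨k₀ / 4 + 1, k₀ - k₀ / 4, by omega, by omega, by omega, ?_,
        fun h' => absurd h' (not_lt.2 h), fun _ => rfl⟩
      have hk₁r : (1 : ℝ) ≤ ((k₀ / 4 + 1 : ℕ) : ℝ) := by
        exact_mod_cast (by omega : 1 ≤ k₀ / 4 + 1)
      have hs3 : ((k₀ - k₀ / 4 : ℕ) : ℝ) ≤ 3 * ((k₀ / 4 + 1 : ℕ) : ℝ) := by
        exact_mod_cast (by omega : k₀ - k₀ / 4 ≤ 3 * (k₀ / 4 + 1))
      have hk₁le : ((k₀ / 4 + 1 : ℕ) : ℝ) ≤ k₀ / 4 + 1 := by
        push_cast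
        have := Nat.cast_div_le (m := k₀) (n := 4) (α := ℝ)
        push_cast at this
        linarith
      set k₁r : ℝ := ((k₀ / 4 + 1 : ℕ) : ℝ) with hk₁rd
      calc ((k₀ - k₀ / 4 : ℕ) : ℝ) * (4 + 3 * κ * l / k₁r) ≤
          (3 * k₁r) * (4 + 3 * κ * l / k₁r) := by gcongr
        _ = 12 * k₁r + 9 * κ * l := by
            field_simp
            ring
        _ ≤ 12 * (k₀ / 4 + 1) + 9 * (1 / 100) * l := by gcongr
        _ ≤ 1 / 5 * l := by linarith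
    · have hk₀6 : (6 : ℝ) < k₀ := by linarith
      have hgk : 1 ≤ g * k₀ := by
        have h1 : 100 / g ≤ l := by linarith
        rw [div_le_iff₀ hg0] at h1
        nlinarith
      have hpos : 0 ≤ (1 - g) * (k₀ : ℝ) := by
        apply mul_nonneg
        · linarith
        · linarith
      set k₁ : ℕ := ⌈(1 - g) * (k₀ : ℝ)⌉₊ with hk₁
      have e1 : (1 - g) * (k₀ : ℝ) ≤ k₁ := Nat.le_ceil _
      have e2 : (k₁ : ℝ) < (1 - g) * (k₀ : ℝ) + 1 := Nat.ceil_lt_add_one hpos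
      have e3 : k₁ ≤ k₀ := by
        rw [hk₁, Nat.ceil_le]
        nlinarith
      have e4 : (k₀ : ℝ) / 2 ≤ k₁ := by nlinarith
      have e5 : (1 : ℝ) ≤ k₁ := by linarith
      have e6 : 1 ≤ k₁ := by exact_mod_cast e5
      have e7 : k₀ + 1 ≤ 4 * k₁ := by
        have : ((k₀ + 1 : ℕ) : ℝ) ≤ ((4 * k₁ : ℕ) : ℝ) := by
          push_cast
          linarith
        exact_mod_cast this
      have e8 : ((k₀ + 1 - k₁ : ℕ) : ℝ) = k₀ + 1 - k₁ := by
        rw [Nat.cast_sub (by omega)]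
        push_cast
        ring
      have e9 : ((k₀ + 1 - k₁ : ℕ) : ℝ) ≤ 2 * g * k₀ := by
        rw [e8]
        linarith
      refine ⟨k₁, k₀ + 1 - k₁, e6, by omega, by omega, ?_, fun _ d hd => ?_,
        fun h' => absurd h' (not_le.2 h)⟩
      · have f1 : ((k₀ + 1 - k₁ : ℕ) : ℝ) / k₁ ≤ 4 * g := by
          rw [div_le_iff₀ (by linarith)]
          nlinarith
        calc ((k₀ + 1 - k₁ : ℕ) : ℝ) * (4 + 3 * κ * l / k₁) =
            4 * ((k₀ + 1 - k₁ : ℕ) : ℝ) + (((k₀ + 1 - k₁ : ℕ) : ℝ) / k₁) * (3 * κ * l) := by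
              field_simp
          _ ≤ 4 * (2 * g * k₀) + (4 * g) * (3 * κ * l) := by gcongr
          _ ≤ 4 * (2 * g * (C' * l)) + (4 * g) * (3 * κ * l) := by gcongr
          _ = 8 * (g * C') * l + 12 * (g * κ) * l := by ring
          _ ≤ 8 * (1 / 100) * l + 12 * (1 / 100 * (1 / 100)) * l := by
              have f2 : g * C' = 1 / 100 := by
                rw [hg]
                field_simp
              rw [f2]
              gcongr
          _ ≤ 1 / 5 * l := by linarith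
      · rw [hk₁]
        exact Nat.ceil_le.2 hd.le
  -- the expected number of vertices of degree at least `k₁`
  have hest : FF q k₁ ≤ 2 * (n : ℝ) ^ (1 - 3 * κ) := by
    have h1 := FF_est q hq qm hqle hqm0.le l κ (1 / 5) hl0.le hκ0.le k₁ s hk₁1 hk4 (by
      rw [hks, hexp, hqm]
      have e1 : ((k₀ + 1 : ℕ) : ℝ) ≤ (C' + 1) * l := by
        push_cast
        linarith
      have e2 : l ≤ l ^ 3 := by
        have : l * 1 ≤ l * l ^ 2 := by
          gcongr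
          exact one_le_pow₀ (by linarith)
        calc l = l * 1 := (mul_one l).symm
          _ ≤ l * l ^ 2 := this
          _ = l ^ 3 := by ring
      calc 6 * (n : ℝ) ^ (κ / 4 - 1) * ((k₀ + 1 : ℕ) : ℝ) * (n : ℝ) ^ (3 * κ) ≤
          6 * (n : ℝ) ^ (κ / 4 - 1) * ((C' + 1) * l) * (n : ℝ) ^ (3 * κ) := by gcongr
        _ = (6 * (C' + 1) * l) * ((n : ℝ) ^ (κ / 4 - 1) * (n : ℝ) ^ (3 * κ)) := by ring
        _ ≤ (6 * (C' + 1) * l ^ 3) * ((n : ℝ) ^ (κ / 4 - 1) * (n : ℝ) ^ (3 * κ)) := by gcongr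
        _ ≤ (n : ℝ) ^ ((1 : ℝ) / 2) * ((n : ℝ) ^ (κ / 4 - 1) * (n : ℝ) ^ (3 * κ)) := by
            gcongr
            have : 0 ≤ (C' + 1) * l ^ 3 := by positivity
            linarith
        _ = (n : ℝ) ^ (1 / 2 + (κ / 4 - 1 + 3 * κ)) := by
            rw [← Real.rpow_add hn0, ← Real.rpow_add hn0]
        _ ≤ 1 := by
            apply Real.rpow_le_one_of_one_le_of_nonpos hn1
            linarith) hsl
    rw [hks] at h1
    have h2 : (n : ℝ) * Real.exp (-(3 * κ * l)) = (n : ℝ) ^ (1 - 3 * κ) := by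
      rw [show -(3 * κ * l) = (-(3 * κ)) * l by ring, hexp]
      nth_rewrite 1 [← Real.rpow_one (n : ℝ)]
      rw [← Real.rpow_add hn0]
      congr 1
    have h3 : Real.exp (1 / 5 * l) * FF q (k₀ + 1) ≤ (n : ℝ) ^ (1 - 3 * κ) := by
      rw [hexp]
      calc (n : ℝ) ^ ((1 : ℝ) / 5) * FF q (k₀ + 1) ≤
          (n : ℝ) ^ ((1 : ℝ) / 5) * (n : ℝ) ^ ((3 : ℝ) / 5) := by gcongr
        _ = (n : ℝ) ^ ((4 : ℝ) / 5) := by
            rw [← Real.rpow_add hn0]
            norm_num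
        _ ≤ _ := by
            apply Real.rpow_le_rpow_of_exponent_le hn1
            linarith
    rw [h2] at h1
    linarith
  have hmark := count_markov q hq k₁ ((n : ℝ) ^ (1 - κ)) (by positivity)
  have hmark2 : FF q k₁ / (n : ℝ) ^ (1 - κ) ≤ 2 * (n : ℝ) ^ (-(2 * κ)) := by
    rw [div_le_iff₀ (by positivity), mul_assoc, ← Real.rpow_add hn0]
    have : -(2 * κ) + (1 - κ) = 1 - 3 * κ := by ring
    rw [this]
    exact hest
  -- the maximum degree
  have hsec := second q hq qm hqle hqm0.le k₀ hF0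
  have hsec2 : (FF q k₀ + n ^ 2 * qm) / FF q k₀ ^ 2 ≤ 2 * (n : ℝ) ^ (-(2 * κ)) := by
    have e0 : (FF q k₀ + n ^ 2 * qm) / FF q k₀ ^ 2 =
        1 / FF q k₀ + n ^ 2 * qm / FF q k₀ ^ 2 := by
      field_simp
    have e1 : 1 / FF q k₀ ≤ (n : ℝ) ^ (-(2 * κ)) := by
      calc 1 / FF q k₀ ≤ 1 / (n : ℝ) ^ ((3 : ℝ) / 5) := by gcongr
        _ = (n : ℝ) ^ (-(3 / 5) : ℝ) := by rw [Real.rpow_neg hn0.le, one_div]
        _ ≤ _ := by
            apply Real.rpow_le_rpow_of_exponent_le hn1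
            linarith
    have e2 : n ^ 2 * qm / FF q k₀ ^ 2 ≤ (n : ℝ) ^ (-(2 * κ)) := by
      have e3 : (n : ℝ) ^ 2 = (n : ℝ) ^ (2 : ℝ) := by
        rw [← Real.rpow_natCast]
        norm_num
      have e4 : ((n : ℝ) ^ ((3 : ℝ) / 5)) ^ 2 = (n : ℝ) ^ ((6 : ℝ) / 5) := by
        rw [← Real.rpow_natCast, ← Real.rpow_mul hn0.le]
        norm_num
      calc n ^ 2 * qm / FF q k₀ ^ 2 ≤ n ^ 2 * qm / ((n : ℝ) ^ ((3 : ℝ) / 5)) ^ 2 := by gcongr
        _ = (n : ℝ) ^ (2 + (κ / 4 - 1) - 6 / 5) := by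
            rw [e4, e3, hqm, ← Real.rpow_add hn0, ← Real.rpow_sub hn0]
        _ ≤ _ := by
            apply Real.rpow_le_rpow_of_exponent_le hn1
            linarith
    rw [e0]
    linarith
  -- local sparsity
  have hspa := sparse_all q hq qm hqle A (κ / 8 * l) (9 * (n : ℝ) ^ (1 - κ)) (by positivity) hn6
    (by
      have e1 : 2 * (κ / 8 * l) = κ / 4 * l := by ring
      rw [e1, hexp, hqm]
      calc (n : ℝ) ^ (κ / 4 - 1) * (n : ℝ) ^ (κ / 4) * (9 * (n : ℝ) ^ (1 - κ)) / 2 =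
          9 / 2 * ((n : ℝ) ^ (κ / 4 - 1) * (n : ℝ) ^ (κ / 4) * (n : ℝ) ^ (1 - κ)) := by ring
        _ = 9 / 2 * (n : ℝ) ^ (-(κ / 2)) := by
            rw [← Real.rpow_add hn0, ← Real.rpow_add hn0]
            congr 2
            ring
        _ ≤ (n : ℝ) ^ (κ / 2) * (n : ℝ) ^ (-(κ / 2)) := by
            gcongr
            linarith
        _ = 1 := by
            rw [← Real.rpow_add hn0]
            simp)
    (by
      rw [← hl, hA]
      apply le_of_eq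
      field_simp
      norm_num)
  -- the events
  have hbad : pb q (fun G => ¬ GdTot G ∧ ∃ v, K₁ ≤ dg G v) ≤ pb q (fun G =>
      (∀ v, dg G v < k₀) ∨
      ((n : ℝ) ^ (1 - κ) ≤ ((univ.filter (fun v => k₁ ≤ dg G v)).card : ℝ) ∨
      (¬ ∀ X : Finset (Fin n), (X.card : ℝ) ≤ 9 * (n : ℝ) ^ (1 - κ) →
        e2 G X ≤ A * X.card))) := by
    apply pb_mono q hq
    rintro G ⟨hG, v₁, hv₁⟩
    by_contra hcon
    apply hG
    rw [not_or, not_or, not_not] at hcon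
    obtain ⟨g1, g2, g3⟩ := hcon
    push Not at g1 g2
    intro D hD1 hD2 H hH k hk
    obtain ⟨v₂, hv₂⟩ := g1
    have hDk : k₀ ≤ D := hv₂.trans (hD1 v₂)
    have hDK : K₁ ≤ D := hv₁.trans (hD1 v₁)
    have hDr : max x₀ (4 * A + 6) ≤ D := hK₁r.trans (by exact_mod_cast hDK)
    rcases le_or_gt (k₀ : ℝ) (1 / 100 * l) with h | h
    · have hk₁e := hIII h
      refine list_small G D hD1 A hA0 ⌈(n : ℝ) ^ (1 - κ)⌉₊ ?_
        (hx₀ D ((le_max_left _ _).trans hDr)) ((le_max_right _ _).trans hDr)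
        (univ.filter (fun v => k₁ ≤ dg G v)) (Nat.lt_ceil.2 g2).le ?_ ?_ H hH k hk
      · rw [Nat.one_le_ceil_iff]
        positivity
      · intro v hv
        have hv' : dg G v < k₁ := by
          by_contra hcon
          exact hv (mem_filter.2 ⟨mem_univ _, not_lt.1 hcon⟩)
        omega
      · intro X hX
        apply g3
        have e1 : (X.card : ℝ) ≤ 3 * ((⌈(n : ℝ) ^ (1 - κ)⌉₊ : ℕ) : ℝ) := by exact_mod_cast hX
        have e3 : ((⌈(n : ℝ) ^ (1 - κ)⌉₊ : ℕ) : ℝ) < (n : ℝ) ^ (1 - κ) + 1 :=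
          Nat.ceil_lt_add_one (by positivity)
        have e4 : (1 : ℝ) ≤ (n : ℝ) ^ (1 - κ) := Real.one_le_rpow hn1 (by linarith)
        linarith
    · refine hdet2 n hn₀ G D hD1 ?_ ?_ g3 H hH k hk
      · rw [← hl]
        have : (k₀ : ℝ) ≤ D := by exact_mod_cast hDk
        linarith
      · refine le_trans ?_ g2.le
        have e1 : (univ.filter (fun v => (1 - g) * (D : ℝ) < dg G v)).card ≤
            (univ.filter (fun v => k₁ ≤ dg G v)).card := by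
          apply card_le_card
          intro v hv
          rw [mem_filter] at hv ⊢
          refine ⟨hv.1, hII h _ (lt_of_le_of_lt ?_ hv.2)⟩
          have e3 : (k₀ : ℝ) ≤ D := by exact_mod_cast hDk
          have e4 : 0 ≤ 1 - g := by linarith
          gcongr
        exact_mod_cast e1
  have hsum : pb q (fun G => ¬ GdTot G ∧ ∃ v, K₁ ≤ dg G v) ≤
      2 * (n : ℝ) ^ (-(2 * κ)) + (2 * (n : ℝ) ^ (-(2 * κ)) + 1 / n) := by
    refine hbad.trans ((pb_or_le _ hq _ _).trans (add_le_add (hsec.trans hsec2) ?_))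
    exact (pb_or_le _ hq _ _).trans (add_le_add (hmark.trans hmark2) hspa)
  have hfin : 1 / (n : ℝ) ≤ (n : ℝ) ^ (-(2 * κ)) := by
    rw [one_div, ← Real.rpow_neg_one]
    apply Real.rpow_le_rpow_of_exponent_le hn1
    linarith
  linarith

end Pool.Agent.W2helper87.TC
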