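import Pool.Agent.W2helper87.TC.Col0
import Pool.Agent.W2helper87.LD.Det4

/-!
# The numbers of the random splitting for smaller degrees
-/

set_option autoImplicit false

namespace Pool.Agent.W2helper87.TC

open Finset Pool.Agent.H162R2.Sparse Pool.Agent.H162R2.AG Pool.Agent.W2helper87.SR
open Pool.Agent.W2helper87.LD

set_option maxHeartbeats 1000000 in
theorem nums0 (g : ℝ) (hg : 0 < g) (hg1 : g ≤ 1) :
    ∃ (J : ℕ) (κ₁ : ℝ), 0 < κ₁ ∧ κ₁ ≤ 1 / 2 ∧ ∀ A : ℝ, 0 ≤ A → ∃ x₁ : ℝ, 1 ≤ x₁ ∧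
      ∀ D D' : ℕ, x₁ ≤ D → (D' : ℝ) ≤ (1 - g) * D → ∃ mj dj : ℕ → ℕ,
        (∀ j < J, (D' : ℝ) / 2 ^ (j + 1) + κ₁ * D ≤ dj j) ∧
        ((D' : ℝ) / 2 ^ J + κ₁ * D ≤ dj J) ∧
        (∀ j < J, (dj j : ℝ) + 2 * A + κ₁ * D ≤ mj j) ∧
        ((∑ j ∈ range J, mj j : ℕ) : ℝ) + 2 * dj J + κ₁ * D + 2 * A ≤ D := by
  classical
  obtain ⟨J, hJ⟩ : ∃ J : ℕ, 4 / g ≤ 2 ^ J := by
    obtain ⟨J, hJ⟩ := pow_unbounded_of_one_lt (4 / g) (by norm_num : (1 : ℝ) < 2)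
    exact ⟨J, hJ.le⟩
  have hJ0 : (0 : ℝ) < 2 * J + 3 := by positivity
  set κ₁ : ℝ := g / (4 * (2 * J + 3)) with hκ₁
  have hκ₁0 : 0 < κ₁ := by positivity
  have hκ₁1 : κ₁ ≤ 1 / 2 := by
    rw [hκ₁, div_le_div_iff₀ (by positivity) (by norm_num)]
    have : (0 : ℝ) ≤ J := Nat.cast_nonneg _
    linarith
  refine ⟨J, κ₁, hκ₁0, hκ₁1, fun A hA => ⟨1 + 4 * ((J + 1) * (2 * A + 2)) / g, ?_, ?_⟩⟩
  · have : 0 ≤ 4 * ((J + 1) * (2 * A + 2)) / g := by positivity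
    linarith
  intro D D' hDx hD'le
  have hpos : 0 ≤ 4 * ((J + 1) * (2 * A + 2)) / g := by positivity
  have hD1 : (1 : ℝ) ≤ D := by linarith
  have hD0 : (0 : ℝ) < D := by linarith
  set η : ℝ := κ₁ * D with hη
  have hη0 : 0 ≤ η := by positivity
  let dj : ℕ → ℕ := fun j => if j < J then ⌈(D' : ℝ) / 2 ^ (j + 1) + η⌉₊
    else ⌈(D' : ℝ) / 2 ^ J + η⌉₊
  let mj : ℕ → ℕ := fun j => ⌈(dj j : ℝ) + 2 * A + η⌉₊
  refine ⟨mj, dj, ?_, ?_, ?_, ?_⟩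
  · intro j hj
    simp only [dj, if_pos hj]
    exact Nat.le_ceil _
  · simp only [dj, lt_irrefl, if_false]
    exact Nat.le_ceil _
  · intro j hj
    simp only [mj]
    exact Nat.le_ceil _
  · have e1 : ((∑ j ∈ range J, mj j : ℕ) : ℝ) ≤
        ∑ j ∈ range J, ((D' : ℝ) / 2 ^ (j + 1) + (2 * η + 2 * A + 2)) := by
      push_cast
      apply sum_le_sum
      intro j hj
      rw [mem_range] at hj
      have h3 : (mj j : ℝ) < (dj j : ℝ) + 2 * A + η + 1 := Nat.ceil_lt_add_one (by positivity)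
      have h4 : (dj j : ℝ) < (D' : ℝ) / 2 ^ (j + 1) + η + 1 := by
        simp only [dj, if_pos hj]
        exact Nat.ceil_lt_add_one (by positivity)
      linarith
    rw [sum_add_distrib, sum_half, sum_const, card_range, nsmul_eq_mul] at e1
    have e2' : (dj J : ℝ) < (D' : ℝ) / 2 ^ J + η + 1 := by
      simp only [dj, lt_irrefl, if_false]
      exact Nat.ceil_lt_add_one (by positivity)
    have e3 : (D' : ℝ) / 2 ^ J ≤ g * D / 4 := by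
      rw [div_le_iff₀ (by positivity)]
      have h3 : (D' : ℝ) ≤ D := by nlinarith
      calc (D' : ℝ) ≤ D := h3
        _ = g * D / 4 * (4 / g) := by field_simp
        _ ≤ g * D / 4 * 2 ^ J := by gcongr
    have e4 : (2 * J + 3) * η = g * D / 4 := by
      rw [hη, hκ₁]
      field_simp
    have e5 : (J + 1) * (2 * A + 2) ≤ g * D / 4 := by
      have h3 : 4 * ((J + 1) * (2 * A + 2)) / g ≤ D := by linarith
      rw [div_le_iff₀ hg] at h3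
      linarith
    have e6 : (J : ℝ) * (2 * η + 2 * A + 2) + 2 * η + 2 + η + 2 * A =
        (2 * J + 3) * η + (J + 1) * (2 * A + 2) := by ring
    have e7 : 0 ≤ g * D := by positivity
    linarith

theorem exc0 (J : ℕ) (κ₁ b : ℝ) (hκ₁0 : 0 < κ₁) (hb : 0 < b) (κ : ℝ)
    (hκ : κ ≤ κ₁ ^ 2 * b / 4) : ∃ n₀ : ℕ, ∀ n : ℕ, n₀ ≤ n → ∀ D : ℕ, 0 < D →
      b * Real.log n ≤ D →
      (n : ℝ) * 2 ^ (2 ^ J) * Real.exp (-((κ₁ * D) ^ 2) / D) +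
        n * D * (J + 1) * Real.exp (-((κ₁ * D) ^ 2) / D) ≤ (n : ℝ) ^ (1 - κ) := by
  set K : ℝ := 2 ^ (2 ^ J) + (J + 1) * (2 / κ₁ ^ 2) with hK
  have hK0 : 0 < K := by positivity
  have v2 : ∀ᶠ n : ℕ in Filter.atTop, K ≤ (n : ℝ) ^ (κ₁ ^ 2 * b / 4) :=
    ((tendsto_rpow_atTop (by positivity)).comp
      tendsto_natCast_atTop_atTop).eventually_ge_atTop _
  obtain ⟨N, hN⟩ := Filter.eventually_atTop.1 (v2.and (Filter.eventually_ge_atTop 1))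
  refine ⟨N, fun n hn D hDn hD => ?_⟩
  obtain ⟨w2, hn1⟩ := hN n hn
  have hnr : (1 : ℝ) ≤ n := by exact_mod_cast hn1
  have hn0 : (0 : ℝ) < n := by linarith
  have hD0 : (0 : ℝ) < D := by exact_mod_cast hDn
  have e0 : -((κ₁ * (D : ℝ)) ^ 2) / (D : ℝ) = -(κ₁ ^ 2 * D / 2) + -(κ₁ ^ 2 * D / 2) := by
    field_simp
    ring
  have e1 : Real.exp (-(κ₁ ^ 2 * D / 2)) ≤ (n : ℝ) ^ (-(κ₁ ^ 2 * b / 2)) := by
    rw [← exp_log_rpow n (by omega)]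
    apply Real.exp_le_exp.2
    have : κ₁ ^ 2 * (b * Real.log n) ≤ κ₁ ^ 2 * D := by gcongr
    linarith
  have e2' : Real.exp (-(κ₁ ^ 2 * D / 2)) ≤ 1 := by
    rw [Real.exp_le_one_iff]
    have : 0 ≤ κ₁ ^ 2 * (D : ℝ) / 2 := by positivity
    linarith
  have e3 : (D : ℝ) * Real.exp (-(κ₁ ^ 2 * D / 2)) ≤ 2 / κ₁ ^ 2 := by
    have h3 := Real.add_one_le_exp (κ₁ ^ 2 * D / 2)
    rw [Real.exp_neg, ← div_eq_mul_inv, div_le_div_iff₀ (Real.exp_pos _) (by positivity)]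
    linarith
  rw [e0, Real.exp_add]
  set E := Real.exp (-(κ₁ ^ 2 * D / 2)) with hE
  have hE0 : 0 < E := Real.exp_pos _
  calc (n : ℝ) * 2 ^ (2 ^ J) * (E * E) + n * D * (J + 1) * (E * E) =
      n * E * (2 ^ (2 ^ J) * E + (J + 1) * (D * E)) := by ring
    _ ≤ n * E * (2 ^ (2 ^ J) * 1 + (J + 1) * (2 / κ₁ ^ 2)) := by gcongr
    _ = n * E * K := by rw [hK, mul_one]
    _ ≤ n * (n : ℝ) ^ (-(κ₁ ^ 2 * b / 2)) * (n : ℝ) ^ (κ₁ ^ 2 * b / 4) := by gcongr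
    _ = (n : ℝ) ^ (1 - κ₁ ^ 2 * b / 4) := by
        nth_rewrite 1 [← Real.rpow_one (n : ℝ)]
        rw [← Real.rpow_add hn0, ← Real.rpow_add hn0]
        congr 1
        ring
    _ ≤ (n : ℝ) ^ (1 - κ) := by
        apply Real.rpow_le_rpow_of_exponent_le hnr
        linarith

end Pool.Agent.W2helper87.TC
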